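import Pool.Agent.MP_e8e0b6_ag.R2.C.GSpec
import Pool.Agent.MP_19ffc6_ag.Res.Cover

/-!
Purity of the branch locus on a chart.
-/

set_option autoImplicit false

namespace Pool.Agent.MP_e8e0b6_ag.R2.C

open Pool.Agent.MP_19ffc6_ag.Res (Fix Dv In)
open Polynomial

namespace Aje

theorem fin (A L G : Type) [CommRing A] [IsDomain A]
    [IsIntegrallyClosed A] [IsNoetherianRing A] [Field L]
    [Algebra A L] [Group G] [Finite G] [MulSemiringAction G L] [FaithfulSMul G L]
    (hi : Function.Injective (algebraMap A L)) (hf : ∀ r, Fix G (algebraMap A L r))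
    (hr : ∀ z : L, Fix G z → ∃ a b : A, b ≠ 0 ∧ algebraMap A L b * z = algebraMap A L a) :
    Module.Finite A (integralClosure A L) := by
  let K := FixedPoints.subfield G L
  let : Algebra A K := ((algebraMap A L).codRestrict K fun r g => hf r g).toAlgebra
  have : IsScalarTower A K L := IsScalarTower.of_algebraMap_eq fun _ => rfl
  have : FaithfulSMul A K := (faithfulSMul_iff_algebraMap_injective A K).2 fun a b h =>
    hi (congrArg Subtype.val h)
  have : IsFractionRing A K := IsFractionRing.of_field A K fun z => by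
    obtain ⟨a, b, hb, h⟩ := hr z.1 z.2
    refine ⟨a, b, Subtype.ext ?_⟩
    have h0 : algebraMap A L b ≠ 0 := fun e => hb (hi (e.trans (map_zero _).symm))
    exact (eq_div_iff h0).2 ((mul_comm _ _).trans h)
  exact IsIntegralClosure.finite A K L (integralClosure A L)

theorem cl {A L : Type} [CommRing A] [Field L] [Algebra A L] (a : L) (T : Set L)
    (hT : ∀ t ∈ T, t = a ∨ t ∈ (algebraMap A L).range) {z : L} (hz : z ∈ Subring.closure T) :
    ∃ r : A[X], aeval a r = z := by
  have : Subring.closure T ≤ (aeval a : A[X] →ₐ[A] L).range.toSubring :=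
    Subring.closure_le.2 fun t ht => by
      rcases hT t ht with rfl | ⟨r, rfl⟩
      · exact ⟨X, aeval_X _⟩
      · exact ⟨C r, aeval_C _ _⟩
  exact this hz

end Aje

theorem aje : AjeStmt := by
  intro eta k A L G _ _ _ _ _ _ _ _ _ _ _ _ hc hi hf hr hI
  have := hc.dom
  have := hc.sm
  have := hc.nrm
  have : IsNoetherianRing A := Algebra.FiniteType.isNoetherianRing k A
  have hfin := Aje.fin A L G hi hf hr
  refine ⟨hfin, eta A L hi hfin fun O hO => ?_⟩
  obtain ⟨n, x, hx, halg⟩ := hc.ex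
  let φ := IsScalarTower.toAlgHom k A L
  let R := φ.range
  let e : A ≃ₐ[k] R := AlgEquiv.ofInjective φ hi
  have he : ∀ a, (e a).1 = algebraMap A L a := fun _ => rfl
  have : IsNoetherianRing R := isNoetherianRing_of_ringEquiv A e.toRingEquiv
  have hint : ∀ s : L, IsIntegral A s ↔ IsIntegral R s := fun s =>
    RingEquiv.isIntegral_iff e.toRingEquiv (RingHom.ext fun _ => rfl) s
  obtain ⟨-, a, f, f1, f2, f3, f4, -, u, u1, u2, u3⟩ := Pool.Agent.MP_19ffc6_ag.Res.aj (G := G) R
    (by rintro _ ⟨r, rfl⟩; exact hf r)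
    (fun z hz => by
      obtain ⟨a, b, hb, h⟩ := hr z hz
      exact ⟨_, ⟨b, rfl⟩, fun e => hb (hi (e.trans (map_zero _).symm)), ⟨a, h.symm⟩⟩)
    (fun z hz h => by
      obtain ⟨a, b, hb, h1⟩ := hr z hz
      have h0 : algebraMap A L b ≠ 0 := fun e => hb (hi (e.trans (map_zero _).symm))
      let ψ : FractionRing A →ₐ[A] L := IsFractionRing.liftAlgHom (g := Algebra.ofId A L) hi
      have h2 : ψ (algebraMap A _ a / algebraMap A _ b) = z := by
        rw [map_div₀, AlgHom.commutes, AlgHom.commutes, div_eq_iff h0, mul_comm, h1]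
      obtain ⟨c, hc⟩ := IsIntegrallyClosed.algebraMap_eq_of_integral
        ((isIntegral_algHom_iff ψ ψ.injective).1 (h2 ▸ (hint z).2 h))
      exact ⟨c, by rw [← h2, ← hc, AlgHom.commutes]; rfl⟩)
    (fun i => e (x i))
    (by
      have : MvPolynomial.aeval (fun i => e (x i)) =
          e.toAlgHom.comp (MvPolynomial.aeval x) := MvPolynomial.algHom_ext fun i => by simp
      rw [this]
      exact hx.comp (RingHom.FormallySmooth.of_bijective (f := e.toAlgHom.toRingHom) e.bijective))
    (by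
      rintro _ ⟨r, rfl⟩
      set B := Algebra.adjoin k (Set.range x)
      have hB : B.map φ = Algebra.adjoin k (Set.range fun i => (e (x i)).1) := by
        rw [AlgHom.map_adjoin, ← Set.range_comp]; rfl
      rw [← hB]
      exact IsAlgebraic.ringHom_of_comp_eq (B.equivMapOfInjective φ hi).toAlgHom.toRingHom
        φ.toRingHom (halg r) (B.equivMapOfInjective φ hi).injective (RingHom.ext fun _ => rfl))
    (fun _ => 1) (by simp) (fun i => (e (x i)).1) (by simp) (fun _ h => (h rfl).elim)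
    (fun W hW _ g hg _ => hI W hW g hg) (fun _ _ _ h => (h rfl).elim) O
    (by rintro _ ⟨r, rfl⟩; exact hO r)
  have hT : ∀ t ∈ insert a (R : Set L) ∪ Set.range fun i => (e (x i)).1,
      t = a ∨ t ∈ (algebraMap A L).range := by
    rintro t ((rfl | ⟨r, rfl⟩) | ⟨i, rfl⟩)
    exacts [Or.inl rfl, Or.inr ⟨r, rfl⟩, Or.inr ⟨x i, rfl⟩]
  obtain ⟨p, hp⟩ := Aje.cl a _ hT u1
  obtain ⟨F, F1, -, F3⟩ := lifts_and_natDegree_eq_and_monic
    ((lifts_iff_coeff_lifts (f := algebraMap A L) f).2 f2) f1
  refine ⟨a, F, p, F3, ?_, ?_, hp ▸ u2, fun s hs => ?_⟩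
  · rw [← eval_map_algebraMap, F1, f3]
  · rw [← eval_map_algebraMap, ← derivative_map, F1, f4]
  · obtain ⟨r, hr⟩ := Aje.cl a _ hT (u3 s ((hint s).1 hs))
    exact ⟨r, by rw [hp, hr]⟩

end Pool.Agent.MP_e8e0b6_ag.R2.C
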