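import Pool.Agent.MP_e8e0b6_ag.R2.C.Bas

/-!
The module of sections over the line has two generators.
-/

set_option autoImplicit false

namespace Pool.Agent.MP_e8e0b6_ag.R2.C

open Pool.Agent.MP_79c67d_ag Pool.Agent.MP_20d318_ag Pool.Agent.MP_20d318_ag.AG
  Pool.Agent.MP_20d318_ag.BV Pool.Agent.MP_20d318_ag.CB

namespace Alg

variable {k F : Type} [Field k] [Field F] [Algebra k F] {R : Subalgebra k F}
  {N N' : Submodule R F} {I : Ideal R} {t f x y : F}

/-- The multiples of `y` by members of `N`. -/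
def ml (N : Submodule R F) (y : F) : Submodule R F := N.map (LinearMap.mulRight R y)

theorem mem_ml : x ∈ ml N y ↔ ∃ a ∈ N, a * y = x := Iff.rfl

theorem ml_smul : I • ml N y = ml (I • N) y := (Submodule.map_smul'' _ _ _).symm

/-- The ring generated by `t` as a module over the base. -/
def aa (R : Subalgebra k F) (t : F) : Submodule R F where
  carrier := ↑(R ⊔ Algebra.adjoin k {t})
  add_mem' := fun h h' => add_mem h h'
  zero_mem' := zero_mem (R ⊔ Algebra.adjoin k {t})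
  smul_mem' := fun c _ h => mul_mem ((le_sup_left : R ≤ R ⊔ Algebra.adjoin k {t}) c.2) h

theorem mem_aa : x ∈ aa R t ↔ x ∈ R ⊔ Algebra.adjoin k {t} := Iff.rfl

theorem t_mem : t ∈ R ⊔ Algebra.adjoin k {t} :=
  (le_sup_right : _ ≤ R ⊔ Algebra.adjoin k {t}) (Algebra.subset_adjoin rfl)

theorem st_smul (h : ∀ x ∈ N, f * x ∈ N) : ∀ x ∈ I • N, f * x ∈ I • N := fun _ hx =>
  Submodule.smul_induction_on hx
    (fun r hr x hx => by rw [mul_smul_comm]; exact Submodule.smul_mem_smul hr (h x hx))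
    fun x y hx hy => by rw [mul_add]; exact add_mem hx hy

theorem st_sup {P : Submodule R F} (h : ∀ x ∈ N, f * x ∈ P) (h' : ∀ x ∈ N', f * x ∈ P) :
    ∀ x ∈ N ⊔ N', f * x ∈ P := fun x hx => by
  obtain ⟨a, ha, b, hb, rfl⟩ := Submodule.mem_sup.1 hx
  rw [mul_add]; exact add_mem (h a ha) (h' b hb)

theorem st_span {P : Submodule R F} {G : Set F} (h : ∀ x ∈ G, f * x ∈ P) :
    ∀ x ∈ Submodule.span R G, f * x ∈ P := fun x hx => by
  induction hx using Submodule.span_induction with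
  | mem b hb => exact h b hb
  | zero => rw [mul_zero]; exact zero_mem _
  | add b c _ _ hb hc => rw [mul_add]; exact add_mem hb hc
  | smul c b _ hb => rw [mul_smul_comm]; exact P.smul_mem c hb

theorem st_ml (hf : f ∈ aa R t) : ∀ x ∈ ml (aa R t) y, f * x ∈ ml (aa R t) y := by
  rintro _ ⟨a, ha, rfl⟩
  exact ⟨f * a, mem_aa.2 (mul_mem (mem_aa.1 hf) (mem_aa.1 ha)), mul_assoc f a y⟩

/-- A module that contains `1` and is stable under `t` contains the ring. -/
theorem aa_le (h1 : (1 : F) ∈ N) (h : ∀ x ∈ N, t * x ∈ N) : aa R t ≤ N := by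
  let T : Subalgebra k F :=
    { carrier := {f | ∀ x ∈ N, f * x ∈ N}
      mul_mem' := fun {a b} ha hb x hx => by rw [mul_assoc]; exact ha _ (hb x hx)
      add_mem' := fun {a b} ha hb x hx => by rw [add_mul]; exact add_mem (ha x hx) (hb x hx)
      algebraMap_mem' := fun c x hx => N.smul_mem (⟨_, R.algebraMap_mem c⟩ : R) hx }
  have hle : R ⊔ Algebra.adjoin k {t} ≤ T :=
    sup_le (fun r hr x hx => N.smul_mem (⟨r, hr⟩ : R) hx)
      (Algebra.adjoin_le (Set.singleton_subset_iff.2 h))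
  intro a ha
  have := hle ha 1 h1
  rwa [mul_one] at this

theorem smul_aa [IsLocalRing R] (hx : x ∈ IsLocalRing.maximalIdeal R • aa R t) :
    x ∈ Submodule.span ↥(R ⊔ Algebra.adjoin k {t}) (mx R) :=
  Submodule.smul_induction_on hx
    (fun r hr a ha => by
      rw [show r • a = a * (r : F) from mul_comm _ _]
      exact span_mul (mem_aa.1 ha) (Submodule.subset_span ((mem_mx_iff r).2 hr)))
    fun _ _ => add_mem

theorem shf {P : Submodule R F} (h : N' ≤ P) (hx : x ∈ I • (N ⊔ N')) : x ∈ P ⊔ I • N := by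
  rw [Submodule.smul_sup, sup_comm] at hx
  exact sup_le_sup_right (Submodule.smul_le_right.trans h) _ hx

theorem nak [IsLocalRing R] (h : N'.FG) (h' : N' ≤ N ⊔ IsLocalRing.maximalIdeal R • N') : N' ≤ N :=
  Submodule.le_of_le_smul_of_le_jacobson_bot h (IsLocalRing.maximalIdeal_le_jacobson _) h'

/-- The first powers of `t`. -/
def ss (R : Subalgebra k F) (t : F) (n : ℕ) : Submodule R F :=
  Submodule.span R ((fun i => t ^ i) '' Set.Iio n)

theorem pow_ss {n i : ℕ} (h : i < n) : t ^ i ∈ ss R t n := Submodule.subset_span ⟨i, h, rfl⟩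

theorem ss_le {n : ℕ} : ss R t n ≤ aa R t :=
  Submodule.span_le.2 (by rintro _ ⟨i, -, rfl⟩; exact pow_mem t_mem i)

/-- A monic polynomial and a polynomial congruent to `1` generate the unit ideal. -/
theorem cop [IsLocalRing R] {n : ℕ} {s c : F} (hs : s ∈ ss R t n)
    (hc : c ∈ IsLocalRing.maximalIdeal R • aa R t) :
    ∃ p ∈ aa R t, ∃ q ∈ aa R t, p * (t ^ n + s) + q * (1 - c) = 1 := by
  have h1 : ∀ i ≤ n, t ^ i ∈ ss R t n ⊔ ml (aa R t) (t ^ n + s) := fun i hi => by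
    rcases hi.lt_or_eq with h | rfl
    · exact Submodule.mem_sup_left (pow_ss h)
    · have := sub_mem (Submodule.mem_sup_right (S := ss R t i)
        (mem_ml.2 ⟨1, one_mem (R ⊔ Algebra.adjoin k {t}), one_mul (t ^ i + s)⟩ :
          _ ∈ ml (aa R t) _)) (Submodule.mem_sup_left hs)
      rwa [add_sub_cancel_right] at this
  have h2 : aa R t ≤ ss R t n ⊔ ml (aa R t) (t ^ n + s) := by
    refine aa_le (by simpa using h1 0 n.zero_le) (st_sup (st_span ?_) fun x hx =>
      Submodule.mem_sup_right (st_ml t_mem x hx))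
    rintro _ ⟨i, hi, rfl⟩
    rw [← pow_succ']
    exact h1 _ hi
  have h3 : ss R t n ≤ ml (aa R t) (t ^ n + s) ⊔ ml (aa R t) (1 - c) := by
    refine nak (Submodule.fg_span ((Set.finite_Iio n).image _)) fun x hx => ?_
    have a1 := Submodule.smul_mono le_rfl h2
      (st_smul (fun y hy => mem_aa.2 (mul_mem (mem_aa.1 (ss_le hx)) (mem_aa.1 hy))) c hc)
    have a2 : x * c ∈ (ml (aa R t) (t ^ n + s) ⊔ ml (aa R t) (1 - c)) ⊔
        IsLocalRing.maximalIdeal R • ss R t n := shf le_sup_left a1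
    have a3 := add_mem a2 (Submodule.mem_sup_left (Submodule.mem_sup_right
      (mem_ml.2 ⟨x, ss_le hx, rfl⟩ : x * (1 - c) ∈ ml (aa R t) (1 - c))))
    rwa [show x * c + x * (1 - c) = x by ring] at a3
  obtain ⟨_, ⟨p, hp, rfl⟩, _, ⟨q, hq, rfl⟩, e⟩ := Submodule.mem_sup.1
    (sup_le h3 le_sup_left (h2 (one_mem (R ⊔ Algebra.adjoin k {t}))))
  exact ⟨p, hp, q, hq, e⟩

end Alg

open Alg in
theorem alg : AlgStmt := by
  intro k F _ _ _ R n t z Y hR h
  let N : Submodule R F := Submodule.span R (Y '' Set.Iic n)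
  let L : Submodule R F := ml (aa R t) z ⊔ ml (aa R t) (Y n)
  have one : (1 : F) ∈ aa R t := one_mem (R ⊔ Algebra.adjoin k {t})
  have yN : ∀ j ≤ n, Y j ∈ N := fun j hj => Submodule.subset_span ⟨j, hj, rfl⟩
  have tL : ∀ x ∈ L, t * x ∈ L :=
    st_sup (fun x hx => Submodule.mem_sup_left (st_ml t_mem x hx))
      fun x hx => Submodule.mem_sup_right (st_ml t_mem x hx)
  have zL : z ∈ L := Submodule.mem_sup_left ⟨1, one, one_mul z⟩
  have nL : Y n ∈ L := Submodule.mem_sup_right ⟨1, one, one_mul (Y n)⟩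
  have h1 : ∀ i < n, t * Y i - Y (i + 1) ∈ IsLocalRing.maximalIdeal R • (N ⊔ L) := fun i hi => by
    refine Submodule.span_le.2 ?_ (h i hi)
    rintro _ ⟨r, hr, g, hg, rfl⟩
    refine Submodule.smul_mem_smul ((mem_mx_iff (⟨r, hr.1⟩ : R)).1 hr) (?_ : g ∈ N ⊔ L)
    rcases hg with rfl | rfl | rfl | ⟨j, hj, rfl⟩
    · exact Submodule.mem_sup_right zL
    · exact Submodule.mem_sup_right (tL _ zL)
    · exact Submodule.mem_sup_right (tL _ nL)
    · exact Submodule.mem_sup_left (yN j hj)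
  have tK : ∀ x ∈ N ⊔ L, t * x ∈ N ⊔ L := by
    refine st_sup (st_span ?_) fun x hx => Submodule.mem_sup_right (tL x hx)
    rintro _ ⟨j, hj, rfl⟩
    rcases (Set.mem_Iic.1 hj).lt_or_eq with hl | rfl
    · have := add_mem (Submodule.smul_le_right (h1 j hl)) (Submodule.mem_sup_left (yN _ hl))
      rwa [sub_add_cancel] at this
    · exact Submodule.mem_sup_right (tL _ nL)
  have h2 : ∀ i ≤ n, Y i - t ^ i * Y 0 ∈ IsLocalRing.maximalIdeal R • (N ⊔ L) := fun i hi => by
    induction i with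
    | zero => simp
    | succ i ih =>
      have := sub_mem (st_smul tK _ (ih (Nat.le_of_succ_le hi))) (h1 i hi)
      rwa [show t * (Y i - t ^ i * Y 0) - (t * Y i - Y (i + 1)) = Y (i + 1) - t ^ (i + 1) * Y 0 by
        ring] at this
  have h3 : N ≤ ml (ss R t n) (Y 0) ⊔ L := by
    refine nak (Submodule.fg_span ((Set.finite_Iic n).image _)) (Submodule.span_le.2 ?_)
    rintro _ ⟨j, hj, rfl⟩
    rcases (Set.mem_Iic.1 hj).lt_or_eq with hl | rfl
    · have a2 : Y j - t ^ j * Y 0 ∈ (ml (ss R t n) (Y 0) ⊔ L) ⊔ IsLocalRing.maximalIdeal R • N :=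
        shf le_sup_right (h2 j hj)
      have a3 := add_mem a2 (Submodule.mem_sup_left (Submodule.mem_sup_left
        (mem_ml.2 ⟨_, pow_ss hl, rfl⟩ : t ^ j * Y 0 ∈ ml (ss R t n) (Y 0))))
      rwa [sub_add_cancel] at a3
    · exact Submodule.mem_sup_left (Submodule.mem_sup_right nL)
  have h4 := Submodule.smul_mono le_rfl (sup_le h3 le_sup_right) (h2 n le_rfl)
  rw [Submodule.smul_sup, Submodule.smul_sup, ml_smul, ml_smul, ml_smul] at h4
  obtain ⟨_, ⟨s, hs, rfl⟩, w, hw, e⟩ := Submodule.mem_sup.1 h4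
  obtain ⟨_, ⟨α, hα, rfl⟩, _, ⟨c, hc, rfl⟩, rfl⟩ := Submodule.mem_sup.1 hw
  have e' : s * Y 0 + (α * z + c * Y n) = Y n - t ^ n * Y 0 := e
  have hs' : s ∈ ss R t n := Submodule.smul_le_right hs
  have hα' : α ∈ R ⊔ Algebra.adjoin k {t} := mem_aa.1 (Submodule.smul_le_right hα)
  have hc' : c ∈ R ⊔ Algebra.adjoin k {t} := mem_aa.1 (Submodule.smul_le_right hc)
  obtain ⟨p, hp, q, hq, u⟩ := cop hs' hc
  have mz : z ∈ Submodule.span ↥(R ⊔ Algebra.adjoin k {t}) ({z, q * Y 0 + p * Y n} : Set F) :=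
    Submodule.subset_span (Or.inl rfl)
  have my : q * Y 0 + p * Y n ∈
      Submodule.span ↥(R ⊔ Algebra.adjoin k {t}) ({z, q * Y 0 + p * Y n} : Set F) :=
    Submodule.subset_span (Or.inr rfl)
  have m0 : Y 0 ∈ Submodule.span ↥(R ⊔ Algebra.adjoin k {t}) ({z, q * Y 0 + p * Y n} : Set F) := by
    have := sub_mem (span_mul (sub_mem (one_mem _) hc') my) (span_mul (mul_mem (mem_aa.1 hp) hα') mz)
    rwa [show (1 - c) * (q * Y 0 + p * Y n) - p * α * z = Y 0 by
      linear_combination Y 0 * u - p * e'] at this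
  have mn : Y n ∈ Submodule.span ↥(R ⊔ Algebra.adjoin k {t}) ({z, q * Y 0 + p * Y n} : Set F) := by
    have := add_mem (span_mul (add_mem (pow_mem t_mem n) (mem_aa.1 (ss_le hs'))) my)
      (span_mul (mul_mem (mem_aa.1 hq) hα') mz)
    rwa [show (t ^ n + s) * (q * Y 0 + p * Y n) + q * α * z = Y n by
      linear_combination Y n * u + q * e'] at this
  refine ⟨p, hp, q, hq, fun i hi => ?_, p * α, span_mul (mem_aa.1 hp) (smul_aa hα), c, smul_aa hc,
    by linear_combination Y 0 * u - p * e'⟩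
  obtain ⟨_, ⟨s', hs1, rfl⟩, w, hw, e1⟩ := Submodule.mem_sup.1 (h3 (yN i hi))
  obtain ⟨_, ⟨a, ha, rfl⟩, _, ⟨b, hb, rfl⟩, rfl⟩ := Submodule.mem_sup.1 hw
  rw [← e1]
  exact add_mem (span_mul (mem_aa.1 (ss_le hs1)) m0)
    (add_mem (span_mul (mem_aa.1 ha) mz) (span_mul (mem_aa.1 hb) mn))

end Pool.Agent.MP_e8e0b6_ag.R2.C
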