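import Pool.Agent.MP_e8e0b6_ag.R2.C.Spec

/-!
Basic facts on points of a family, residues, planes over a ring and line bundle data.
-/

set_option autoImplicit false

namespace Pool.Agent.MP_e8e0b6_ag.R2.C

open Pool.Agent.MP_79c67d_ag Pool.Agent.MP_20d318_ag Pool.Agent.MP_20d318_ag.AG
  Pool.Agent.MP_20d318_ag.BV Pool.Agent.MP_20d318_ag.CB

section ring

variable {k F : Type} [Field k] [Field F] [Algebra k F] {A B O O' R R' V W P : Subalgebra k F}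
  {H G U : Set F} {c d : F × F} {a b u w j : F}

/-- Generators that are fractions from a smaller ring. -/
theorem pts2 (h : O ∈ Pts A) (hB : B ≤ O) (hA : A ≤ fr B O) : O ∈ Pts B :=
  ⟨h.1, hB, fun f hf => by
    obtain ⟨a, ha, b, hb, hu, rfl⟩ := h.2.2 f hf
    obtain ⟨a1, ha1, a2, ha2, hu1, rfl⟩ := hA ha
    obtain ⟨b1, hb1, b2, hb2, hu2, rfl⟩ := hA hb
    have hu3 : IsU O b1 := by
      have := hu.mul hu2
      rwa [div_mul_cancel₀ _ hu2.ne] at this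
    exact ⟨a1 * b2, B.mul_mem ha1 hb2, a2 * b1, B.mul_mem ha2 hb1, hu1.mul hu3, by
      rw [div_div_div_eq]⟩⟩

theorem mem_fr (ha : a ∈ B) (hb : b ∈ B) (hu : IsU O b) : a / b ∈ fr B O := ⟨a, ha, b, hb, hu, rfl⟩

theorem le_fr : B ≤ fr B O := fun a ha => ⟨a, ha, 1, B.one_mem, isU_one, by simp⟩

/-- The center on `A` lies below every point that contains `A`. -/
theorem dom_of (h : P ∈ Pts A) (hA : A ≤ O) (h1 : Dom P W) (h2 : Dom O W) : Dom P O :=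
  h1.of_le (Pts_le h hA h1.1 h2) h2.1

theorem span_mx (hO : IsLocalRing O) (hP : P ≤ O) (hG : G ⊆ mx O) (ha : a ∈ Submodule.span P G) :
    a ∈ mx O := by
  induction ha using Submodule.span_induction with
  | mem b hb => exact hG hb
  | zero => exact zero_mem_mx
  | add b c _ _ hb hc => exact mx_add hO hb hc
  | smul c b _ hb => exact mx_mul_left (hP c.2) hb

theorem span_div (hP : P ≤ O) (hG : ∀ g ∈ G, g / u ∈ O) (ha : a ∈ Submodule.span P G) :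
    a / u ∈ O := by
  induction ha using Submodule.span_induction with
  | mem b hb => exact hG b hb
  | zero => rw [zero_div]; exact O.zero_mem
  | add b c _ _ hb hc => rw [add_div]; exact O.add_mem hb hc
  | smul c b _ hb =>
    change (c : F) * b / u ∈ O
    rw [mul_div_assoc]; exact O.mul_mem (hP c.2) hb

theorem span_mem (hP : P ≤ O) (hG : G ⊆ O) (ha : a ∈ Submodule.span P G) : a ∈ O := by
  simpa using span_div (u := 1) hP (fun g hg => by simpa using hG hg) ha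

theorem span_up (hP : P ≤ O) (ha : a ∈ Submodule.span P G) : a ∈ Submodule.span O G := by
  induction ha using Submodule.span_induction with
  | mem b hb => exact Submodule.subset_span hb
  | zero => exact zero_mem _
  | add b c _ _ hb hc => exact add_mem hb hc
  | smul c b _ hb => exact Submodule.smul_mem _ (⟨c, hP c.2⟩ : O) hb

theorem span_mul (hb : b ∈ P) (ha : a ∈ Submodule.span P G) : b * a ∈ Submodule.span P G :=
  Submodule.smul_mem _ (⟨b, hb⟩ : P) ha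

/-- The ring `A + mx W`. -/
theorem exists_aw (hA : IsLocalRing A) (hW : IsVal W) (h : A ≤ W) :
    ∃ B : Subalgebra k F, IsLocalRing B ∧ Dom A B ∧ (∀ f, f ∈ B ↔ ∃ a ∈ A, f - a ∈ mx W) ∧
      mx W ⊆ mx B ∧ B ≤ W ∧ ∀ V : Subalgebra k F, IsVal V → Dom B V → V ≤ W := by
  have hl := hW.isLocalRing
  let B : Subalgebra k F :=
    { carrier := {f | ∃ a ∈ A, f - a ∈ mx W}
      mul_mem' := by
        rintro f g ⟨a, ha, hf⟩ ⟨b, hb, hg⟩
        refine ⟨a * b, A.mul_mem ha hb, ?_⟩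
        have hgW : g ∈ W := by simpa using W.add_mem hg.1 (h hb)
        convert mx_add hl (mx_mul_right hf hgW) (mx_mul_left (h ha) hg) using 1
        ring
      add_mem' := by
        rintro f g ⟨a, ha, hf⟩ ⟨b, hb, hg⟩
        refine ⟨a + b, A.add_mem ha hb, ?_⟩
        convert mx_add hl hf hg using 1
        ring
      algebraMap_mem' := fun c => ⟨_, A.algebraMap_mem c, by simpa using zero_mem_mx⟩ }
  have hBW : B ≤ W := by
    rintro f ⟨a, ha, hf⟩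
    simpa using W.add_mem hf.1 (h ha)
  have hAB : A ≤ B := fun a ha => ⟨a, ha, by simpa using zero_mem_mx⟩
  have key : ∀ f, ∀ a ∈ A, f - a ∈ mx W → (IsU B f ↔ IsU A a) := fun f a ha hf => by
    constructor
    · rintro ⟨h0, -, a', ha', hf'⟩
      by_contra hn
      have h1 : 1 - a * a' ∈ mx W := by
        have hi : f⁻¹ ∈ W := by simpa using W.add_mem hf'.1 (h ha')
        convert mx_add hl (mx_mul_right hf hi) (mx_mul_left (h ha) hf') using 1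
        field_simp
        ring
      have h2 := mx_add hA (mx_of_le h (A.sub_mem A.one_mem (A.mul_mem ha ha')) h1)
        (mx_mul_right ⟨ha, hn⟩ ha')
      exact one_not_mem_mx (by simpa using h2)
    · intro hu
      have hf' : IsU W f := by simpa using (hu.mono h).add_mx hl hf
      refine ⟨hf'.ne, ⟨a, ha, hf⟩, a⁻¹, hu.inv_mem, ?_⟩
      convert mx_neg (mx_div hf (hf'.mul (hu.mono h))) using 1
      have := hf'.ne
      have := hu.ne
      field_simp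
      ring
  have hm : mx W ⊆ mx B := fun f hf =>
    ⟨⟨0, A.zero_mem, by simpa using hf⟩, fun hu => hf.2 (hu.mono hBW)⟩
  refine ⟨B, isLocalRing_of ?_, ⟨hAB, fun a ha hu => (key a a ha (by simpa using zero_mem_mx)).1 hu⟩,
    fun _ => Iff.rfl, hm, hBW, fun V hV hd f hf => by_contra fun hn => ?_⟩
  · rintro f ⟨⟨a, ha, hf⟩, hf'⟩ g ⟨⟨b, hb, hg⟩, hg'⟩
    have h1 : f + g - (a + b) ∈ mx W := by
      convert mx_add hl hf hg using 1
      ring
    refine ⟨⟨_, A.add_mem ha hb, h1⟩, fun hu => ?_⟩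
    exact (mx_add hA ⟨ha, fun h2 => hf' ((key f a ha hf).2 h2)⟩
      ⟨hb, fun h2 => hg' ((key g b hb hg).2 h2)⟩).2 ((key _ _ (A.add_mem ha hb) h1).1 hu)
  · have h1 := hd.mx (hm (hW.inv_mx hn))
    have h0 : f ≠ 0 := fun h0 => hn (h0 ▸ W.zero_mem)
    exact h1.2 ⟨inv_ne_zero h0, h1.1, by simpa using hf⟩

/-- Composite valuations. -/
theorem exists_val_le (hA : IsLocalRing A) (hW : IsVal W) (h : A ≤ W) :
    ∃ V : Subalgebra k F, IsVal V ∧ Dom A V ∧ V ≤ W ∧ mx W ⊆ mx V := by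
  obtain ⟨B, h1, h2, -, h4, -, h6⟩ := exists_aw hA hW h
  obtain ⟨V, hV, hd⟩ := AG.exists_val h1
  exact ⟨V, hV, h2.trans hd, h6 V hV hd, fun f hf => hd.mx (h4 hf)⟩

/-- A general member of a pencil is a generator at finitely many points. -/
theorem exists_pencil [Infinite k] {Y : Set (Subalgebra k F)} (hY : Y.Finite)
    (g : Subalgebra k F → F) (hl : ∀ O ∈ Y, IsLocalRing O) (ha : ∀ O ∈ Y, a / g O ∈ O)
    (hb : ∀ O ∈ Y, b / g O ∈ O) : ∃ l : k, ∀ O ∈ Y, IsU O (a / g O) ∨ IsU O (b / g O) →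
      IsU O ((a + algebraMap k F l * b) / g O) := by
  have e : ∀ (l : k) O, (a + algebraMap k F l * b) / g O =
      a / g O + algebraMap k F l * (b / g O) := fun l O => by ring
  have h1 : ∀ O ∈ Y, {l : k | (IsU O (a / g O) ∨ IsU O (b / g O)) ∧
      ¬ IsU O ((a + algebraMap k F l * b) / g O)}.Finite := fun O hO => by
    refine Set.Subsingleton.finite ?_
    rintro l ⟨h, h1⟩ l' ⟨-, h2⟩
    have m : ∀ l : k, a / g O + algebraMap k F l * (b / g O) ∈ O := fun l =>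
      O.add_mem (ha O hO) (O.mul_mem (O.algebraMap_mem l) (hb O hO))
    rw [e] at h1 h2
    have h3 := mx_sub' (hl O hO) ⟨m l, h1⟩ ⟨m l', h2⟩
    by_contra hn
    have h4 : b / g O ∈ mx O := by
      have := mx_div h3 (isU_const (O := O) (sub_ne_zero.2 hn))
      rwa [show (a / g O + algebraMap k F l * (b / g O) - (a / g O + algebraMap k F l' * (b / g O))) =
        b / g O * algebraMap k F (l - l') by rw [map_sub]; ring,
        mul_div_cancel_right₀ _ (isU_const (O := O) (sub_ne_zero.2 hn)).ne] at this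
    have h5 := mx_sub' (hl O hO) ⟨m l, h1⟩ (mx_mul_left (O.algebraMap_mem l) h4)
    rw [add_sub_cancel_right] at h5
    exact h.elim h5.2 h4.2
  obtain ⟨l, hl'⟩ := (hY.biUnion h1).exists_notMem
  exact ⟨l, fun O hO h => by_contra fun hn => hl' (Set.mem_biUnion hO ⟨h, hn⟩)⟩

/-! The plane over a ring. -/

theorem le_pl : R ≤ pl R c := le_sup_left
theorem fst_mem : c.1 ∈ pl R c :=
  (le_sup_right : _ ≤ pl R c) (Algebra.subset_adjoin (Or.inl rfl))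
theorem snd_mem : c.2 ∈ pl R c :=
  (le_sup_right : _ ≤ pl R c) (Algebra.subset_adjoin (Or.inr rfl))
theorem ap_le (h1 : c.1 ∈ O) (h2 : c.2 ∈ O) : ap k c ≤ O :=
  Algebra.adjoin_le (by rintro _ (rfl | rfl) <;> assumption)
theorem fst_ap : c.1 ∈ ap k c := Algebra.subset_adjoin (Or.inl rfl)
theorem snd_ap : c.2 ∈ ap k c := Algebra.subset_adjoin (Or.inr rfl)
theorem pl_le (h : R ≤ O) (h1 : c.1 ∈ O) (h2 : c.2 ∈ O) : pl R c ≤ O := sup_le h (ap_le h1 h2)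
theorem ap_le_pl : ap k c ≤ pl R c := le_sup_right

theorem pl_le_bu (l : k) (h : (bu l d).1 ≠ 0) : pl R d ≤ pl R (bu l d) := by
  have h2 : d.2 ∈ pl R (bu l d) := by
    have := (pl R (bu l d)).mul_mem snd_mem fst_mem
    rwa [show (bu l d).2 * (bu l d).1 = d.2 from div_mul_cancel₀ _ h] at this
  refine pl_le le_pl ?_ h2
  have := (pl R (bu l d)).sub_mem fst_mem ((pl R (bu l d)).mul_mem
    ((pl R (bu l d)).algebraMap_mem l) h2)
  simpa [bu] using this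

/-- Modulo the coordinates a function on the plane is a function on the base. -/
theorem pl_ker (ha : a ∈ pl R d) :
    ∃ r ∈ R, ∃ p ∈ pl R d, ∃ q ∈ pl R d, a = r + p * d.1 + q * d.2 := by
  let T : Subalgebra k F :=
    { carrier := {a | ∃ r ∈ R, ∃ p ∈ pl R d, ∃ q ∈ pl R d, a = r + p * d.1 + q * d.2}
      mul_mem' := by
        rintro _ _ ⟨r, hr, p, hp, q, hq, rfl⟩ ⟨r', hr', p', hp', q', hq', rfl⟩
        have m : r' + p' * d.1 + q' * d.2 ∈ pl R d :=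
          add_mem (add_mem (le_pl hr') (mul_mem hp' fst_mem)) (mul_mem hq' snd_mem)
        exact ⟨r * r', R.mul_mem hr hr', _, add_mem (mul_mem (le_pl hr) hp') (mul_mem hp m), _,
          add_mem (mul_mem (le_pl hr) hq') (mul_mem hq m), by ring⟩
      add_mem' := by
        rintro _ _ ⟨r, hr, p, hp, q, hq, rfl⟩ ⟨r', hr', p', hp', q', hq', rfl⟩
        exact ⟨r + r', R.add_mem hr hr', _, add_mem hp hp', _, add_mem hq hq', by ring⟩
      algebraMap_mem' := fun c =>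
        ⟨_, R.algebraMap_mem c, 0, zero_mem _, 0, zero_mem _, by ring⟩ }
  exact (pl_le (O := T) (fun r hr => ⟨r, hr, 0, zero_mem _, 0, zero_mem _, by ring⟩)
    ⟨0, R.zero_mem, 1, one_mem _, 0, zero_mem _, by ring⟩
    ⟨0, R.zero_mem, 0, zero_mem _, 1, one_mem _, by ring⟩) ha

/-- Modulo the maximal ideal of the base a function on the plane has constant coefficients. -/
theorem pl_rat (hr : RatPt R) (ha : a ∈ pl R d) :
    ∃ a₀ ∈ ap k d, a - a₀ ∈ Submodule.span (pl R d) (mx R) := by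
  let T : Subalgebra k F :=
    { carrier := {a | a ∈ pl R d ∧ ∃ a₀ ∈ ap k d, a - a₀ ∈ Submodule.span (pl R d) (mx R)}
      mul_mem' := by
        rintro a b ⟨ha, a₀, h0, h1⟩ ⟨hb, b₀, h2, h3⟩
        refine ⟨mul_mem ha hb, _, mul_mem h0 h2, ?_⟩
        convert add_mem (span_mul hb h1) (span_mul (ap_le_pl h0) h3) using 1
        ring
      add_mem' := by
        rintro a b ⟨ha, a₀, h0, h1⟩ ⟨hb, b₀, h2, h3⟩
        refine ⟨add_mem ha hb, _, add_mem h0 h2, ?_⟩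
        convert add_mem h1 h3 using 1
        ring
      algebraMap_mem' := fun c =>
        ⟨Subalgebra.algebraMap_mem _ c, _, Subalgebra.algebraMap_mem _ c, by simp⟩ }
  refine ((pl_le (O := T) (fun r h => ?_) ⟨fst_mem, _, fst_ap, by simp⟩
    ⟨snd_mem, _, snd_ap, by simp⟩) ha).2
  obtain ⟨c, hc⟩ := hr r h
  exact ⟨le_pl h, _, Subalgebra.algebraMap_mem _ c, Submodule.subset_span hc⟩

/-- A local ring in which both coordinates vanish dominates the origin. -/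
theorem dom0 (h : O ∈ Pts (ap k c)) (h1 : c.1 ∈ mx O) (h2 : c.2 ∈ mx O) (hW : IsLocalRing W)
    (w1 : c.1 ∈ mx W) (w2 : c.2 ∈ mx W) : Dom O W := by
  have key : ∀ (A : Subalgebra k F), IsLocalRing A → c.1 ∈ mx A → c.2 ∈ mx A →
      ∀ p : MvPolynomial (Fin 2) k, IsU A (MvPolynomial.aeval ![c.1, c.2] p) ↔
        MvPolynomial.eval (fun _ => 0) p ≠ 0 := fun A hA a1 a2 p => by
    have := aeval_sub_const hA (r := ![c.1, c.2]) (c := fun _ => 0)
      (fun i => by fin_cases i <;> simpa) p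
    refine ⟨fun hu h0 => hu.not_mx (by rwa [h0, map_zero, sub_zero] at this), fun h0 => ?_⟩
    simpa using (isU_const h0).add_mx hA this
  have k2 : ∀ b ∈ ap k c, IsU O b ↔ IsU W b := fun b hb => by
    obtain ⟨p, rfl⟩ := mem_adjoin_pair.1 hb
    rw [key O h.1 h1 h2, key W hW w1 w2]
  have hle : ap k c ≤ W := ap_le w1.1 w2.1
  refine ⟨fun f hf => ?_, fun f hf hu => ?_⟩ <;>
    obtain ⟨a, ha, b, hb, hb', rfl⟩ := h.2.2 f hf
  · exact ((k2 b hb).1 hb').div_mem (hle ha)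
  · have := hu.mul ((k2 b hb).1 hb')
    rw [div_mul_cancel₀ _ hb'.ne] at this
    exact ((k2 a ha).2 this).div hb'

theorem genP_of [CharZero k] [IsAlgClosed k] (h : GenP k u w)
    (hu : u ∈ IntermediateField.adjoin k {a, b}) (hw : w ∈ IntermediateField.adjoin k {a, b}) :
    GenP k a b :=
  (plane_stmt k F u w h).top a b (top_le_iff.1 (h.top ▸ IntermediateField.adjoin_le_iff.2
    (by rintro _ (rfl | rfl) <;> assumption)))

theorem genP_li (h : GenP k u w) : LinearIndependent k fun e : ℕ × ℕ => u ^ e.1 * w ^ e.2 := by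
  let φ : ℕ × ℕ → (Fin 2 →₀ ℕ) := fun e => Finsupp.single 0 e.1 + Finsupp.single 1 e.2
  have hφ : Function.Injective φ := fun e e' he => Prod.ext
    (by simpa [φ] using DFunLike.congr_fun he 0) (by simpa [φ] using DFunLike.congr_fun he 1)
  have := ((MvPolynomial.basisMonomials (Fin 2) k).linearIndependent.comp φ hφ).map'
    (MvPolynomial.aeval ![u, w] : MvPolynomial (Fin 2) k →ₐ[k] F).toLinearMap
    (LinearMap.ker_eq_bot.2 h.ind)
  have e : (fun e : ℕ × ℕ => u ^ e.1 * w ^ e.2) = (MvPolynomial.aeval ![u, w] :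
      MvPolynomial (Fin 2) k →ₐ[k] F).toLinearMap ∘ MvPolynomial.basisMonomials (Fin 2) k ∘ φ := by
    funext e
    simp [φ, MvPolynomial.aeval_monomial, Finsupp.prod_add_index', pow_add]
  rwa [e]

/-! Points of the family. -/

theorem ch_le (h : R ≤ O) (h' : ∀ a ∈ H, a / j ∈ O) : ch R H j ≤ O :=
  sup_le h (Algebra.adjoin_le (by rintro _ ⟨a, ha, rfl⟩; exact h' a ha))
theorem div_mem_ch (ha : a ∈ H) : a / j ∈ ch R H j :=
  (le_sup_right : _ ≤ ch R H j) (Algebra.subset_adjoin ⟨a, ha, rfl⟩)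
theorem xx_loc (h : O ∈ XX R H) : IsLocalRing O := h.choose_spec.2.1
theorem xx_le (h : O ∈ XX R H) : R ≤ O := le_sup_left.trans h.choose_spec.2.2.1
theorem xx_trans (h : O ∈ XX R H) (h' : O' ∈ Pts O) : O' ∈ XX R H :=
  h.imp fun _ hj => ⟨hj.1, Pts_trans hj.2 h'⟩
theorem xx_base (h : O ∈ XX R H) (h1 : R ≤ R') (h2 : R' ≤ O) : O ∈ XX R' H :=
  h.imp fun _ hj => ⟨hj.1, Pts_of_le hj.2 (ch_le (h1.trans le_sup_left) fun _ => div_mem_ch)
    (ch_le h2 fun _ ha => hj.2.2.1 (div_mem_ch ha))⟩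
theorem xx_frac (hF : Fm R H) (h : O ∈ XX R H) : Frac O :=
  (hF.frac _ h.choose_spec.1).mono h.choose_spec.2.2.1

theorem xx_ctr (hF : Fm R H) (hV : IsVal V) (h : R ≤ V) : ∃ O ∈ XX R H, Dom O V := by
  obtain ⟨a, ha⟩ := hF.ne
  obtain ⟨j, hj, hg⟩ := (hV.prin hF.fin ⟨a, ha, hF.nz a ha⟩).exists_mem
  obtain ⟨O, hO, hd⟩ := exists_ctr hV.isLocalRing (ch_le h hg.1)
  exact ⟨O, ⟨j, hj, hO⟩, hd⟩

theorem xx_le_of (hF : Fm R H) (h : O ∈ XX R H) (h' : O' ∈ XX R H) (h1 : O ≤ W) (h2 : Dom O' W) :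
    O ≤ O' := by
  obtain ⟨j, hj, hO⟩ := h
  obtain ⟨j', hj', hO'⟩ := h'
  have hu : IsU O' (j / j') := h2.2 _ (hO'.2.1 (div_mem_ch hj))
    ⟨div_ne_zero (hF.nz j hj) (hF.nz j' hj'), h2.1 (hO'.2.1 (div_mem_ch hj)), by
      rw [inv_div]; exact h1 (hO.2.1 (div_mem_ch hj'))⟩
  refine Pts_le hO (ch_le (le_sup_left.trans hO'.2.1) fun a ha => ?_) h1 h2
  rw [← div_div_div_cancel_right₀ (hF.nz j' hj') a j]
  exact hu.div_mem (hO'.2.1 (div_mem_ch ha))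

theorem xx_sep (hF : Fm R H) (h : O ∈ XX R H) (h' : O' ∈ XX R H) (h1 : Dom O W) (h2 : Dom O' W) :
    O = O' := le_antisymm (xx_le_of hF h h' h1.1 h2) (xx_le_of hF h' h h2.1 h1)

theorem xx_pts (hF : Fm R H) (h : O ∈ XX R H) (h' : O' ∈ XX R H) (hle : O ≤ O') : O' ∈ Pts O := by
  obtain ⟨P, hP, hd⟩ := exists_ctr (xx_loc h') hle
  rwa [← xx_sep hF (xx_trans h hP) h' hd (Dom.refl _)]

theorem xs_ctr (hF : Fm R H) (hV : IsVal V) (h : Dom R V) : ∃ O ∈ Xs R H, Dom O V := by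
  obtain ⟨O, hO, hd⟩ := xx_ctr hF hV h.1
  exact ⟨O, ⟨hO, h.of_le (xx_le hO) hd.1⟩, hd⟩

/-- Every point specializes to a point of the closed fibre. -/
theorem xx_spec (hF : Fm R H) (hR : IsLocalRing R) (h : O ∈ XX R H) : ∃ O₁ ∈ Xs R H, O₁ ≤ O := by
  obtain ⟨W, hW, hd⟩ := AG.exists_val (xx_loc h)
  obtain ⟨V, hV, h1, h2, -⟩ := exists_val_le hR hW ((xx_le h).trans hd.1)
  obtain ⟨O₁, hO, h3⟩ := xs_ctr hF hV h1
  exact ⟨O₁, hO, xx_le_of hF hO.1 h (h3.1.trans h2) hd⟩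

/-- Local equations at two points agree in a ring that contains both. -/
theorem dt_unit {X : Set (Subalgebra k F)} {γ : Subalgebra k F → F} (h : Dt X γ) (hO : O ∈ X)
    (hO' : O' ∈ X) (h1 : O ≤ W) (h2 : O' ≤ W) : IsU W (γ O / γ O') := by
  obtain ⟨U, V, -, -, h⟩ := h
  obtain ⟨a, b, ha, hb, hu⟩ := h O hO
  obtain ⟨a', b', ha', hb', hu'⟩ := h O' hO'
  have := (((hu.mono h1).div (hu'.mono h2)).mul ((ha'.mono h2).unit (ha.mono h1))).mul
    ((hb.mono h1).unit (hb'.mono h2))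
  have h3 := ha.ne
  have h4 := ha'.ne
  have h5 := hb.ne
  have h6 := hb'.ne
  have h7 : γ O' ≠ 0 := left_ne_zero_of_mul (div_ne_zero_iff.1 hu'.ne).1
  convert this using 1
  field_simp

theorem gn_mul {U' : Set F} (h : Gn U O a) (h' : Gn U' O b) :
    Gn (Set.image2 (· * ·) U U') O (a * b) := by
  refine ⟨?_, ?_⟩
  · rintro _ ⟨x, hx, y, hy, rfl⟩
    rw [← div_mul_div_comm]; exact O.mul_mem (h.1 x hx) (h'.1 y hy)
  · obtain ⟨x, hx, hu⟩ := h.2
    obtain ⟨y, hy, hv⟩ := h'.2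
    exact ⟨_, ⟨x, hx, y, hy, rfl⟩, by rw [← div_mul_div_comm]; exact hu.mul hv⟩

theorem sys_mul {X : Set (Subalgebra k F)} {U' : Set F} (h : Sys X U) (h' : Sys X U') :
    Sys X (Set.image2 (· * ·) U U') :=
  ⟨h.1.image2 _ h'.1, fun O hO => (h.2 O hO).elim fun _ ha => (h'.2 O hO).elim fun _ hb =>
    ⟨_, gn_mul ha hb⟩⟩

theorem dt_mul {X : Set (Subalgebra k F)} {γ γ' : Subalgebra k F → F} (h : Dt X γ) (h' : Dt X γ') :
    Dt X fun O => γ O * γ' O := by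
  obtain ⟨U, V, h1, h2, h⟩ := h
  obtain ⟨U', V', h3, h4, h'⟩ := h'
  refine ⟨_, _, sys_mul h1 h3, sys_mul h2 h4, fun O hO => ?_⟩
  obtain ⟨a, b, ha, hb, hu⟩ := h O hO
  obtain ⟨a', b', ha', hb', hu'⟩ := h' O hO
  refine ⟨_, _, gn_mul ha ha', gn_mul hb hb', ?_⟩
  convert hu.mul hu' using 1
  ring

theorem dt_inv {X : Set (Subalgebra k F)} {γ : Subalgebra k F → F} (h : Dt X γ) :
    Dt X fun O => (γ O)⁻¹ := by
  obtain ⟨U, V, h1, h2, h⟩ := h
  refine ⟨V, U, h2, h1, fun O hO => ?_⟩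
  obtain ⟨a, b, ha, hb, hu⟩ := h O hO
  refine ⟨b, a, hb, ha, ?_⟩
  convert hu.inv using 1
  rw [inv_div]
  ring

theorem dt_div {X : Set (Subalgebra k F)} {γ γ' : Subalgebra k F → F} (h : Dt X γ) (h' : Dt X γ') :
    Dt X fun O => γ O / γ' O := by
  simpa only [div_eq_mul_inv] using dt_mul h (dt_inv h')

end ring

section fibre

variable {k F M I : Type} [Field k] [Field F] [Field M] [Algebra k F] [Algebra k M] [Fintype I]
  {R O O' P ξ : Subalgebra k F} {H U : Set F} {ρ : ξ →ₐ[k] M} {S : Sd k M I} {a z : F} {c : F × F}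
  {γ γ' : Subalgebra k F → F} {d d' : I → ℤ}

theorem mem_red {m : M} : m ∈ red ξ ρ O ↔ ∃ a ∈ O, a ∈ ξ ∧ evO ξ ρ a = m :=
  ⟨fun ⟨a, ha, e⟩ => ⟨a, ha, a.2, (evO_coe ρ a).trans e⟩,
    fun ⟨a, ha, h, e⟩ => ⟨⟨a, h⟩, ha, (evO_of_mem ρ h).symm.trans e⟩⟩

theorem ev_mem (h : O ≤ ξ) (ha : a ∈ O) : evO ξ ρ a ∈ red ξ ρ O := mem_red.2 ⟨a, ha, h ha, rfl⟩

theorem red_mono (h : O ≤ O') : red ξ ρ O ≤ red ξ ρ O' := fun _ hm =>
  (mem_red.1 hm).elim fun a ha => mem_red.2 ⟨a, h ha.1, ha.2⟩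

theorem ev_unit (h : O ≤ ξ) (ha : IsU O a) : IsU (red ξ ρ O) (evO ξ ρ a) :=
  ⟨evO_ne ρ (ha.mono h), ev_mem h ha.mem, evO_inv ρ (ha.mono h) ▸ ev_mem h ha.inv_mem⟩

theorem red_loc (h : O ≤ ξ) (hO : IsLocalRing O) : IsLocalRing (red ξ ρ O) := by
  refine isLocalRing_of fun m hm m' hm' => ⟨add_mem hm.1 hm'.1, fun hu => ?_⟩
  obtain ⟨a, ha, -, rfl⟩ := mem_red.1 hm.1
  obtain ⟨b, hb, -, rfl⟩ := mem_red.1 hm'.1
  obtain ⟨e, he, -, h1⟩ := mem_red.1 hu.inv_mem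
  have h2 := mx_mul_left he (mx_add hO ⟨ha, fun h' => hm.2 (ev_unit h h')⟩
    ⟨hb, fun h' => hm'.2 (ev_unit h h')⟩)
  have h3 : IsU O (1 - e * (a + b)) := by simpa [sub_eq_add_neg] using isU_one.add_mx hO (mx_neg h2)
  refine evO_ne ρ (h3.mono h) ?_
  rw [evO_sub ρ ξ.one_mem (h h2.1), evO_one, evO_mul ρ (h he) (h (O.add_mem ha hb)), h1,
    evO_add ρ (h ha) (h hb), inv_mul_cancel₀ hu.ne, sub_self]

/-- The residues of the plane over the base. -/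
theorem ev_ap (h1 : c.1 ∈ ξ) (h2 : c.2 ∈ ξ) {m : M} :
    m ∈ ap k (ev2 ξ ρ c) ↔ ∃ a ∈ ap k c, evO ξ ρ a = m := by
  have e : ∀ p : MvPolynomial (Fin 2) k, evO ξ ρ (MvPolynomial.aeval ![c.1, c.2] p) =
      MvPolynomial.aeval ![evO ξ ρ c.1, evO ξ ρ c.2] p := fun p => by
    rw [evO_aeval ρ (fun i => by fin_cases i <;> simpa)]
    congr 2
    funext i; fin_cases i <;> rfl
  constructor
  · intro hm
    obtain ⟨p, rfl⟩ := mem_adjoin_pair.1 hm
    exact ⟨_, mem_adjoin_pair.2 ⟨p, rfl⟩, e p⟩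
  · rintro ⟨a, ha, rfl⟩
    obtain ⟨p, rfl⟩ := mem_adjoin_pair.1 ha
    exact mem_adjoin_pair.2 ⟨p, (e p).symm⟩

variable (L : Lc R H ξ ρ S)
include L

theorem xi_mem : ξ ∈ Xs R H := ⟨L.fib.mem, L.fib.dom⟩
theorem xs_le (h : O ∈ Xs R H) : O ≤ ξ := L.fib.le O h.1 h.2
theorem red_mem (h : O ∈ Xs R H) : red ξ ρ O ∈ S.T := L.eq ▸ ⟨O, h, rfl⟩
theorem exists_red {O₁ : Subalgebra k M} (h : O₁ ∈ S.T) : ∃ O ∈ Xs R H, red ξ ρ O = O₁ := by
  rw [L.eq] at h; exact h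
theorem xi_unit (ha : a ∈ ξ) (h : evO ξ ρ a ≠ 0) : IsU ξ a :=
  isU_of_not_mx ha fun hm => h ((L.lh.eq_zero_iff ha).2 hm)

theorem mx_of_ev (h : O ∈ Xs R H) (ha : a ∈ O) (h0 : evO ξ ρ a = 0) : a ∈ mx O :=
  mx_of_le (xs_le L h) ha ((L.lh.eq_zero_iff (xs_le L h ha)).1 h0)

/-- Units lift. -/
theorem unit_iff (h : O ∈ Xs R H) (ha : a ∈ O) : IsU (red ξ ρ O) (evO ξ ρ a) ↔ IsU O a := by
  refine ⟨fun hu => ?_, ev_unit (xs_le L h)⟩
  have hle := xs_le L h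
  obtain ⟨e, he, -, h1⟩ := mem_red.1 hu.inv_mem
  have h2 : a * e - 1 ∈ mx O := mx_of_ev L h (O.sub_mem (O.mul_mem ha he) O.one_mem) (by
    rw [evO_sub ρ (hle (O.mul_mem ha he)) ξ.one_mem, evO_one, evO_mul ρ (hle ha) (hle he), h1,
      mul_inv_cancel₀ hu.ne, sub_self])
  exact IsU.of_mul ha he (by simpa using isU_one.add_mx (xx_loc h.1) h2)

theorem mx_iff (h : O ∈ Xs R H) (ha : a ∈ O) : evO ξ ρ a ∈ mx (red ξ ρ O) ↔ a ∈ mx O :=
  ⟨fun hm => ⟨ha, fun hu => hm.2 ((unit_iff L h ha).2 hu)⟩,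
    fun hm => ⟨ev_mem (xs_le L h) ha, fun hu => hm.2 ((unit_iff L h ha).1 hu)⟩⟩

/-- A valuation ring over `O` that contains everything whose residue comes from `O`. -/
theorem exists_val_red (h : O ∈ Xs R H) : ∃ V : Subalgebra k F, IsVal V ∧ Dom O V ∧
    ∀ a ∈ ξ, (evO ξ ρ a ∈ red ξ ρ O → a ∈ V) ∧ (evO ξ ρ a ∈ mx (red ξ ρ O) → a ∈ mx V) := by
  obtain ⟨W, hW, hd⟩ := AG.exists_val L.lh.isLocalRing
  obtain ⟨V, hV, h1, -, h3⟩ := exists_val_le (xx_loc h.1) hW ((xs_le L h).trans hd.1)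
  have key : ∀ a ∈ ξ, evO ξ ρ a ∈ red ξ ρ O → ∃ b ∈ O, evO ξ ρ b = evO ξ ρ a ∧ a - b ∈ mx V :=
    fun a ha hm => by
      obtain ⟨b, hb, hb', e⟩ := mem_red.1 hm
      exact ⟨b, hb, e, h3 (hd.mx ((L.lh.eq_zero_iff (ξ.sub_mem ha hb')).1
        (by rw [evO_sub ρ ha hb', e, sub_self])))⟩
  refine ⟨V, hV, h1, fun a ha => ⟨fun hm => ?_, fun hm => ?_⟩⟩
  · obtain ⟨b, hb, -, h4⟩ := key a ha hm
    simpa using V.add_mem h4.1 (h1.1 hb)
  · obtain ⟨b, hb, e, h4⟩ := key a ha hm.1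
    simpa using mx_add hV.isLocalRing h4 (h1.mx ((mx_iff L h hb).1 (e ▸ hm)))

theorem red_inj (h : O ∈ Xs R H) (h' : O' ∈ Xs R H) (e : red ξ ρ O = red ξ ρ O') : O = O' := by
  obtain ⟨V, -, h1, h2⟩ := exists_val_red L h
  refine xx_sep L.fm h.1 h'.1 h1 ⟨fun a ha => (h2 a (xs_le L h' ha)).1
    (e ▸ ev_mem (xs_le L h') ha), fun a ha hu => by_contra fun hn => ?_⟩
  exact hu.not_mx ((h2 a (xs_le L h' ha)).2 (e ▸ (mx_iff L h' ha).2 ⟨ha, hn⟩))

/-- Coordinates whose residues are regular are regular. -/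
theorem reg (h1 : c.1 ∈ ξ) (h2 : c.2 ∈ ξ) (hv : Vl R H (pl R c)) (h : O ∈ Xs R H)
    (hle : ap k (ev2 ξ ρ c) ≤ red ξ ρ O) : pl R c ≤ O := by
  obtain ⟨V, hV, h3, h4⟩ := exists_val_red L h
  exact hv O h V hV h3 (pl_le ((xx_le h.1).trans h3.1) ((h4 _ h1).1 (hle fst_ap))
    ((h4 _ h2).1 (hle snd_ap)))

theorem span_ev (hP : P ≤ ξ) (ha : a ∈ Submodule.span P (mx R)) : evO ξ ρ a = 0 :=
  have := span_mx L.lh.isLocalRing hP (fun _ h => L.fib.dom.mx h) ha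
  (L.lh.eq_zero_iff this.1).2 this

theorem ev_pl (h1 : c.1 ∈ ξ) (h2 : c.2 ∈ ξ) (ha : a ∈ pl R c) :
    evO ξ ρ a ∈ ap k (ev2 ξ ρ c) := by
  have hle : pl R c ≤ ξ := pl_le L.fib.dom.1 h1 h2
  obtain ⟨a₀, h0, h3⟩ := pl_rat L.rat ha
  have := span_ev L hle h3
  rw [evO_sub ρ (hle ha) (hle (ap_le_pl h0)), sub_eq_zero] at this
  exact (ev_ap h1 h2).2 ⟨a₀, h0, this.symm⟩

/-- The kernel of the reduction on the plane. -/
theorem pl_zero (h1 : c.1 ∈ ξ) (h2 : c.2 ∈ ξ) (hg : GenP k (evO ξ ρ c.1) (evO ξ ρ c.2))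
    (ha : a ∈ pl R c) (h0 : evO ξ ρ a = 0) : a ∈ Submodule.span (pl R c) (mx R) := by
  have hle : pl R c ≤ ξ := pl_le L.fib.dom.1 h1 h2
  obtain ⟨a₀, h3, h4⟩ := pl_rat L.rat ha
  have h5 := span_ev L hle h4
  rw [evO_sub ρ (hle ha) (hle (ap_le_pl h3)), h0, zero_sub, neg_eq_zero] at h5
  obtain ⟨p, rfl⟩ := mem_adjoin_pair.1 h3
  rw [evO_aeval ρ (fun i => by fin_cases i <;> simpa)] at h5
  obtain rfl : p = 0 := by_contra fun hp => hg.aeval_ne hp (by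
    convert h5 using 3
    funext i; fin_cases i <;> rfl)
  simpa using h4

theorem sc_mem (h : Lb R H ξ ρ S d γ) (hz : z ∈ Sc (XX R H) γ) : z ∈ ξ := by
  have hu := (h ξ L.fib.mem L.fib.dom).1
  simpa [mul_div_assoc, div_self hu.ne] using hu.div_mem (hz ξ L.fib.mem)

theorem lb_mul (hS : ∀ O ∈ S.T, ∀ i, S.g i O ≠ 0) (h : Lb R H ξ ρ S d γ)
    (h' : Lb R H ξ ρ S d' γ') : Lb R H ξ ρ S (d + d') fun O => γ O * γ' O := fun O hO hd => by
  obtain ⟨h1, h2⟩ := h O hO hd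
  obtain ⟨h3, h4⟩ := h' O hO hd
  refine ⟨h1.mul h3, ?_⟩
  rw [S.lb_add (hS _ (red_mem L ⟨hO, hd⟩)), evO_mul ρ h1.mem h3.mem, ← div_mul_div_comm]
  exact h2.mul h4

theorem lb_div (hS : ∀ O ∈ S.T, ∀ i, S.g i O ≠ 0) (h : Lb R H ξ ρ S d γ)
    (h' : Lb R H ξ ρ S d' γ') : Lb R H ξ ρ S (d - d') fun O => γ O / γ' O := fun O hO hd => by
  obtain ⟨h1, h2⟩ := h O hO hd
  obtain ⟨h3, h4⟩ := h' O hO hd
  refine ⟨h1.div h3, ?_⟩
  rw [S.lb_sub (hS _ (red_mem L ⟨hO, hd⟩)), evO_div ρ h1.mem h3, div_div_div_comm]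
  exact h2.div h4

/-- A section whose residue is a generator is a generator. -/
theorem sc_unit (h : Lb R H ξ ρ S d γ) (hz : z ∈ Sc (XX R H) γ) (hO : O ∈ Xs R H) :
    IsU O (z * γ O) ↔ IsU (red ξ ρ O) (evO ξ ρ z * S.lb d (red ξ ρ O)) := by
  obtain ⟨h1, h2⟩ := h O hO.1 hO.2
  have h0 := (div_ne_zero_iff.1 h2.ne).2
  rw [← unit_iff L hO (hz O hO.1), evO_mul ρ (sc_mem L h hz) h1.mem]
  refine ⟨fun hu => ?_, fun hu => ?_⟩
  · convert hu.div h2 using 1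
    have := (div_ne_zero_iff.1 h2.ne).1
    field_simp
  · convert hu.mul h2 using 1
    field_simp

theorem sc_gn (h : Lb R H ξ ρ S d γ) (hU : U ⊆ Sc (XX R H) γ) (hO : O ∈ Xs R H)
    (hu : ∃ z ∈ U, IsU (red ξ ρ O) (evO ξ ρ z * S.lb d (red ξ ρ O))) : Gn U O (γ O)⁻¹ :=
  ⟨fun a ha => by rw [div_inv_eq_mul]; exact hU ha O hO.1, hu.imp fun z hz =>
    ⟨hz.1, by rw [div_inv_eq_mul]; exact (sc_unit L h (hU hz.1) hO).2 hz.2⟩⟩

end fibre

end Pool.Agent.MP_e8e0b6_ag.R2.C
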