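import Pool.Agent.MP_e8e0b6_ag.R2.C.Bas

/-!
Row BZ: the classes that describe a blow-up.
-/

set_option autoImplicit false

namespace Pool.Agent.MP_e8e0b6_ag.R2.C

open Pool.Agent.MP_79c67d_ag Pool.Agent.MP_20d318_ag Pool.Agent.MP_20d318_ag.AG
  Pool.Agent.MP_20d318_ag.BV Pool.Agent.MP_20d318_ag.CB

namespace BzR

variable {k M I : Type} [Field k] [Field M] [Algebra k M] [Fintype I]

/-- The maximal ideal of a rational point is generated by the centered generators. -/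
theorem gen {O : Subalgebra k M} {G Z : Set M} (h : O ∈ Pts (Algebra.adjoin k G))
    (hZ : Z ⊆ mx O) (hG : ∀ g ∈ G, ∃ c : k, g - algebraMap k M c ∈ Z) {s : M} (hs : s ∈ mx O) :
    s ∈ Submodule.span O Z := by
  have key : ∀ f ∈ Algebra.adjoin k G, ∃ c : k, f - algebraMap k M c ∈ Submodule.span O Z := by
    intro f hf
    induction hf using Algebra.adjoin_induction with
    | mem g hg => exact (hG g hg).imp fun c hc => Submodule.subset_span hc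
    | algebraMap c => exact ⟨c, by rw [sub_self]; exact zero_mem _⟩
    | add f g _ _ hf hg =>
      obtain ⟨c, hc⟩ := hf
      obtain ⟨c', hc'⟩ := hg
      refine ⟨c + c', ?_⟩
      rw [map_add, add_sub_add_comm]
      exact add_mem hc hc'
    | mul f g _ hg' hf hg =>
      obtain ⟨c, hc⟩ := hf
      obtain ⟨c', hc'⟩ := hg
      refine ⟨c * c', ?_⟩
      rw [show f * g - algebraMap k M (c * c') = g * (f - algebraMap k M c) +
        algebraMap k M c * (g - algebraMap k M c') by rw [map_mul]; ring]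
      exact add_mem (span_mul (h.2.1 hg') hc) (span_mul (O.algebraMap_mem c) hc')
  obtain ⟨n, hn, d, -, hd, rfl⟩ := h.2.2 s hs.1
  obtain ⟨c, hc⟩ := key n hn
  have h1 := mx_sub' h.1 (mx_mul_right hs hd.mem) (span_mx h.1 le_rfl hZ hc)
  rw [div_mul_cancel₀ _ hd.ne, sub_sub_cancel, const_mem_mx] at h1
  rw [h1, map_zero, sub_zero] at hc
  rw [div_eq_inv_mul]
  exact span_mul hd.inv_mem hc

variable {S₀ : Sd k M I} {O₀ : Subalgebra k M} {a b : M} {H' : Set M} {e : Subalgebra k M → M}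
  {E : Place k M}

theorem exE (h₀ : SAll S₀) (hB : Bl2 S₀ O₀ a b H' e E) : Ex (S₀.blow H' e) (pb 0 1) := by
  have h1 : (S₀.blow H' e).Sec (pb 0 1) ≤ Submodule.span k {1} := fun φ hφ => by
    obtain ⟨c, rfl⟩ := h₀.a2.const φ fun O hO => by
      simpa [Sd.lb_zero] using ((hB.sec 0 1 φ).1 hφ).1 O hO
    exact Submodule.mem_span_singleton.2 ⟨c, by rw [Algebra.algebraMap_eq_smul_one]⟩
  have h2 := (Submodule.finrank_mono h1).trans (finrank_span_singleton (one_ne_zero (α := M))).le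
  have h3 : chi2 (S₀.blow H' e).B (S₀.blow H' e).K (pb 0 1) = 2 := by
    change ip _ _ _ - ip _ (pb S₀.K 1) _ + 2 = _
    rw [ip_pb, ip_pb, ip_zero_right, ip_zero_right]
    norm_num
  unfold Ex Sd.h0
  omega

theorem exD (h₀ : SAll S₀) (hB : Bl2 S₀ O₀ a b H' e E) {c : I → ℤ} (hc : Ex S₀ c) {s : M}
    (hs : s ∈ S₀.Sec c) (hu : IsU O₀ (s * S₀.lb c O₀)) : Ex (S₀.blow H' e) (pb c (-1)) := by
  have h1 : (S₀.blow H' e).Sec (pb c (-1)) < S₀.Sec c := by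
    refine lt_of_le_of_ne (fun φ hφ => ((hB.sec c _ φ).1 hφ).1) fun h => ?_
    have h2 := ((hB.sec c _ s).1 (h ▸ hs)).2
    rw [neg_neg, E.ge1_iff, ← mem_mx_plO] at h2
    exact (hu.mono hB.dE.1).not_mx h2
  have := h₀.s.fd c
  have h2 := Submodule.finrank_lt_finrank_of_lt h1
  have h3 : chi2 (S₀.blow H' e).B (S₀.blow H' e).K (pb c (-1)) = chi2 S₀.B S₀.K c - 2 := by
    change ip _ _ _ - ip _ (pb S₀.K 1) _ + 2 = ip _ _ _ - ip _ _ _ + 2 - 2
    rw [ip_pb, ip_pb]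
    ring
  unfold Ex Sd.h0 at *
  omega

theorem lbE (O : Subalgebra k M) : (S₀.blow H' e).lb (pb 0 1) O = e O := by
  rw [lb_pb, Sd.lb_zero, one_mul, zpow_one]

end BzR

theorem bz : BzStmt := by
  intro hP k M I I₀ _ _ _ _ _ _ _ S S₀ O₀ a b H' e E p hS hB h₀ hE hl hp
  obtain ⟨-, P2, P3⟩ := hP k M
  have hq := P3 I I₀ S S₀ O₀ a b H' e E p hS hl hp
  obtain ⟨j, hj, hO⟩ := hl.mem
  have hsec : ∀ s ∈ S₀.H, s ∈ S₀.Sec S₀.h := fun s hs O hO => by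
    simpa only [div_inv_eq_mul] using (h₀.s.gH O hO).1 s hs
  have hdiv : ∀ s ∈ S₀.H, s / j () ∈ O₀ := fun s hs =>
    hO.2.1 (Algebra.subset_adjoin (Set.mem_iUnion.2 ⟨(), s, hs, rfl⟩))
  have h0 : j () ≠ 0 := h₀.s.fam.nz () _ (hj ())
  have hu : IsU O₀ (j () * S₀.lb S₀.h O₀) := by
    simpa only [div_inv_eq_mul] using (gn_of_mem (hj ()) h0 hdiv).unit (h₀.s.gH O₀ hl.mem)
  have hd : p (pb S₀.h 0) - p (pb 0 1) = p (pb S₀.h (-1)) := by
    rw [← map_sub, sub_eq_add_neg, pb_neg, pb_add, neg_zero, add_zero, zero_add]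
  have hlb : ∀ O ∈ S.T, ∀ O₁ ∈ (S₀.blow H' e).T, Dom O₁ O →
      IsU O (S.lb (p (pb 0 1)) O / e O₁) := fun O h1 O₁ h2 h3 => by
    have := hp.lb (pb 0 1) O h1 O₁ h2 h3
    rwa [BzR.lbE] at this
  have e0 : p.comp (pb0 I₀) S₀.h = p (pb S₀.h 0) := rfl
  have hh := P2 _ _ S S₀ _ S₀.h hq hE
  have hm := hq.sec S₀.h
  have hl0 := fun O h1 h2 => hq.lb S₀.h O h1 O₀ hl.mem h2
  rw [e0] at hh hm hl0
  refine ⟨j (), {z | ∃ s ∈ S₀.H, ∃ c : k, s / j () - algebraMap k M c ∈ mx O₀ ∧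
    z = s - c • j ()}, hh, P2 _ _ S _ p _ hp (BzR.exE h₀ hl), ?_, ?_,
    ?_, fun O h1 h2 => ?_, ?_, fun s hs => ?_, fun O h1 h2 => ?_, fun O h1 h2 => ?_, ?_⟩
  · rw [hd]
    exact P2 _ _ S _ p _ hp (BzR.exD h₀ hl hE (hsec _ (hj ())) hu)
  · rw [hp.sec, hl.sec, Sd.lb_zero, one_mul, E.ge_iff one_ne_zero]
    exact ⟨fun O _ => by simp [Sd.lb_zero], by simp⟩
  · rw [hm]
    exact hsec _ (hj ())
  · have h3 := (hu.mono h2.1).mul (hl0 O h1 h2)
    rwa [mul_assoc, mul_div_cancel₀ _ (right_ne_zero_of_mul hu.ne)] at h3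
  · rintro _ ⟨s, hs, c, hc, rfl⟩
    rw [hd, hp.sec, hl.sec, neg_neg, E.ge1_iff, ← mem_mx_plO]
    refine ⟨sub_mem (hsec s hs) (Submodule.smul_mem _ c (hsec _ (hj ()))), hl.dE.mx ?_⟩
    have h3 := mx_mul_right hc hu.mem
    rwa [← mul_assoc, sub_mul, div_mul_cancel₀ _ h0, ← Algebra.smul_def] at h3
  · have e1 : ∀ (s : M) (c : k), (s - c • j ()) / j () = s / j () - algebraMap k M c :=
      fun s c => by rw [sub_div, Algebra.smul_def, mul_div_cancel_right₀ _ h0]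
    refine BzR.gen hO ?_ (fun g hg => ?_) hs
    · rintro _ ⟨_, ⟨s, -, c, hc, rfl⟩, rfl⟩
      show (s - c • j ()) / j () ∈ mx O₀
      rwa [e1]
    · obtain ⟨_, s, hs, rfl⟩ := Set.mem_iUnion.1 hg
      obtain ⟨c, hc⟩ := hl.rat _ (hdiv s hs)
      exact ⟨c, _, ⟨s, hs, c, hc, rfl⟩, e1 s c⟩
  · obtain ⟨O₁, h3, h4⟩ := hp.maps O h1
    rcases hl.cases O₁ h3 with ⟨h5, h6⟩ | h5
    · have h7 := (hl.off O₁ h5 h6).2.2
      have h8 := (hlb O h1 O₁ h3 h4).mul (h7.mono h4.1)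
      rw [div_mul_cancel₀ _ h7.ne] at h8
      exact (h8.not_mx h2).elim
    · exact h5.trans h4
  · obtain ⟨O₁, h3, h4⟩ := hp.maps O h1
    rcases hl.cases O₁ h3 with ⟨h5, h6⟩ | h5
    · exact (h6 (h₀.a1.nice.sep _ h5 _ hl.mem O (hS.a1.nice.loc O h1) h4 h2)).elim
    · have h7 := ((hl.ov O₁ h3 h5).2.mono h4.1).of_unit (hlb O h1 O₁ h3 h4)
      refine ⟨fun s hs => ?_, h7.2.imp fun s hs => ⟨?_, hs.2⟩⟩
      · obtain ⟨u, hu', w, hw, rfl⟩ := CB.Pb.gen hl.cht hl.ma hl.mb hs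
        rw [add_div, mul_div_assoc, mul_div_assoc]
        exact O.add_mem (O.mul_mem (h2.1 hu') (h7.1 a (Or.inl rfl)))
          (O.mul_mem (h2.1 hw) (h7.1 b (Or.inr rfl)))
      · rcases hs.1 with rfl | rfl
        · exact hl.ma
        · exact hl.mb
  · obtain ⟨O, h1, h2⟩ := hS.a1.nice.cpl _ (plO_isVal E)
    obtain ⟨O₁, h3, h4⟩ := hp.maps O h1
    have h5 := hl.nice.sep _ h3 _ hl.mE _ (plO_isVal E).isLocalRing (h4.trans h2) (Dom.refl _)
    rw [h5] at h4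
    exact ⟨O, h1, hl.dE.trans h4⟩

end Pool.Agent.MP_e8e0b6_ag.R2.C
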