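import Pool.Agent.MP_e8e0b6_ag.R2.C.Bas

/-!
Centering a chart along the section.
-/

set_option autoImplicit false

namespace Pool.Agent.MP_e8e0b6_ag.R2.C

open Pool.Agent.MP_79c67d_ag Pool.Agent.MP_20d318_ag Pool.Agent.MP_20d318_ag.AG
  Pool.Agent.MP_20d318_ag.BV Pool.Agent.MP_20d318_ag.CB

namespace Cen

variable {k F M I : Type} [Field k] [Field F] [Field M] [Algebra k F] [Algebra k M] [Fintype I]
  {R ξ : Subalgebra k F} {H : Set F} {ρ : ξ →ₐ[k] M} {S : Sd k M I}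

theorem pl_shift (c : F × F) {r s : F} (hr : r ∈ R) (hs : s ∈ R) :
    pl R (c.1 - r, c.2 - s) = pl R c := by
  refine le_antisymm (pl_le le_pl (sub_mem fst_mem (le_pl hr)) (sub_mem snd_mem (le_pl hs)))
    (pl_le le_pl ?_ ?_)
  · simpa using add_mem (fst_mem (R := R) (c := (c.1 - r, c.2 - s))) (le_pl hr)
  · simpa using add_mem (snd_mem (R := R) (c := (c.1 - r, c.2 - s))) (le_pl hs)

theorem ap_shift (u w : M) (α β : k) :
    ap k (u - algebraMap k M α, w - algebraMap k M β) = ap k (u, w) := by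
  refine le_antisymm (ap_le (sub_mem (fst_ap (c := (u, w))) (algebraMap_mem _ α))
    (sub_mem (snd_ap (c := (u, w))) (algebraMap_mem _ β))) (ap_le ?_ ?_)
  · simpa using add_mem (fst_ap (k := k) (c := (u - algebraMap k M α, w - algebraMap k M β)))
      (algebraMap_mem _ α)
  · simpa using add_mem (snd_ap (k := k) (c := (u - algebraMap k M α, w - algebraMap k M β)))
      (algebraMap_mem _ β)

theorem ev_shift (L : Lc R H ξ ρ S) {a r : F} (ha : a ∈ ξ) (hr : r ∈ R) :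
    ∃ α : k, evO ξ ρ (a - r) = evO ξ ρ a - algebraMap k M α := by
  obtain ⟨α, h⟩ := L.rat r hr
  have h1 := L.fib.dom.mx h
  have h2 := (L.lh.eq_zero_iff h1.1).2 h1
  rw [evO_sub ρ (L.fib.dom.1 hr) (ξ.algebraMap_mem α), evO_const, sub_eq_zero] at h2
  exact ⟨α, by rw [evO_sub ρ ha (L.fib.dom.1 hr), h2]⟩

end Cen

open Cen in
theorem cen : CenStmt := by
  intro hvn hcon hdel hpq k F M I _ _ _ _ _ _ _ _ R H ξ ρ S L O₀ T₀ t J W c sx wv ck hrat hO₀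
  obtain ⟨P, pq⟩ := hpq k F M I R H ξ ρ S L O₀ T₀ t J c sx ck hrat hO₀
  obtain ⟨O₁, h1, h2, h3, h4⟩ := wv.ex
  have hl := wv.val.isLocalRing
  have hP1 : P ≤ O₁ := ((pq.iff O₁ h1).2 h2).1
  have hPW : P ≤ W := hP1.trans h3
  have ht : t O₁ ≠ 0 := (sx.mem O₁ h1).2.ne
  have hm : ∀ u, u / t O₁ ∈ W → u ∈ mx W := fun u hu => by
    simpa [ht] using mx_mul_left hu h4
  have hJ : J ⊆ mx W := fun u hu => hm u (h3 (sx.dv O₁ h1 h2 u hu))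
  have hc := hcon hvn k F R P W c L.loc pq.mem pq.dom wv.val hPW (fun V hV hVW hd => by
    obtain ⟨O, hO, hOV⟩ := xs_ctr L.fm hV hd
    have h5 := hOV.1.trans hVW
    exact ((pq.iff O hO).2 (sx.ov O hO (mx_of_le h5 (sx.mem O hO).1
      (hm _ (sx.cmp O hO O₁ h1 W h5 h3).mem)))).trans hOV) fun f hf => by
    obtain ⟨r, hr, g, hg, h5⟩ := pq.gen f hf
    exact ⟨r, hr, g, hg, span_mx hl hPW hJ h5⟩
  obtain ⟨r, hr, w1⟩ := hc c.1 (pq.mem.2.1 fst_mem)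
  obtain ⟨s, hs, w2⟩ := hc c.2 (pq.mem.2.1 snd_mem)
  obtain ⟨α, e1⟩ := ev_shift L ck.m1 hr
  obtain ⟨β, e2⟩ := ev_shift L ck.m2 hs
  have ep := pl_shift c hr hs
  have ea : ap k (ev2 ξ ρ (c.1 - r, c.2 - s)) = ap k (ev2 ξ ρ c) := by
    simp only [ev2, e1, e2]
    exact ap_shift _ _ α β
  have hP : P ∈ Pts (pl R (c.1 - r, c.2 - s)) := ep.symm ▸ pq.mem
  have hO : O₀ ∈ Pts (ap k (ev2 ξ ρ (c.1 - r, c.2 - s))) := ea.symm ▸ hO₀
  obtain ⟨j1, j2⟩ := hdel k F R P W _ J L.loc hP pq.dom hl hPW wv.un w1 w2 pq.mJ hJ pq.gen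
  have ho : ∀ a ∈ P, a ∈ mx W → evO ξ ρ a ∈ O₀ → evO ξ ρ a ∈ mx O₀ := fun a ha h5 h6 =>
    mx_of_le h2.1 h6 ((mx_iff L h1 (hP1 ha)).2 (mx_of_le h3 (hP1 ha) h5))
  have hle : ap k (ev2 ξ ρ c) ≤ (IntermediateField.adjoin k
      {evO ξ ρ (c.1 - r), evO ξ ρ (c.2 - s)}).toSubalgebra :=
    ea ▸ IntermediateField.algebra_adjoin_le_adjoin k _
  refine ⟨_, ep, ea, ⟨ξ.sub_mem ck.m1 (L.fib.dom.1 hr), ξ.sub_mem ck.m2 (L.fib.dom.1 hs),
    genP_of ck.gen (hle fst_ap) (hle snd_ap), ea.symm ▸ ck.sub, ep.symm ▸ ck.frac,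
    ep.symm ▸ ck.val⟩, hP.2.1.trans hPW, w1, w2, hO,
    ho _ (hP.2.1 fst_mem) w1 (hO.2.1 fst_ap), ho _ (hP.2.1 snd_mem) w2 (hO.2.1 snd_ap),
    fun O hO hd => ?_⟩
  have h5 := ((pq.iff O hO).2 hd).1
  exact ⟨span_div h5 (sx.dv O hO hd) j1, span_div h5 (sx.dv O hO hd) j2⟩

end Pool.Agent.MP_e8e0b6_ag.R2.C
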