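import Pool.Agent.MP_e8e0b6_ag.R2.C.Bas

/-!
Functions that are constant along a horizontal valuation.
-/

set_option autoImplicit false

namespace Pool.Agent.MP_e8e0b6_ag.R2.C

open Pool.Agent.MP_79c67d_ag Pool.Agent.MP_20d318_ag Pool.Agent.MP_20d318_ag.AG
  Pool.Agent.MP_20d318_ag.BV Pool.Agent.MP_20d318_ag.CB

theorem con : ConStmt := by
  intro vn k F _ _ _ R P W c hR hP hRP hW hPW hV hf f hfP
  obtain ⟨B, hB, hRB, hBm, hWB, hBW, hBV⟩ := exists_aw hR hW (hRP.1.trans hPW)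
  obtain ⟨Q, hQ, hPQ, hQm, hWQ, -, -⟩ := exists_aw hP.1 hW hPW
  have hBQ : B ≤ Q := fun z hz => by
    obtain ⟨a, ha, h⟩ := (hBm z).1 hz
    exact (hQm z).2 ⟨a, hRP.1 ha, h⟩
  have hle : pl R c ≤ pl B c := pl_le (hRB.1.trans le_pl) fst_mem snd_mem
  have hQP : Q ∈ Pts (B ⊔ Algebra.adjoin k {c.1, c.2}) := by
    refine ⟨hQ, pl_le hBQ (hPQ.1 (hP.2.1 fst_mem)) (hPQ.1 (hP.2.1 snd_mem)), fun z hz => ?_⟩
    obtain ⟨p, hp, h⟩ := (hQm z).1 hz
    obtain ⟨a, ha, b, hb, hu, rfl⟩ := hP.2.2 p hp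
    refine ⟨a + (z - a / b) * b, (pl B c).add_mem (hle ha)
      (le_pl (hWB (mx_mul_right h (hPW hu.mem))).1), b, hle hb, hu.mono hPQ.1, ?_⟩
    have := hu.ne
    field_simp
    ring
  obtain ⟨G, hG, hGQ⟩ := vn k F B Q {c.1, c.2} hB (Set.toFinite _) hQP fun V hVv hd => by
    have h1 : Dom P V := hV V hVv (hBV V hVv hd) (hRB.trans hd)
    refine ⟨fun z hz => ?_, fun z hz hu => ?_⟩ <;> obtain ⟨p, hp, h⟩ := (hQm z).1 hz
    · simpa using V.add_mem (hd.mx (hWB h)).1 (h1.1 hp)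
    · have h2 : IsU V p := by
        simpa using hu.add_mx hVv.isLocalRing (mx_neg (hd.mx (hWB h)))
      simpa using ((h1.2 p hp h2).mono hPQ.1).add_mx hQ (hWQ h)
  have key : ∀ g ∈ Submodule.span P (mx R), ∀ q ∈ Q,
      q * g ∈ IsLocalRing.maximalIdeal B • Submodule.span B G := by
    intro g hg
    induction hg using Submodule.span_induction with
    | mem b hb =>
      intro q hq
      have hb' := hRB.mx hb
      have := Submodule.smul_mem_smul (I := IsLocalRing.maximalIdeal B) (r := ⟨b, hb'.1⟩)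
        (fun hu => hb'.2 ((isU_iff_isUnit _).2 hu)) ((hGQ q).1 hq)
      rw [mul_comm]
      exact this
    | zero => intro q _; rw [mul_zero]; exact zero_mem _
    | add a b _ _ ha hb => intro q hq; rw [mul_add]; exact add_mem (ha q hq) (hb q hq)
    | smul a b _ hb =>
      intro q hq
      change q * ((a : F) * b) ∈ _
      rw [← mul_assoc]
      exact hb _ (Q.mul_mem hq (hPQ.1 a.2))
  have nak : Submodule.span B G ≤ Submodule.span B {(1 : F)} := by
    refine Submodule.le_of_le_smul_of_le_jacobson_bot (I := IsLocalRing.maximalIdeal B)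
      (Submodule.fg_span hG) (IsLocalRing.maximalIdeal_le_jacobson _) fun z hz => ?_
    obtain ⟨p, hp, h⟩ := (hQm z).1 ((hGQ z).2 hz)
    obtain ⟨r, hr, g, hg, h'⟩ := hf p hp
    have h1 : r + (z - p) + (p - r - g) ∈ B :=
      B.add_mem (B.add_mem (hRB.1 hr) (hWB h).1) (hWB h').1
    have e : z = (r + (z - p) + (p - r - g)) * 1 + 1 * g := by ring
    rw [e]
    exact Submodule.add_mem_sup (span_mul h1 (Submodule.subset_span rfl)) (key g hg 1 Q.one_mem)
  exact (hBm f).1 (span_mem le_rfl (by rintro _ rfl; exact B.one_mem)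
    (nak ((hGQ f).1 (hPQ.1 hfP))))

end Pool.Agent.MP_e8e0b6_ag.R2.C
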