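import Pool.Agent.MP_e8e0b6_ag.R2.C.Bas

/-!
The ideal of a section of the plane over a local ring.
-/

set_option autoImplicit false

namespace Pool.Agent.MP_e8e0b6_ag.R2.C

open Pool.Agent.MP_79c67d_ag Pool.Agent.MP_20d318_ag Pool.Agent.MP_20d318_ag.AG
  Pool.Agent.MP_20d318_ag.BV Pool.Agent.MP_20d318_ag.CB

variable {k F : Type} [Field k] [Field F] [Algebra k F] {R P : Subalgebra k F} {d : F × F}

/-- Modulo the coordinates a function at the origin is a function on the base. -/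
theorem del_ker (hP : P ∈ Pts (pl R d)) (hd : Dom R P) (h1 : d.1 ∈ mx P) (h2 : d.2 ∈ mx P)
    {f : F} (hf : f ∈ P) : ∃ r ∈ R, ∃ p ∈ P, ∃ q ∈ P, f = r + p * d.1 + q * d.2 := by
  obtain ⟨a, ha, b, hb, hu, rfl⟩ := hP.2.2 f hf
  obtain ⟨r, hr, p, hp, q, hq, rfl⟩ := pl_ker ha
  obtain ⟨s, hs, p', hp', q', hq', e⟩ := pl_ker hb
  have hle := hP.2.1
  have hm := mx_add hP.1 (mx_mul_left (hle hp') h1) (mx_mul_left (hle hq') h2)
  have hs' : IsU P s := by
    have := hu.add_mx hP.1 (mx_neg hm)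
    rwa [show b + -(p' * d.1 + q' * d.2) = s by rw [e]; ring] at this
  have hsR := hd.2 s hs hs'
  have h3 := hu.mul hs'
  refine ⟨r / s, hsR.div_mem hr, (p * s - r * p') / (b * s),
    h3.div_mem (sub_mem (mul_mem (hle hp) hs'.mem) (mul_mem (hd.1 hr) (hle hp'))),
    (q * s - r * q') / (b * s),
    h3.div_mem (sub_mem (mul_mem (hle hq) hs'.mem) (mul_mem (hd.1 hr) (hle hq'))), ?_⟩
  have := hu.ne
  have := hs'.ne
  field_simp
  rw [e]
  ring

/-- The extension of the maximal ideal of the base. -/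
theorem del_span (hP : P ∈ Pts (pl R d)) (hd : Dom R P) (h1 : d.1 ∈ mx P) (h2 : d.2 ∈ mx P)
    {g : F} (hg : g ∈ Submodule.span P (mx R)) :
    ∃ r ∈ R, ∃ p ∈ mx P, ∃ q ∈ mx P, g = r + p * d.1 + q * d.2 := by
  induction hg using Submodule.span_induction with
  | mem b hb => exact ⟨b, hb.1, 0, zero_mem_mx, 0, zero_mem_mx, by ring⟩
  | zero => exact ⟨0, R.zero_mem, 0, zero_mem_mx, 0, zero_mem_mx, by ring⟩
  | add b c _ _ hb hc =>
    obtain ⟨r, hr, p, hp, q, hq, rfl⟩ := hb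
    obtain ⟨r', hr', p', hp', q', hq', rfl⟩ := hc
    exact ⟨r + r', R.add_mem hr hr', _, mx_add hP.1 hp hp', _, mx_add hP.1 hq hq', by ring⟩
  | smul c b hm hb =>
    have hb' : b ∈ mx P := span_mx hP.1 le_rfl (fun _ h => hd.mx h) hm
    obtain ⟨r, hr, p, hp, q, hq, e⟩ := hb
    obtain ⟨s, hs, p', hp', q', hq', e'⟩ := del_ker hP hd h1 h2 c.2
    refine ⟨s * r, R.mul_mem hs hr, s * p + p' * b,
      mx_add hP.1 (mx_mul_left (hd.1 hs) hp) (mx_mul_left hp' hb'), s * q + q' * b,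
      mx_add hP.1 (mx_mul_left (hd.1 hs) hq) (mx_mul_left hq' hb'), ?_⟩
    change (c : F) * b = _
    linear_combination b * e' + s * e

theorem del : DelStmt := by
  intro k F _ _ _ R P W d J _ hP hd hW hPW hu w1 w2 hJ hJW hgen
  have m1 : d.1 ∈ P := hP.2.1 fst_mem
  have m2 : d.2 ∈ P := hP.2.1 snd_mem
  have h1 := mx_of_le hPW m1 w1
  have h2 := mx_of_le hPW m2 w2
  have key : ∀ f ∈ P, f ∈ mx W → ∃ p ∈ mx P, ∃ q ∈ mx P, ∃ n ∈ Submodule.span P J,
      f = p * d.1 + q * d.2 + n := fun f hf hfW => by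
    obtain ⟨r, hr, g, hg, hn⟩ := hgen f hf
    obtain ⟨r', hr', p, hp, q, hq, rfl⟩ := del_span hP hd h1 h2 hg
    have h3 := mx_sub' hW (mx_sub' hW hfW (span_mx hW hPW hJW hn))
      (mx_add hW (mx_mul_left (hPW hp.1) w1) (mx_mul_left (hPW hq.1) w2))
    have h0 : r + r' = 0 := by_contra fun h0 => h3.2 (by
      convert hu _ (R.add_mem hr hr') h0 using 1
      ring)
    exact ⟨p, hp, q, hq, _, hn, by linear_combination h0⟩
  obtain ⟨p, hp, q, hq, n, hn, e⟩ := key _ m1 w1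
  obtain ⟨p', hp', q', hq', n', hn', e'⟩ := key _ m2 w2
  have hD : IsU P ((1 - p) * (1 - q') - q * p') := by
    convert isU_one.add_mx hP.1 (mx_sub' hP.1 (mx_sub' hP.1 (mx_sub' hP.1
      (mx_mul_left hp.1 hq') hp) hq') (mx_mul_left hq.1 hp')) using 1
    ring
  have h0 := hD.ne
  constructor
  · convert span_mul hD.inv_mem (add_mem (span_mul (sub_mem P.one_mem hq'.1) hn)
      (span_mul hq.1 hn')) using 1
    rw [eq_inv_mul_iff_mul_eq₀ h0]
    linear_combination (1 - q') * e + q * e'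
  · convert span_mul hD.inv_mem (add_mem (span_mul (sub_mem P.one_mem hp.1) hn')
      (span_mul hp'.1 hn)) using 1
    rw [eq_inv_mul_iff_mul_eq₀ h0]
    linear_combination (1 - p) * e' + p' * e

end Pool.Agent.MP_e8e0b6_ag.R2.C
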