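import Pool.Agent.MP_e8e0b6_ag.R2.C.Bas

/-!
Charts of a Hirzebruch surface.
-/

set_option autoImplicit false

namespace Pool.Agent.MP_e8e0b6_ag.R2.C

open Pool.Agent.MP_79c67d_ag Pool.Agent.MP_20d318_ag Pool.Agent.MP_20d318_ag.AG
  Pool.Agent.MP_20d318_ag.BV Pool.Agent.MP_20d318_ag.CB

namespace Fnc

variable {k M : Type} [Field k] [Field M] [Algebra k M] {O : Subalgebra k M} {f t u X Z : M}

theorem pen [Infinite k] {Y : Set (Subalgebra k M)} (hY : Y.Finite) (hl : ∀ O ∈ Y, IsLocalRing O)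
    (h0 : f ≠ 0) (h : ∀ O ∈ Y, f ∈ O ∨ f⁻¹ ∈ O) :
    ∃ l : k, ∀ O ∈ Y, (f + algebraMap k M l)⁻¹ ∈ O := by
  classical
  have hb : ∀ O ∈ Y, 1 / (if f ∈ O then 1 else f) ∈ O := fun O hO => by
    split_ifs with c
    · simp
    · simpa using (h O hO).resolve_left c
  obtain ⟨l, hl'⟩ := exists_pencil (a := f) (b := 1) hY (fun O => if f ∈ O then 1 else f) hl
    (fun O _ => by
      split_ifs with c
      · simpa using c
      · rw [div_self h0]; exact O.one_mem) hb
  refine ⟨l, fun O hO => ?_⟩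
  have hu := hl' O hO (by
    split_ifs with c
    · exact Or.inr (by simpa using isU_one)
    · exact Or.inl (by rw [div_self h0]; exact isU_one))
  have := hu.div_mem (hb O hO)
  rwa [div_div_div_cancel_right₀ (div_ne_zero_iff.1 hu.ne).2, mul_one, one_div] at this

theorem two (c : k) (h : O ∈ Pts (ap k (t, (u * Z + algebraMap k M c)⁻¹))) (hX : X ∈ O)
    (hu : IsU O u) (hB : ∀ B : Subalgebra k M, X ∈ B → u ∈ B ∧ t ∈ fr B O) (hZ : Z ≠ 0)
    (hr : u * Z + algebraMap k M c ≠ 0) : O ∈ Pts (ap k (X, Z)) ∨ O ∈ Pts (ap k (X, Z⁻¹)) := by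
  have hv : (u * Z + algebraMap k M c)⁻¹ ∈ O := h.2.1 snd_ap
  have u0 := hu.ne
  rcases isU_or_mx hv with v | v
  · have r : IsU O (u * Z + algebraMap k M c) := by simpa using v.inv
    obtain ⟨h1, h2⟩ := hB (ap k (X, Z)) fst_ap
    refine Or.inl (pts2 h (ap_le hX ?_) (ap_le h2 ?_))
    · have := hu.div_mem (O.sub_mem r.mem (O.algebraMap_mem c))
      rwa [add_sub_cancel_right, mul_div_cancel_left₀ _ u0] at this
    · have := mem_fr (O := O) (one_mem _)
        (add_mem (mul_mem h1 snd_ap) ((ap k (X, Z)).algebraMap_mem c)) r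
      rwa [one_div] at this
  · have q : IsU O (u * Z * (u * Z + algebraMap k M c)⁻¹) := by
      convert isU_one.add_mx h.1 (mx_neg (mx_mul_left (O.algebraMap_mem c) v)) using 1
      field_simp
      ring
    obtain ⟨h1, h2⟩ := hB (ap k (X, Z⁻¹)) fst_ap
    refine Or.inr (pts2 h (ap_le hX ?_) (ap_le h2 ?_))
    · convert q.div_mem (O.mul_mem hu.mem hv) using 1
      rw [mul_div_mul_right _ _ (inv_ne_zero hr)]
      field_simp
    · have e : u + algebraMap k M c * Z⁻¹ = (u * Z + algebraMap k M c) / Z := by field_simp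
      have w : IsU O (u + algebraMap k M c * Z⁻¹) := by
        convert hu.div q using 1
        rw [e]
        field_simp
      convert mem_fr (O := O) (snd_ap (c := (X, Z⁻¹)))
        (add_mem h1 (mul_mem ((ap k (X, Z⁻¹)).algebraMap_mem c) snd_ap)) w using 1
      change (u * Z + algebraMap k M c)⁻¹ = Z⁻¹ / (u + algebraMap k M c * Z⁻¹)
      rw [e]
      field_simp

end Fnc

open Fnc

theorem fnc : FncStmt := by
  intro k M _ _ _ _ _ n x y h
  have s0 := h.gen.x_ne
  have x0 : x ≠ 0 := by simpa using s0 0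
  have y0 : y ≠ 0 := by simpa using h.gen.y_ne 0
  have e1 : ∀ α : k, (x - algebraMap k M α) ^ n * y =
      (1 - algebraMap k M α * x⁻¹) ^ n * (x ^ n * y) := fun α => by
    rw [← mul_assoc, ← mul_pow]
    congr 2
    field_simp
  have gen : ∀ l : k × k, GenP k (cH n x y l).1 (cH n x y l).2 := fun l => by
    have m1 : (cH n x y l).1 ∈ IntermediateField.adjoin k {(cH n x y l).1, (cH n x y l).2} :=
      IntermediateField.subset_adjoin _ _ (Or.inl rfl)
    have m2 : (cH n x y l).2 ∈ IntermediateField.adjoin k {(cH n x y l).1, (cH n x y l).2} :=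
      IntermediateField.subset_adjoin _ _ (Or.inr rfl)
    refine genP_of h.gen ?_ ?_
    · convert add_mem (inv_mem m1) (IntermediateField.algebraMap_mem _ l.1) using 1
      simp [cH]
    · convert mul_mem (sub_mem (inv_mem m2) (IntermediateField.algebraMap_mem _ l.2))
        (pow_mem m1 n) using 1
      have := s0 l.1
      simp only [cH, inv_inv, add_sub_cancel_right, inv_pow]
      field_simp
  refine ⟨gen, fun l O hO => ?_, fun Y hY fin => ?_⟩
  · have r0 : (x - algebraMap k M l.1) ^ n * y + algebraMap k M l.2 ≠ 0 := by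
      simpa [cH] using (gen l).y_ne 0
    have ht : (x - algebraMap k M l.1)⁻¹ ∈ O := hO.2.1 fst_ap
    have s1 := s0 l.1
    rcases isU_or_mx ht with v | v
    · have s : IsU O (x - algebraMap k M l.1) := by simpa using v.inv
      refine (two (X := x) l.2 hO ?_ (s.pow n) (fun B hB => ?_) y0 r0).elim
        (fun w => (h.k1 O ⟨h.gen, w⟩).1) fun w => (h.k2 O ⟨h.g2, w⟩).1
      · simpa using O.add_mem s.mem (O.algebraMap_mem l.1)
      · have m := B.sub_mem hB (B.algebraMap_mem l.1)
        exact ⟨B.pow_mem m n, by simpa using mem_fr B.one_mem m s⟩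
    · have p : IsU O (x * (x - algebraMap k M l.1)⁻¹) := by
        convert isU_one.add_mx hO.1 (mx_mul_left (O.algebraMap_mem l.1) v) using 1
        field_simp
        ring
      have e : 1 - algebraMap k M l.1 * x⁻¹ = (x * (x - algebraMap k M l.1)⁻¹)⁻¹ := by field_simp
      have s : IsU O (1 - algebraMap k M l.1 * x⁻¹) := e ▸ p.inv
      rw [e1] at r0
      refine (two (X := x⁻¹) (t := (x - algebraMap k M l.1)⁻¹) l.2 (e1 l.1 ▸ hO) ?_ (s.pow n)
        (fun B hB => ?_) (mul_ne_zero (pow_ne_zero _ x0) y0) r0).elim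
        (fun w => (h.k3 O ⟨h.g3, w⟩).1) fun w => (h.k4 O ⟨h.g4, w⟩).1
      · convert p.div_mem ht using 1
        field_simp
      · have m := B.sub_mem B.one_mem (B.mul_mem (B.algebraMap_mem l.1) hB)
        refine ⟨B.pow_mem m n, ?_⟩
        convert mem_fr hB m s using 1
        rw [e]
        field_simp
  · have cv := fun O hO => h.cov O (hY hO)
    have m1 : ∀ {O : Subalgebra k M} {a b : M}, Cht O a b → a ∈ O := fun w =>
      w.2.2.1 (Algebra.subset_adjoin (Or.inl rfl))
    have m2 : ∀ {O : Subalgebra k M} {a b : M}, Cht O a b → b ∈ O := fun w =>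
      w.2.2.1 (Algebra.subset_adjoin (Or.inr rfl))
    have hl : ∀ O ∈ Y, IsLocalRing O := fun O hO => by
      rcases cv O hO with w | w | w | w <;> exact w.2.1
    obtain ⟨l, h1⟩ := pen fin hl x0 fun O hO => by
      rcases cv O hO with w | w | w | w
      exacts [Or.inl (m1 w), Or.inl (m1 w), Or.inr (m1 w), Or.inr (m1 w)]
    have h2 : ∀ O ∈ Y, (x - algebraMap k M (-l))⁻¹ ∈ O := by simpa using h1
    have s1 := s0 (-l)
    generalize -l = α at h2 s1
    obtain ⟨l', h3⟩ := pen (f := (x - algebraMap k M α) ^ n * y) fin hl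
      (mul_ne_zero (pow_ne_zero _ s1) y0) fun O hO => by
      rcases cv O hO with w | w | w | w
      · exact Or.inl (O.mul_mem (O.pow_mem (O.sub_mem (m1 w) (O.algebraMap_mem α)) n) (m2 w))
      · refine Or.inr ?_
        rw [mul_inv, ← inv_pow]
        exact O.mul_mem (O.pow_mem (h2 O hO) n) (m2 w)
      · rw [e1]
        exact Or.inl (O.mul_mem (O.pow_mem (O.sub_mem O.one_mem
          (O.mul_mem (O.algebraMap_mem α) (m1 w))) n) (m2 w))
      · refine Or.inr ?_
        rw [e1, mul_inv, ← inv_pow]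
        refine O.mul_mem (O.pow_mem ?_ n) (m2 w)
        convert O.add_mem O.one_mem (O.mul_mem (O.algebraMap_mem α) (h2 O hO)) using 1
        rw [show 1 - algebraMap k M α * x⁻¹ = (x - algebraMap k M α) / x by field_simp]
        field_simp
        ring
    exact ⟨(α, l'), fun O hO => ap_le (h2 O hO) (h3 O hO)⟩

end Pool.Agent.MP_e8e0b6_ag.R2.C
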