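import Pool.Agent.MP_e8e0b6_ag.R2.C.Bas

/-! FNR: the classes of the ruling and of a section of a Hirzebruch surface. -/

set_option autoImplicit false

namespace Pool.Agent.MP_e8e0b6_ag.R2.C

open Pool.Agent.MP_79c67d_ag Pool.Agent.MP_20d318_ag Pool.Agent.MP_20d318_ag.AG
  Pool.Agent.MP_20d318_ag.BV Pool.Agent.MP_20d318_ag.CB

namespace Fnr

variable {k M : Type} [Field k] [Field M] [Algebra k M] {n : ℕ} {x y : M}

theorem span_le {u w : M} (h : GenP k u w) {J : Type} [Fintype J] (e : J → ℕ × ℕ)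
    (he : Function.Injective e) (W : Submodule k M) [FiniteDimensional k W] (T : Set M)
    (hW : ∀ j, u ^ (e j).1 * w ^ (e j).2 ∈ W) (hT : ∀ j, u ^ (e j).1 * w ^ (e j).2 ∈ T)
    (hd : Module.finrank k W ≤ Fintype.card J) : W ≤ Submodule.span k T := by
  have li := (genP_li h).comp e he
  have h1 : Submodule.span k (Set.range ((fun e : ℕ × ℕ => u ^ e.1 * w ^ e.2) ∘ e)) = W :=
    Submodule.eq_of_le_of_finrank_le (Submodule.span_le.2 (by rintro _ ⟨j, rfl⟩; exact hW j))
      (by rw [finrank_span_eq_card li]; exact hd)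
  rw [← h1]
  exact Submodule.span_mono (by rintro _ ⟨j, rfl⟩; exact hT j)

theorem lbf (h : Fn0 k n x y) (O : Subalgebra k M) :
    (fn k n x y).lb ![1, 0] O = (gn (fF n x y 0) O)⁻¹ := by
  rw [h.lb]; simp

theorem lbG (h : Fn0 k n x y) (O : Subalgebra k M) :
    (fn k n x y).lb ![0, 1] O = (gn (fF n x y 1) O)⁻¹ := by
  rw [h.lb]; simp

theorem secf (h : Fn0 k n x y) (α : k) : (1 : M) ∈ (fn k n x y).Sec ![1, 0] ∧
    x - algebraMap k M α ∈ (fn k n x y).Sec ![1, 0] := by
  have h1 : ∀ a ∈ fF n x y 0, a ∈ (fn k n x y).Sec ![1, 0] := fun a ha O hO => by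
    rw [lbf h, ← div_eq_mul_inv]; exact (h.gF O hO 0).1 a ha
  have h2 := h1 1 (Or.inl rfl)
  refine ⟨h2, sub_mem (h1 x (Or.inr rfl)) ?_⟩
  rw [Algebra.algebraMap_eq_smul_one]
  exact Submodule.smul_mem _ _ h2

theorem secG (h : Fn0 k n x y) (α : k) : (1 : M) ∈ (fn k n x y).Sec ![0, 1] ∧
    ∀ i ≤ n, (x - algebraMap k M α) ^ i * y ∈ (fn k n x y).Sec ![0, 1] := by
  refine ⟨fun O hO => ?_, fun i hi O hO => ?_⟩ <;> rw [lbG h, ← div_eq_mul_inv]
  · exact (h.gF O hO 1).1 1 (Or.inl rfl)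
  obtain ⟨h1, a, ha, hu⟩ := h.gF O hO 0
  have g0 := (h.gF O hO 0).ne
  rcases ha with rfl | rfl
  · have hx := hu.div_mem (h1 x (Or.inr rfl))
    rw [div_div_div_cancel_right₀ g0, div_one] at hx
    rw [mul_div_assoc]
    exact O.mul_mem (O.pow_mem (O.sub_mem hx (O.algebraMap_mem α)) i)
      ((h.gF O hO 1).1 y (Or.inr (Or.inl rfl)))
  · have hx := hu.div_mem (h1 1 (Or.inl rfl))
    rw [div_div_div_cancel_right₀ g0] at hx
    have x0 : a ≠ 0 := (div_ne_zero_iff.1 hu.1).1
    obtain ⟨j, rfl⟩ := Nat.exists_eq_add_of_le hi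
    have e : (a - algebraMap k M α) ^ i * y / gn (fF (i + j) a y 1) O =
        (1 - algebraMap k M α * (1 / a)) ^ i * (1 / a) ^ j *
          (a ^ (i + j) * y / gn (fF (i + j) a y 1) O) := by
      have : 1 - algebraMap k M α * (1 / a) = (a - algebraMap k M α) / a := by field_simp
      rw [this, div_pow, div_pow, pow_add, one_pow]
      field_simp
    rw [e]
    exact O.mul_mem (O.mul_mem (O.pow_mem (O.sub_mem O.one_mem
      (O.mul_mem (O.algebraMap_mem α) hx)) i) (O.pow_mem hx j))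
      ((h.gF O hO 1).1 _ (Or.inr (Or.inr rfl)))

theorem h00 {I : Type} [Fintype I] {S : Sd k M I} (hS : SAll S) : S.h0 0 ≤ 1 := by
  have h : S.Sec 0 ≤ Submodule.span k {1} := fun φ hφ => by
    obtain ⟨a, rfl⟩ := hS.a2.const φ fun O hO => by simpa [S.lb_zero] using hφ O hO
    rw [Algebra.algebraMap_eq_smul_one]
    exact Submodule.smul_mem _ _ (Submodule.mem_span_singleton_self _)
  have := (Submodule.finrank_mono h).trans (finrank_span_singleton (one_ne_zero (α := M))).le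
  unfold Sd.h0
  exact_mod_cast this

theorem dims {F G : Place k M} (h : Fn1 k n x y F G) (hS : SAll (fn k n x y)) :
    (fn k n x y).h0 ![1, 0] ≤ 2 ∧ (fn k n x y).h0 ![0, 1] ≤ n + 2 ∧
      (fn k n x y).h0 (![0, 1] + ![1, 0]) ≤ n + 4 := by
  have h0 := h00 hS
  have h1 := hS.a3.res _ _ _ h.pF ![1, 0]
  have h2 := hS.a3.res _ _ _ h.pG ![0, 1]
  have h3 := hS.a3.res _ _ _ h.pG (![0, 1] + ![1, 0])
  have e1 : CB.ip (fn k n x y).B ![1, 0] ![1, 0] = (0 : ℤ) := by simp [CB.ip, fn, Fin.sum_univ_two]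
  have e2 : CB.ip (fn k n x y).B ![0, 1] ![0, 1] = (n : ℤ) := by simp [CB.ip, fn, Fin.sum_univ_two]
  have e3 : CB.ip (fn k n x y).B (![0, 1] + ![1, 0]) ![0, 1] = (n + 1 : ℤ) := by
    simp [CB.ip, fn, Fin.sum_univ_two]; ring
  rw [sub_self] at h1 h2
  rw [add_sub_cancel_left] at h3
  rw [e1] at h1
  rw [e2] at h2
  rw [e3] at h3
  omega

end Fnr

open Fnr

theorem fnr : FnrStmt := by
  intro hP k M I _ _ _ _ _ _ S n x y F G p h hS hp
  obtain ⟨d1, d2, d3⟩ := dims h hS
  have h0 : Fn0 k n x y := h.toFn0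
  have tr := fun c => (hP k M).2.1 I (Fin 2) S (fn k n x y) p c hp
  have gu : ∀ α : k, GenP k (x - algebraMap k M α) y := fun α => genP_of h0.gen (by
      have : x = x - algebraMap k M α + algebraMap k M α := by ring
      nth_rw 2 [this]
      exact add_mem (IntermediateField.subset_adjoin _ _ (Or.inl rfl))
        (IntermediateField.algebraMap_mem _ α))
    (IntermediateField.subset_adjoin _ _ (Or.inr rfl))
  refine ⟨h0.gen, tr _ ?_, tr _ ?_, map_add p _ _ ▸ tr _ ?_, fun O hO => ?_, fun O hO => ?_,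
    fun α => hp.sec _ ▸ (secG h0 α).2, fun α => ?_, fun α => ?_⟩
  · have : chi2 (fn k n x y).B (fn k n x y).K ![1, 0] = 4 := by
      simp [chi2, CB.ip, fn, Fin.sum_univ_two]
    unfold Ex; omega
  · have : chi2 (fn k n x y).B (fn k n x y).K ![0, 1] = 2 * n + 4 := by
      simp [chi2, CB.ip, fn, Fin.sum_univ_two]; ring
    unfold Ex; omega
  · have : chi2 (fn k n x y).B (fn k n x y).K (![0, 1] + ![1, 0]) = 2 * n + 8 := by
      simp [chi2, CB.ip, fn, Fin.sum_univ_two]; ring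
    unfold Ex; omega
  · obtain ⟨O₀, h1, h2⟩ := hp.maps O hO
    have := (hp.lb ![1, 0] O hO O₀ h1 h2).inv
    rw [lbf h0, inv_div, div_eq_mul_inv, mul_comm, ← div_eq_mul_inv] at this
    exact ((h0.gF O₀ h1 0).mono h2.1).of_unit this
  · obtain ⟨O₀, h1, h2⟩ := hp.maps O hO
    have := (hp.lb ![0, 1] O hO O₀ h1 h2).inv
    rw [lbG h0, inv_div, div_eq_mul_inv, mul_comm, ← div_eq_mul_inv] at this
    exact ((h0.gF O₀ h1 1).mono h2.1).of_unit this
  · rw [hp.sec]
    have := hS.s.fd ![0, 1]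
    refine span_le (gu α) (fun o : Option (Fin (n + 1)) => o.elim (0, 0) fun i => (i, 1)) ?_ _ _
      ?_ ?_ ?_
    · rintro (_ | i) (_ | j) e <;> simp [Fin.val_inj] at e ⊢
      exact e
    · rintro (_ | i)
      · simpa using (secG h0 α).1
      · simpa using (secG h0 α).2 i (Nat.lt_succ_iff.1 i.2)
    · rintro (_ | i)
      · exact Or.inl (by simp)
      · exact Or.inr ⟨i, Nat.lt_succ_iff.1 i.2, by simp⟩
    · unfold Sd.h0 at d2
      simp only [Fintype.card_option, Fintype.card_fin]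
      omega
  · rw [← map_add, hp.sec]
    have := hS.s.fd (![0, 1] + ![1, 0])
    have mul := hS.a2.mul ![0, 1] ![1, 0]
    refine span_le (gu α) (Sum.elim (fun j : Fin 2 => (j, 0)) fun i : Fin (n + 2) => (i, 1)) ?_ _ _
      ?_ ?_ ?_
    · rintro (i | i) (j | j) e <;> simp [Fin.val_inj] at e ⊢ <;> exact e
    · rintro (i | i)
      · fin_cases i
        · simpa using mul _ (secG h0 α).1 _ (secf h0 α).1
        · simpa using mul _ (secG h0 α).1 _ (secf h0 α).2
      · rcases Nat.lt_or_ge n i with hi | hi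
        · have e : (i : ℕ) = n + 1 := by omega
          have := mul _ ((secG h0 α).2 n le_rfl) _ (secf h0 α).2
          rw [mul_right_comm, ← pow_succ, ← e] at this
          simpa using this
        · simpa using mul _ ((secG h0 α).2 i hi) _ (secf h0 α).1
    · rintro (i | i)
      · fin_cases i
        · exact Or.inl (by simp)
        · exact Or.inr (Or.inl (by simp))
      · exact Or.inr (Or.inr ⟨i, Nat.lt_succ_iff.1 i.2, by simp⟩)
    · unfold Sd.h0 at d3
      simp only [Fintype.card_sum, Fintype.card_fin]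
      omega

end Pool.Agent.MP_e8e0b6_ag.R2.C
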