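import Pool.Agent.MP_e8e0b6_ag.R2.C.Bas

/-!
Row FNS: lifting the sections of a ruled base.
-/

set_option autoImplicit false

namespace Pool.Agent.MP_e8e0b6_ag.R2.C

open Pool.Agent.MP_79c67d_ag Pool.Agent.MP_20d318_ag Pool.Agent.MP_20d318_ag.AG
  Pool.Agent.MP_20d318_ag.BV Pool.Agent.MP_20d318_ag.CB

namespace Fns

variable {k F M I : Type} [Field k] [Field F] [Field M] [Algebra k F] [Algebra k M] [Fintype I]
  {R ξ : Subalgebra k F} {H : Set F} {ρ : ξ →ₐ[k] M} {S : Sd k M I} {X : Set (Subalgebra k F)}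
  {γ γ' : Subalgebra k F → F} {a b : F}

theorem sc_mul (ha : a ∈ Sc X γ) (hb : b ∈ Sc X γ') : a * b ∈ Sc X fun O => γ O * γ' O :=
  fun O hO => by
    rw [mul_mul_mul_comm]
    exact O.mul_mem (ha O hO) (hb O hO)

theorem sc_sub (ha : a ∈ Sc X γ) (hb : b ∈ Sc X γ) : a - b ∈ Sc X γ := fun O hO => by
  rw [sub_mul]
  exact O.sub_mem (ha O hO) (hb O hO)

theorem sc_const (c : k) (ha : a ∈ Sc X γ) : algebraMap k F c * a ∈ Sc X γ := fun O hO => by
  rw [mul_assoc]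
  exact O.mul_mem (O.algebraMap_mem c) (ha O hO)

theorem ev_sum {ι : Type} (s : Finset ι) {v : ι → F} (hv : ∀ i, v i ∈ ξ) :
    evO ξ ρ (∑ i ∈ s, v i) = ∑ i ∈ s, evO ξ ρ (v i) := by
  classical
  induction s using Finset.induction_on with
  | empty => rw [Finset.sum_empty, Finset.sum_empty, evO_zero]
  | insert i s hi ih =>
    rw [Finset.sum_insert hi, Finset.sum_insert hi,
      evO_add ρ (hv i) (ξ.sum_mem fun j _ => hv j), ih]

/-- A combination with residue zero of elements with independent residues. -/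
theorem coef (L : Lc R H ξ ρ S) {ι : Type} [Fintype ι] {v : ι → F} (hv : ∀ i, v i ∈ ξ)
    (li : LinearIndependent k fun i => evO ξ ρ (v i)) (ha : a ∈ Submodule.span R (Set.range v))
    (h0 : evO ξ ρ a = 0) : ∃ c : ι → F, (∀ i, c i ∈ mx R) ∧ a = ∑ i, c i * v i := by
  obtain ⟨c, rfl⟩ := (Submodule.mem_span_range_iff_exists_fun R).1 ha
  choose e he using fun i => L.rat (c i) (c i).2
  have hc : ∀ i, (c i : F) ∈ ξ := fun i => L.fib.dom.1 (c i).2
  have h1 : ∀ i, evO ξ ρ (c i) = algebraMap k M (e i) := fun i => by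
    have h2 := L.fib.dom.mx (he i)
    have h3 := (L.lh.eq_zero_iff h2.1).2 h2
    rwa [evO_sub ρ (hc i) (ξ.algebraMap_mem _), evO_const, sub_eq_zero] at h3
  have h4 : evO ξ ρ (∑ i, (c i : F) * v i) = 0 := h0
  rw [ev_sum _ fun i => ξ.mul_mem (hc i) (hv i)] at h4
  have h5 := Fintype.linearIndependent_iff.1 li e (by
    rw [← h4]
    exact Finset.sum_congr rfl fun i _ => by rw [evO_mul ρ (hc i) (hv i), h1, Algebra.smul_def])
  exact ⟨fun i => c i, fun i => by simpa [h5 i] using he i, rfl⟩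

theorem sec_of {d : I → ℤ} {U : Set M} (h : ∀ O ∈ S.T, Gn U O (S.lb d O)⁻¹) {s : M} (hs : s ∈ U) :
    s ∈ S.Sec d := fun O hO => by
  have := (h O hO).1 s hs
  rwa [div_inv_eq_mul] at this

end Fns

open Fns in
theorem fns : FnsStmt := by
  intro alg k F M I _ _ _ _ _ _ _ _ R H ξ ρ S L A hS n x y f G C
  obtain ⟨gf, Df, Bf⟩ := A.ex f
  obtain ⟨gG, DG, BG⟩ := A.ex G
  have DS := dt_mul DG Df
  have BS := lb_mul L hS.a1.gne BG Bf
  obtain ⟨X₀, s0, e0⟩ := A.surj f gf Df Bf C.ef 1 (sec_of C.gf (Or.inl rfl))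
  obtain ⟨X₁, s1, e1⟩ := A.surj f gf Df Bf C.ef x (sec_of C.gf (Or.inr rfl))
  obtain ⟨z, sz, ez⟩ := A.surj G gG DG BG C.eG 1 (sec_of C.gG (Or.inl rfl))
  have m0 := sc_mem L Bf s0
  have m1 := sc_mem L Bf s1
  have mz := sc_mem L BG sz
  refine ⟨X₀, X₁, z, Sc (XX R H) gG, m0, m1, mz, e0, e1, ez, sz, fun O hO => ⟨_, sc_gn L Bf ?_ hO ?_⟩,
    fun O hO => ⟨_, sc_gn L BG subset_rfl hO ?_⟩, fun α => ?_⟩
  · rintro _ (rfl | rfl) <;> assumption
  · obtain ⟨s, hs, hu⟩ := (C.gf _ (red_mem L hO)).2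
    rw [div_inv_eq_mul] at hu
    rcases hs with rfl | rfl
    · exact ⟨X₀, Or.inl rfl, e0 ▸ hu⟩
    · exact ⟨X₁, Or.inr rfl, e1 ▸ hu⟩
  · obtain ⟨s, hs, hu⟩ := (C.gG _ (red_mem L hO)).2
    rw [div_inv_eq_mul] at hu
    obtain ⟨w, hw, e⟩ := A.surj G gG DG BG C.eG s (sec_of C.gG hs)
    exact ⟨w, hw, e ▸ hu⟩
  choose Y sY eY using fun j : ℕ =>
    A.surj G gG DG BG C.eG _ (C.mG α (n - j) (Nat.sub_le n j))
  have mY := fun j => sc_mem L BG (sY j)
  obtain ⟨u, hu⟩ : ∃ u, u = x - algebraMap k M α := ⟨_, rfl⟩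
  obtain ⟨x₀, hx⟩ : ∃ x₀, x₀ = X₁ - algebraMap k F α * X₀ := ⟨_, rfl⟩
  have sG := C.sG α
  have sS := C.sS α
  rw [← hu] at eY sG sS ⊢
  rw [← hx]
  have sx : x₀ ∈ Sc (XX R H) gf := hx ▸ sc_sub s1 (sc_const α s0)
  have mx0 := sc_mem L Bf sx
  have ex : evO ξ ρ x₀ = u := by
    rw [hx, evO_sub ρ m1 (ξ.mul_mem (ξ.algebraMap_mem α) m0), evO_mul ρ (ξ.algebraMap_mem α) m0,
      evO_const, e0, e1, mul_one, hu]
  have gen : GenP k u y := genP_of C.gen (by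
    have h1 : u ∈ IntermediateField.adjoin k {u, y} := IntermediateField.subset_adjoin _ _ (Or.inl rfl)
    have := add_mem h1 (IntermediateField.algebraMap_mem _ α)
    rwa [show u + algebraMap k M α = x by rw [hu]; ring] at this)
    (IntermediateField.subset_adjoin _ _ (Or.inr rfl))
  have u0 : u ≠ 0 := by simpa using (genP_li gen).ne_zero (1, 0)
  have ux : IsU ξ x₀ := xi_unit L mx0 (ex ▸ u0)
  let v : Fin 2 ⊕ Fin (n + 2) → F := Sum.elim (fun a => z * if a.1 = 0 then X₀ else x₀)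
    fun j => if j.1 = 0 then Y n * X₀ else Y (n + 1 - j.1) * x₀
  let e : Fin 2 ⊕ Fin (n + 2) → ℕ × ℕ := Sum.elim (fun a => (a.1, 0)) fun j => (j.1, 1)
  have sv : ∀ i, v i ∈ Sc (XX R H) fun O => gG O * gf O := by
    rintro (a | j) <;> simp only [v, Sum.elim_inl, Sum.elim_inr] <;> split_ifs
    exacts [sc_mul sz s0, sc_mul sz sx, sc_mul (sY _) s0, sc_mul (sY _) sx]
  have ev : ∀ i, evO ξ ρ (v i) = u ^ (e i).1 * y ^ (e i).2 := by
    rintro (a | j) <;> simp only [v, e, Sum.elim_inl, Sum.elim_inr] <;> split_ifs with h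
    · rw [evO_mul ρ mz m0, ez, e0, h, pow_zero, pow_zero]
    · rw [evO_mul ρ mz mx0, ez, ex, show a.1 = 1 by omega]
      ring
    · rw [evO_mul ρ (mY _) m0, eY, e0, h, Nat.sub_self]
      ring
    · obtain ⟨i, hi⟩ : ∃ i, j.1 = i + 1 := ⟨j.1 - 1, by omega⟩
      rw [evO_mul ρ (mY _) mx0, eY, ex, show n - (n + 1 - j.1) = i by omega, hi]
      ring
  have li : LinearIndependent k fun i => evO ξ ρ (v i) := by
    rw [funext ev]
    refine (genP_li gen).comp e ?_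
    rintro (a | a) (b | b) h <;> simp only [e, Sum.elim_inl, Sum.elim_inr, Prod.mk.injEq] at h
    · rw [Fin.ext h.1]
    · omega
    · omega
    · rw [Fin.ext h.1]
  have sp : S.Sec (G + f) ≤ Submodule.span k (evO ξ ρ '' Set.range v) :=
    sS.trans (Submodule.span_mono (by
      rintro _ (rfl | rfl | ⟨i, hi, rfl⟩)
      · exact ⟨_, ⟨Sum.inl 0, rfl⟩, by rw [ev]; simp [e]⟩
      · exact ⟨_, ⟨Sum.inl 1, rfl⟩, by rw [ev]; simp [e]⟩
      · exact ⟨_, ⟨Sum.inr ⟨i, by omega⟩, rfl⟩, by rw [ev]; simp [e]⟩))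
  obtain ⟨p, hp, q, hq, h1, a, ha, b, hb, h2⟩ := alg k F R n (X₀ / x₀) z Y L.loc fun i hi => by
    have s2 := sc_sub (sc_mul (sY i) s0) (sc_mul (sY (i + 1)) sx)
    obtain ⟨c, hc, h3⟩ := coef L (fun i => sc_mem L BS (sv i)) li
      (A.span _ _ DS BS C.eS _ (Set.range_subset_iff.2 sv) sp _ s2) (by
        rw [evO_sub ρ (ξ.mul_mem (mY _) m0) (ξ.mul_mem (mY _) mx0), evO_mul ρ (mY _) m0,
          evO_mul ρ (mY _) mx0, eY, eY, e0, ex, show n - i = n - (i + 1) + 1 by omega]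
        ring)
    have h4 : X₀ / x₀ * Y i - Y (i + 1) = ∑ l, c l * (v l / x₀) := by
      simp only [← mul_div_assoc]
      rw [← Finset.sum_div, ← h3]
      field_simp [ux.ne]
    rw [h4]
    refine Submodule.sum_mem _ fun l _ => Submodule.subset_span ⟨_, hc l, _, ?_, rfl⟩
    rcases l with a | j <;> simp only [v, Sum.elim_inl, Sum.elim_inr] <;> split_ifs with h
    · exact Or.inr (Or.inl (by ring))
    · exact Or.inl (mul_div_cancel_right₀ _ ux.ne)
    · exact Or.inr (Or.inr (Or.inl (by ring)))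
    · exact Or.inr (Or.inr (Or.inr ⟨_, by omega, mul_div_cancel_right₀ _ ux.ne⟩))
  have hA : R ⊔ Algebra.adjoin k {X₀ / x₀} ≤ ξ := sup_le L.fib.dom.1
    (Algebra.adjoin_le (Set.singleton_subset_iff.2 (ux.div_mem m0)))
  have my : q * Y 0 + p * Y n ∈ ξ :=
    ξ.add_mem (ξ.mul_mem (hA hq) (mY 0)) (ξ.mul_mem (hA hp) (mY n))
  have ma := span_mem hA (fun _ h => L.fib.dom.1 h.1) ha
  have mb := span_mem hA (fun _ h => L.fib.dom.1 h.1) hb
  refine ⟨_, my, ?_, add_mem (span_mul hq (Submodule.subset_span (sY 0)))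
    (span_mul hp (Submodule.subset_span (sY n))), fun w hw => ?_⟩
  · have := congrArg (evO ξ ρ) h2
    rwa [evO_sub ρ my (mY 0), evO_add ρ (ξ.mul_mem ma mz) (ξ.mul_mem mb my), evO_mul ρ ma mz,
      evO_mul ρ mb my, span_ev L hA ha, span_ev L hA hb, zero_mul, zero_mul, add_zero, sub_eq_zero,
      eY, Nat.sub_zero] at this
  · have h3 := A.span G gG DG BG C.eG (insert z {a | ∃ j ≤ n, a = Y j}) (by
      rintro _ (rfl | ⟨j, -, rfl⟩)
      exacts [sz, sY j]) (sG.trans (Submodule.span_mono (by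
      rintro _ (rfl | ⟨i, hi, rfl⟩)
      · exact ⟨z, Or.inl rfl, ez⟩
      · exact ⟨_, Or.inr ⟨n - i, Nat.sub_le n i, rfl⟩, by rw [eY, Nat.sub_sub_self hi]⟩))) w hw
    refine Submodule.span_le.2 ?_ (span_up le_sup_left h3)
    rintro _ (rfl | ⟨j, hj, rfl⟩)
    exacts [Submodule.subset_span (Or.inl rfl), h1 j hj]

end Pool.Agent.MP_e8e0b6_ag.R2.C
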