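import Pool.Agent.MP_e8e0b6_ag.R2.C.Bas

/-!
Row FRC: lifted coordinates generate the function field of the family.
-/

set_option autoImplicit false

namespace Pool.Agent.MP_e8e0b6_ag.R2.C

open Pool.Agent.MP_79c67d_ag Pool.Agent.MP_20d318_ag Pool.Agent.MP_20d318_ag.AG
  Pool.Agent.MP_20d318_ag.BV Pool.Agent.MP_20d318_ag.CB

namespace Frc

variable {k F : Type} [Field k] [Field F] [Algebra k F] {A w O : Subalgebra k F}

theorem frac_of (h : w ∈ Pts A) (hf : Frac w) : Frac A := fun f => by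
  obtain ⟨a, ha, b, hb, h0, rfl⟩ := hf f
  obtain ⟨a1, h1, a2, h2, u1, rfl⟩ := h.2.2 a ha
  obtain ⟨b1, h3, b2, h4, u2, rfl⟩ := h.2.2 b hb
  exact ⟨a1 * b2, A.mul_mem h1 h4, a2 * b1, A.mul_mem h2 h3,
    mul_ne_zero u1.ne (div_ne_zero_iff.1 h0).1, by rw [div_div_div_eq]⟩

/-- The lemma of Nakayama for a finite extension of a local ring. -/
theorem nak (hw : IsLocalRing w) {W G : Set F} (hW : W.Finite) (hG : G ⊆ mx w)
    (e : ∀ z, z ∈ O ↔ z ∈ Submodule.span w W)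
    (h : ∀ a ∈ O, ∃ b ∈ w, a - b ∈ Submodule.span O G) : O ≤ w := by
  have key : ∀ x ∈ Submodule.span O G, ∀ c ∈ O,
      c * x ∈ IsLocalRing.maximalIdeal w • Submodule.span w W := fun x hx => by
    induction hx using Submodule.span_induction with
    | mem r hr =>
      intro c hc
      rw [mul_comm]
      exact Submodule.smul_mem_smul ((mem_mx_iff (⟨r, (hG hr).1⟩ : w)).1 (hG hr)) ((e c).1 hc)
    | zero => intro c _; rw [mul_zero]; exact zero_mem _
    | add x y _ _ hx hy => intro c hc; rw [mul_add]; exact add_mem (hx c hc) (hy c hc)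
    | smul d x _ hx =>
      intro c hc
      change c * ((d : F) * x) ∈ _
      rw [← mul_assoc]
      exact hx _ (O.mul_mem hc d.2)
  have h1 : Submodule.span w W ≤ Submodule.span w {(1 : F)} :=
    Submodule.le_of_le_smul_of_le_jacobson_bot (Submodule.fg_span hW)
      (IsLocalRing.maximalIdeal_le_jacobson _) fun a ha => by
        obtain ⟨b, hb, h2⟩ := h a ((e a).2 ha)
        refine Submodule.mem_sup.2 ⟨b, ?_, a - b, by simpa using key _ h2 1 O.one_mem, by ring⟩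
        exact Submodule.mem_span_singleton.2 ⟨⟨b, hb⟩, mul_one b⟩
  exact fun a ha => span_mem le_rfl (by rintro _ rfl; exact w.one_mem) (h1 ((e a).1 ha))

end Frc

theorem frc : FrcStmt := by
  intro vn k F M I _ _ _ _ _ _ _ _ R H ξ ρ S L c h1 h2 hg hv
  have hle : pl R c ≤ ξ := pl_le L.fib.dom.1 h1 h2
  have hl := L.lh.isLocalRing
  obtain ⟨w, hw, hd⟩ := exists_ctr hl hle
  have hR : Dom R w := L.fib.dom.of_le (le_pl.trans hw.2.1) hd.1
  have K : ∀ a ∈ ξ, ∃ b ∈ w, a - b ∈ mx ξ := fun a ha => by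
    obtain ⟨p, hp, q, hq, h0, e⟩ := (plane_stmt k M _ _ hg).frac (evO ξ ρ a)
    obtain ⟨p, hp', rfl⟩ := (ev_ap h1 h2).1 hp
    obtain ⟨q, hq', rfl⟩ := (ev_ap h1 h2).1 hq
    have m1 : p ∈ w := hw.2.1 (ap_le_pl hp')
    have m2 : q ∈ w := hw.2.1 (ap_le_pl hq')
    have u : IsU ξ q := xi_unit L (hd.1 m2) h0
    have m : p / q ∈ w := (hd.2 q m2 u).div_mem m1
    refine ⟨p / q, m, (L.lh.eq_zero_iff (ξ.sub_mem ha (hd.1 m))).1 ?_⟩
    rw [evO_sub ρ ha (hd.1 m), evO_div ρ (hd.1 m1) u, e, sub_self]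
  have hV : ∀ V : Subalgebra k F, IsVal V → Dom w V → Dom ξ V := fun V hV h3 => by
    obtain ⟨O, hO, h4⟩ := xs_ctr L.fm hV (hR.trans h3)
    have h5 : w ≤ O := (dom_of hw (hv O hO V hV h4 (hw.2.1.trans h3.1)) h3 h4).1
    have h6 : Dom O ξ := ⟨xs_le L hO, fun u hu hu' => by
      obtain ⟨b, hb, h7⟩ := K _ hu'.inv_mem
      have h8 : u * b - 1 ∈ mx ξ := by
        rw [show u * b - 1 = -(u * (u⁻¹ - b)) by rw [mul_sub, mul_inv_cancel₀ hu'.ne]; ring]
        exact mx_neg (mx_mul_left hu'.mem h7)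
      exact IsU.of_mul hu (h5 hb) (by
        simpa using isU_one.add_mx (xx_loc hO.1)
          (mx_of_le (xs_le L hO) (O.sub_mem (O.mul_mem hu (h5 hb)) O.one_mem) h8))⟩
    rwa [xx_sep L.fm hO.1 L.fib.mem h6 (Dom.refl ξ)] at h4
  obtain ⟨j, -, hj⟩ := L.fib.mem
  obtain ⟨W, hW, e⟩ := vn k F w ξ _ hw.1 (L.fm.fin.image fun a => a / j)
    (Pts_of_le hj (sup_le_sup_right hR.1 _) (sup_le hd.1 (le_sup_right.trans hj.2.1))) hV
  refine Frc.frac_of hw ((xx_frac L.fm L.fib.mem).mono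
    (Frc.nak hw.1 hW (fun _ h => hR.mx h) e fun a ha => ?_))
  obtain ⟨b, hb, h3⟩ := K a ha
  exact ⟨b, hb, L.fib.red ξ L.fib.mem L.fib.dom _ h3.1 h3⟩

end Pool.Agent.MP_e8e0b6_ag.R2.C
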