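import Pool.Agent.MP_e8e0b6_ag.R2.C.Bas

/-!
A lifted chart is the polynomial ring over the base, so its local rings are normal.
-/

set_option autoImplicit false

namespace Pool.Agent.MP_e8e0b6_ag.R2.C

open Pool.Agent.MP_79c67d_ag Pool.Agent.MP_20d318_ag Pool.Agent.MP_20d318_ag.AG
  Pool.Agent.MP_20d318_ag.BV Pool.Agent.MP_20d318_ag.CB

namespace NrmAux

variable {k F : Type} [Field k] [Field F] [Algebra k F] {R : Subalgebra k F} {c : F × F}

/-- Independent monomials give algebraically independent coordinates. -/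
theorem ai_of_li (h : LinearIndependent R fun s : Fin 2 →₀ ℕ => c.1 ^ s 0 * c.2 ^ s 1) :
    AlgebraicIndependent R ![c.1, c.2] := by
  have e : (MvPolynomial.aeval ![c.1, c.2] : MvPolynomial (Fin 2) R →ₐ[R] F).toLinearMap =
      Finsupp.linearCombination R (fun s : Fin 2 →₀ ℕ => c.1 ^ s 0 * c.2 ^ s 1) ∘ₗ
        (MvPolynomial.basisMonomials (Fin 2) R).repr.toLinearMap := by
    refine (MvPolynomial.basisMonomials (Fin 2) R).ext fun s => ?_
    rw [LinearMap.comp_apply, LinearEquiv.coe_coe, Module.Basis.repr_self]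
    simp [MvPolynomial.aeval_monomial, Finsupp.prod_fintype]
  change Function.Injective
    (MvPolynomial.aeval ![c.1, c.2] : MvPolynomial (Fin 2) R →ₐ[R] F).toLinearMap
  rw [e, LinearMap.coe_comp]
  exact Function.Injective.comp h (MvPolynomial.basisMonomials (Fin 2) R).repr.injective

/-- The plane over `R` is the image of the polynomial ring. -/
theorem mem_pl {f : F} : f ∈ pl R c ↔
    f ∈ (MvPolynomial.aeval ![c.1, c.2] : MvPolynomial (Fin 2) R →ₐ[R] F).range := by
  constructor
  · intro hf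
    let T := (MvPolynomial.aeval ![c.1, c.2] : MvPolynomial (Fin 2) R →ₐ[R] F).range
    exact pl_le (O := T.restrictScalars k) (fun r hr => T.algebraMap_mem ⟨r, hr⟩)
      ⟨MvPolynomial.X 0, by simp⟩ ⟨MvPolynomial.X 1, by simp⟩ hf
  · rintro ⟨p, rfl⟩
    change MvPolynomial.aeval ![c.1, c.2] p ∈ pl R c
    induction p using MvPolynomial.induction_on with
    | C a => rw [MvPolynomial.aeval_C]; exact le_pl a.2
    | add p q hp hq => rw [map_add]; exact add_mem hp hq
    | mul_X p i hp =>
      rw [map_mul, MvPolynomial.aeval_X]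
      refine mul_mem hp ?_
      fin_cases i
      · exact fst_mem
      · exact snd_mem

/-- The plane over a factorial ring is normal. -/
theorem nrm_pl [UniqueFactorizationMonoid R] (h : AlgebraicIndependent R ![c.1, c.2])
    (hF : Frac (pl R c)) : Nrm (pl R c) := by
  intro f hf
  let φ : MvPolynomial (Fin 2) R →+* pl R c :=
    (MvPolynomial.aeval ![c.1, c.2] : MvPolynomial (Fin 2) R →ₐ[R] F).toRingHom.codRestrict
      (pl R c) fun p => mem_pl.2 ⟨p, rfl⟩
  have hφ : Function.Bijective φ :=
    ⟨fun p q e => h (congrArg Subtype.val e), fun a =>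
      (mem_pl.1 a.2).imp fun p e => Subtype.ext e⟩
  have := (RingEquiv.ofBijective φ hφ).toMulEquiv.uniqueFactorizationMonoid inferInstance
  have := Krull.isFractionRing hF
  obtain ⟨y, hy⟩ := IsIntegrallyClosed.algebraMap_eq_of_integral hf
  exact hy ▸ y.2

end NrmAux

theorem nrm : NrmStmt := by
  intro k F M I _ _ _ _ _ _ _ _ R H ξ ρ S L c h1 h2 hg
  have ha : AlgebraicIndependent R ![c.1, c.2] := by
    refine NrmAux.ai_of_li (L.ind _ _ (fun s => mul_mem (pow_mem h1 _) (pow_mem h2 _)) ?_)
    have := (genP_li hg).comp (fun s : Fin 2 →₀ ℕ => (s 0, s 1)) fun s t e => by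
      ext i
      fin_cases i
      · exact congrArg Prod.fst e
      · exact congrArg Prod.snd e
    convert this using 2 with s
    rw [evO_mul ρ (pow_mem h1 _) (pow_mem h2 _), evO_pow ρ h1, evO_pow ρ h2]
    rfl
  refine ⟨ha, fun hF P hP => ?_⟩
  have := L.fm.ufdC R (self_mem_Pts L.loc)
  exact nrmLoc_stmt k F _ P (NrmAux.nrm_pl ha hF) hP.2.1 hP.2.2

end Pool.Agent.MP_e8e0b6_ag.R2.C
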