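import Pool.Agent.MP_e8e0b6_ag.R2.C.Bas

/-!
Charts of the plane.
-/

set_option autoImplicit false

namespace Pool.Agent.MP_e8e0b6_ag.R2.C

open Pool.Agent.MP_79c67d_ag Pool.Agent.MP_20d318_ag Pool.Agent.MP_20d318_ag.AG
  Pool.Agent.MP_20d318_ag.BV Pool.Agent.MP_20d318_ag.CB

theorem p2c : P2cStmt := by
  intro k M _ _ _ _ _ x y L h
  obtain ⟨a, ha⟩ : ∃ a : k × k → M,
      ∀ l, a l = 1 + algebraMap k M l.1 * x + algebraMap k M l.2 * y := ⟨_, fun _ => rfl⟩
  have hc : ∀ l, cP (k := k) x y l = (x / a l, y / a l) := fun l => by rw [ha]; rfl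
  have ne : ∀ l, a l ≠ 0 := fun l => by
    have := h.gen.aeval_ne (p := 1 + MvPolynomial.C l.1 * MvPolynomial.X 0 +
      MvPolynomial.C l.2 * MvPolynomial.X 1)
      fun e => by simpa using congrArg (MvPolynomial.eval fun _ => (0 : k)) e
    simpa [ha] using this
  have dv : ∀ l j, a l / j = 1 / j + algebraMap k M l.1 * (x / j) + algebraMap k M l.2 * (y / j) :=
    fun l j => by rw [ha]; ring
  have inv : ∀ l, 1 / a l =
      1 - algebraMap k M l.1 * (x / a l) - algebraMap k M l.2 * (y / a l) := fun l => by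
    have := dv l (a l)
    rw [div_self (ne l)] at this
    linear_combination -this
  refine ⟨fun l => ?_, fun l O hO => ?_, fun Y hY hf => ?_⟩
  · rw [hc]
    obtain ⟨K, hK⟩ : ∃ K, K = IntermediateField.adjoin k {x / a l, y / a l} := ⟨_, rfl⟩
    have m1 : x / a l ∈ K := hK ▸ IntermediateField.subset_adjoin _ _ (Or.inl rfl)
    have m2 : y / a l ∈ K := hK ▸ IntermediateField.subset_adjoin _ _ (Or.inr rfl)
    have m3 : 1 / a l ∈ K := inv l ▸ sub_mem (sub_mem (one_mem _)
      (mul_mem (K.algebraMap_mem _) m1)) (mul_mem (K.algebraMap_mem _) m2)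
    have m4 := div_mem m1 m3
    have m5 := div_mem m2 m3
    rw [div_div_div_cancel_right₀ (ne l), div_one, hK] at m4 m5
    exact genP_of h.gen m4 m5
  · rw [hc] at hO
    have m1 : x / a l ∈ O := hO.2.1 fst_ap
    have m2 : y / a l ∈ O := hO.2.1 snd_ap
    have m3 : 1 / a l ∈ O := inv l ▸ sub_mem (sub_mem (one_mem _)
      (mul_mem (O.algebraMap_mem _) m1)) (mul_mem (O.algebraMap_mem _) m2)
    have g : Gn {x, y, 1} O (a l) := by
      refine ⟨by rintro _ (rfl | rfl | rfl) <;> assumption, by_contra fun hn => ?_⟩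
      have := mx_add hO.1 (mx_add hO.1 ⟨m3, fun u => hn ⟨1, by simp, u⟩⟩
        (mx_mul_left (O.algebraMap_mem l.1) ⟨m1, fun u => hn ⟨x, by simp, u⟩⟩))
        (mx_mul_left (O.algebraMap_mem l.2) ⟨m2, fun u => hn ⟨y, by simp, u⟩⟩)
      rw [← dv, div_self (ne l)] at this
      exact one_not_mem_mx this
    obtain ⟨j, hj, g'⟩ := g.exists_mem
    obtain ⟨B, hB⟩ : ∃ B, B = cht k (fun _ : Unit => ({x, y, 1} : Set M)) fun _ => j := ⟨_, rfl⟩
    have mB : ∀ b ∈ ({x, y, 1} : Set M), b / j ∈ B := fun b hb =>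
      hB ▸ Algebra.subset_adjoin (Set.mem_iUnion.2 ⟨(), b, hb, rfl⟩)
    have ma : a l / j ∈ B := dv l j ▸ add_mem (add_mem (mB 1 (by simp))
      (mul_mem (B.algebraMap_mem _) (mB x (by simp)))) (mul_mem (B.algebraMap_mem _) (mB y (by simp)))
    have fr' : ∀ b ∈ ({x, y, 1} : Set M), b / a l ∈ fr B O := fun b hb => by
      rw [← div_div_div_cancel_right₀ g'.ne b (a l)]
      exact mem_fr (mB b hb) ma (g.unit g')
    have le : B ≤ O := hB ▸ Algebra.adjoin_le (by
      rintro _ ⟨_, ⟨u, rfl⟩, b, hb, rfl⟩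
      exact g'.1 b hb)
    exact ⟨fun _ => j, fun _ => hj, hB ▸ pts2 hO le (ap_le (fr' x (by simp)) (fr' y (by simp)))⟩
  · have loc : ∀ O ∈ Y, IsLocalRing O := fun O hO => (hY hO).choose_spec.2.1
    have g := fun O hO => h.gH O (hY hO)
    have mx := fun O hO => (g O hO).1 x (by simp)
    have my := fun O hO => (g O hO).1 y (by simp)
    obtain ⟨m, hm⟩ := exists_pencil hf (gn {x, y, 1}) loc mx my
    obtain ⟨l, hl⟩ := exists_pencil (b := x + algebraMap k M m * y) hf (gn {x, y, 1}) loc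
      (fun O hO => (g O hO).1 1 (by simp)) fun O hO => by
        rw [add_div, mul_div_assoc]
        exact add_mem (mx O hO) (mul_mem (O.algebraMap_mem _) (my O hO))
    refine ⟨(l, l * m), fun O hO => ?_⟩
    have u : IsU O (a (l, l * m) / gn {x, y, 1} O) := by
      rw [show a (l, l * m) = 1 + algebraMap k M l * (x + algebraMap k M m * y) by
        rw [ha, map_mul]; ring]
      obtain ⟨b, rfl | rfl | rfl, hb⟩ := (g O hO).2
      exacts [hl O hO (Or.inr (hm O hO (Or.inl hb))), hl O hO (Or.inr (hm O hO (Or.inr hb))),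
        hl O hO (Or.inl hb)]
    have m1 := u.div_mem (mx O hO)
    have m2 := u.div_mem (my O hO)
    rw [div_div_div_cancel_right₀ (g O hO).ne] at m1 m2
    rw [hc]
    exact ap_le m1 m2

end Pool.Agent.MP_e8e0b6_ag.R2.C
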