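import Pool.Agent.MP_e8e0b6_ag.R2.C.Bas

/-!
Lifting the charts of the plane to the family.
-/

set_option autoImplicit false

namespace Pool.Agent.MP_e8e0b6_ag.R2.C

open Pool.Agent.MP_79c67d_ag Pool.Agent.MP_20d318_ag Pool.Agent.MP_20d318_ag.AG
  Pool.Agent.MP_20d318_ag.BV Pool.Agent.MP_20d318_ag.CB

namespace P2f

variable {k F : Type} [Field k] [Field F] [Algebra k F] {A : Subalgebra k F} {z₀ z₁ z₂ u : F}

/-- A member of the net. -/
def ln (z₀ z₁ z₂ : F) (l : k × k) : F :=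
  z₀ + algebraMap k F l.1 * z₁ + algebraMap k F l.2 * z₂

theorem ln_div (l : k × k) (h0 : z₀ / u ∈ A) (h1 : z₁ / u ∈ A) (h2 : z₂ / u ∈ A) :
    ln z₀ z₁ z₂ l / u ∈ A := by
  rw [ln, add_div, add_div, mul_div_assoc, mul_div_assoc]
  exact add_mem (add_mem h0 (mul_mem (A.algebraMap_mem _) h1)) (mul_mem (A.algebraMap_mem _) h2)

theorem zero_div_ln {l : k × k} (h : ln z₀ z₁ z₂ l ≠ 0) (h1 : z₁ / ln z₀ z₁ z₂ l ∈ A)
    (h2 : z₂ / ln z₀ z₁ z₂ l ∈ A) : z₀ / ln z₀ z₁ z₂ l ∈ A := by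
  have e : z₀ / ln z₀ z₁ z₂ l = 1 - algebraMap k F l.1 * (z₁ / ln z₀ z₁ z₂ l) -
      algebraMap k F l.2 * (z₂ / ln z₀ z₁ z₂ l) := by
    field_simp
    rw [ln]
    ring
  rw [e]
  exact sub_mem (sub_mem A.one_mem (mul_mem (A.algebraMap_mem _) h1))
    (mul_mem (A.algebraMap_mem _) h2)

end P2f

open P2f in
theorem p2f : P2fStmt := by
  intro hF k F M I _ _ _ _ _ _ _ _ R H ξ ρ S L hA T₀ x y h hc hE hG
  obtain ⟨γ, hD, hb⟩ := hA.ex h
  have sec : ∀ s ∈ ({x, y, 1} : Set M), s ∈ S.Sec h := fun s hs O hO => by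
    simpa only [div_inv_eq_mul] using (hG O hO).1 s hs
  obtain ⟨z₁, s1, e1⟩ := hA.surj h γ hD hb hE x (sec _ (by simp))
  obtain ⟨z₂, s2, e2⟩ := hA.surj h γ hD hb hE y (sec _ (by simp))
  obtain ⟨z₀, s0, e0⟩ := hA.surj h γ hD hb hE 1 (sec _ (by simp))
  have m0 := sc_mem L hb s0
  have m1 := sc_mem L hb s1
  have m2 := sc_mem L hb s2
  have gn : ∀ O ∈ Xs R H, Gn {z₁, z₂, z₀} O (γ O)⁻¹ := fun O hO => by
    refine sc_gn L hb (by rintro _ (rfl | rfl | rfl) <;> assumption) hO ?_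
    obtain ⟨s, hs, hu⟩ := (hG _ (red_mem L hO)).2
    rw [div_inv_eq_mul] at hu
    rcases hs with rfl | rfl | rfl
    · exact ⟨z₁, by simp, e1 ▸ hu⟩
    · exact ⟨z₂, by simp, e2 ▸ hu⟩
    · exact ⟨z₀, by simp, e0.symm ▸ hu⟩
  have ea : ∀ l : k × k, evO ξ ρ (ln z₀ z₁ z₂ l) =
      1 + algebraMap k M l.1 * x + algebraMap k M l.2 * y := fun l => by
    have a1 := ξ.mul_mem (ξ.algebraMap_mem l.1) m1
    have a2 := ξ.mul_mem (ξ.algebraMap_mem l.2) m2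
    rw [ln, evO_add ρ (ξ.add_mem m0 a1) a2, evO_add ρ m0 a1, evO_mul ρ (ξ.algebraMap_mem _) m1,
      evO_mul ρ (ξ.algebraMap_mem _) m2, evO_const, evO_const, e0, e1, e2]
  have ua : ∀ l : k × k, IsU ξ (ln z₀ z₁ z₂ l) := fun l => by
    refine xi_unit L (ξ.add_mem (ξ.add_mem m0 (ξ.mul_mem (ξ.algebraMap_mem l.1) m1))
      (ξ.mul_mem (ξ.algebraMap_mem l.2) m2)) ?_
    have := (hc.gen l).x_ne 0
    rw [map_zero, sub_zero] at this
    exact ea l ▸ (div_ne_zero_iff.1 this).2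
  let c : k × k → F × F := fun l => (z₁ / ln z₀ z₁ z₂ l, z₂ / ln z₀ z₁ z₂ l)
  have ec : ∀ l, ev2 ξ ρ (c l) = cP x y l := fun l => Prod.ext
    ((evO_div ρ m1 (ua l)).trans (by rw [ea, e1]; rfl))
    ((evO_div ρ m2 (ua l)).trans (by rw [ea, e2]; rfl))
  have all : ∀ l l', ln z₀ z₁ z₂ l' / ln z₀ z₁ z₂ l ∈ pl R (c l) := fun l l' =>
    ln_div l' (zero_div_ln (ua l).ne fst_mem snd_mem) fst_mem snd_mem
  refine ⟨Set.range c, ?_, ?_, fun Y hY hf => ?_⟩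
  · rintro _ ⟨l, rfl⟩
    have g : GenP k (evO ξ ρ (c l).1) (evO ξ ρ (c l).2) := by
      have := hc.gen l
      rwa [← ec] at this
    have v : Vl R H (pl R (c l)) := fun O hO V _ hd hV => by
      obtain ⟨g1, s, hs, hu⟩ := gn O hO
      have g0 := (div_ne_zero_iff.1 hu.ne).2
      have a1 := ln_div l (g1 z₀ (by simp)) (g1 z₁ (by simp)) (g1 z₂ (by simp))
      have a2 : s / ln z₀ z₁ z₂ l ∈ V := by
        rcases hs with rfl | rfl | rfl
        · exact hV fst_mem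
        · exact hV snd_mem
        · exact hV (zero_div_ln (ua l).ne fst_mem snd_mem)
      have a3 : IsU O (ln z₀ z₁ z₂ l / (γ O)⁻¹) := hd.2 _ a1 (IsU.of_mul (hd.1 a1) a2 (by
        rw [div_mul_div_cancel₀' (ua l).ne]
        exact hu.mono hd.1))
      refine pl_le (xx_le hO.1) ?_ ?_
      · have := a3.div_mem (g1 z₁ (by simp))
        rwa [div_div_div_cancel_right₀ g0] at this
      · have := a3.div_mem (g1 z₂ (by simp))
        rwa [div_div_div_cancel_right₀ g0] at this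
    have n1 := (ua l).div_mem m1
    have n2 := (ua l).div_mem m2
    exact ⟨n1, n2, g, (ec l).symm ▸ hc.sub l, hF k F M I R H ξ ρ S L (c l) n1 n2 g v, v⟩
  · rintro _ ⟨l, rfl⟩ _ ⟨l', rfl⟩ V _ hV O hO hd
    have a1 := hO.2.1 (all l l')
    have a2 : IsU O (ln z₀ z₁ z₂ l' / ln z₀ z₁ z₂ l) := hd.2 _ a1
      ⟨div_ne_zero (ua l').ne (ua l).ne, hd.1 a1, by rw [inv_div]; exact hV (all l' l)⟩
    refine pl_le (le_pl.trans hO.2.1) ?_ ?_
    · have := a2.div_mem (hO.2.1 fst_mem)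
      rwa [div_div_div_cancel_right₀ (ua l).ne] at this
    · have := a2.div_mem (hO.2.1 snd_mem)
      rwa [div_div_div_cancel_right₀ (ua l).ne] at this
  · obtain ⟨l, hl⟩ := hc.cov Y hY hf
    exact ⟨c l, ⟨l, rfl⟩, (ec l).symm ▸ hl⟩

end Pool.Agent.MP_e8e0b6_ag.R2.C
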