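import Pool.Agent.MP_e8e0b6_ag.R2.C.Bas

/-!
Pull-backs of classes along towers of blow-ups.
-/

set_option autoImplicit false

namespace Pool.Agent.MP_e8e0b6_ag.R2.C

open Pool.Agent.MP_79c67d_ag Pool.Agent.MP_20d318_ag Pool.Agent.MP_20d318_ag.AG
  Pool.Agent.MP_20d318_ag.BV Pool.Agent.MP_20d318_ag.CB

theorem pbS : PbStmt := by
  intro k M _ _ _
  refine ⟨fun I _ S h => ⟨fun O hO => ⟨O, hO, Dom.refl O⟩, fun c O hO O₀ h0 hd => ?_, fun _ _ => rfl,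
    fun _ => rfl, fun _ => rfl⟩, fun I I₀ _ _ S S₀ p c hp hc => ?_,
    fun I I₀ _ _ S S₀ O₀ a b H' e E p h B hp => ?_⟩
  · rw [h.a1.nice.sep O₀ h0 O hO O (h.a1.nice.loc O hO) hd (Dom.refl O), AddMonoidHom.id_apply,
      div_self (S.lb_ne (h.a1.gne O hO) c)]
    exact isU_one
  · unfold Ex Sd.h0 chi2 at *
    rwa [hp.sec, hp.iso, hp.can]
  have bt : ∀ O₁ ∈ (S₀.blow H' e).T, S₀.bt O₁ ∈ S₀.T ∧ Dom (S₀.bt O₁) O₁ := fun O₁ h1 =>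
    Classical.epsilon_spec (B.maps O₁ h1)
  refine ⟨fun O hO => ?_, fun c O hO O' h' hd => ?_, fun c c' => ?_, fun c => ?_, fun c => ?_⟩
  · obtain ⟨O₁, h1, hd⟩ := hp.maps O hO
    exact ⟨_, (bt O₁ h1).1, (bt O₁ h1).2.trans hd⟩
  · obtain ⟨O₁, h1, hd1⟩ := hp.maps O hO
    have := hp.lb (pb c 0) O hO O₁ h1 hd1
    rwa [lb_pb, zpow_zero, mul_one, B.a1.nice.sep _ (bt O₁ h1).1 O' h' O (h.a1.nice.loc O hO)
      ((bt O₁ h1).2.trans hd1) hd] at this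
  · exact (hp.iso (pb c 0) (pb c' 0)).trans (by rw [ip_pb, mul_zero, sub_zero])
  · exact (hp.can (pb c 0)).trans ((ip_pb S₀ H' e S₀.K c 1 0).trans (by rw [mul_zero, sub_zero]))
  · refine (hp.sec (pb c 0)).trans (Submodule.ext fun φ => (B.sec c 0 φ).trans
      ⟨fun u => u.1, fun u => ⟨u, ?_⟩⟩)
    rw [neg_zero, ← mem_plO']
    exact B.dE.1 (u O₀ B.mem)

end Pool.Agent.MP_e8e0b6_ag.R2.C
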