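import Pool.Agent.MP_e8e0b6_ag.R2.C.Bas

/-!
The local ring of a lifted chart at the point over the centre of a blow-up.
-/

set_option autoImplicit false

namespace Pool.Agent.MP_e8e0b6_ag.R2.C

open Pool.Agent.MP_79c67d_ag Pool.Agent.MP_20d318_ag Pool.Agent.MP_20d318_ag.AG
  Pool.Agent.MP_20d318_ag.BV Pool.Agent.MP_20d318_ag.CB

theorem pq : PqStmt := by
  intro hN k F M I _ _ _ _ _ _ _ _ R H ξ ρ S L O₀ T₀ t J c hS hc hr h0
  obtain ⟨O₁, hO₁, hd₁⟩ := hS.ex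
  have A1 : ∀ O ∈ Xs R H, Dom O₀ (red ξ ρ O) → pl R c ≤ O := fun O hO hd =>
    reg L hc.m1 hc.m2 hc.val hO (h0.2.1.trans hd.1)
  have A0 : ∀ b ∈ pl R c, evO ξ ρ b ∈ O₀ := fun b hb => h0.2.1 (ev_pl L hc.m1 hc.m2 hb)
  have A2 : ∀ O ∈ Xs R H, Dom O₀ (red ξ ρ O) → ∀ b ∈ pl R c,
      IsU O b ↔ IsU O₀ (evO ξ ρ b) := fun O hO hd b hb =>
    (unit_iff L hO (A1 O hO hd hb)).symm.trans ⟨hd.2 _ (A0 b hb), fun h => h.mono hd.1⟩
  obtain ⟨P, hP, hd⟩ := exists_ctr (xx_loc hO₁.1) (A1 O₁ hO₁ hd₁)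
  have A3 : ∀ b ∈ pl R c, IsU P b ↔ IsU O₀ (evO ξ ρ b) := fun b hb =>
    ⟨fun h => (A2 O₁ hO₁ hd₁ b hb).1 (h.mono hd.1),
      fun h => hd.2 b (hP.2.1 hb) ((A2 O₁ hO₁ hd₁ b hb).2 h)⟩
  have hR : Dom R P := hO₁.2.of_le (le_pl.trans hP.2.1) hd.1
  have hξ : P ≤ ξ := hd.1.trans (xs_le L hO₁)
  have A4 : ∀ m ∈ O₀, ∃ a ∈ pl R c, ∃ b ∈ pl R c, IsU P b ∧ m = evO ξ ρ a / evO ξ ρ b :=
    fun m hm => by
      obtain ⟨_, ha, _, hb, hu, rfl⟩ := h0.2.2 m hm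
      obtain ⟨a, ha', rfl⟩ := (ev_ap hc.m1 hc.m2).1 ha
      obtain ⟨b, hb', rfl⟩ := (ev_ap hc.m1 hc.m2).1 hb
      exact ⟨a, ap_le_pl ha', b, ap_le_pl hb', (A3 b (ap_le_pl hb')).2 hu, rfl⟩
  have hiff : ∀ O ∈ Xs R H, Dom P O ↔ Dom O₀ (red ξ ρ O) := fun O hO => by
    constructor
    · intro h
      refine ⟨fun m hm => ?_, fun m hm hu => ?_⟩ <;>
        obtain ⟨a, ha, b, hb, hb', rfl⟩ := A4 m hm
      · exact (ev_unit (xs_le L hO) (hb'.mono h.1)).div_mem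
          (ev_mem (xs_le L hO) (h.1 (hP.2.1 ha)))
      · have h1 := ev_unit (ρ := ρ) (xs_le L hO) (hb'.mono h.1)
        have h2 := hu.mul h1
        rw [div_mul_cancel₀ _ h1.ne] at h2
        exact ((A3 a ha).1 (h.2 a (hP.2.1 ha) ((unit_iff L hO (h.1 (hP.2.1 ha))).1 h2))).div
          ((A3 b hb).1 hb')
    · intro h
      refine ⟨fun f hf => ?_, fun f hf hu => ?_⟩ <;>
        obtain ⟨a, ha, b, hb, hb', rfl⟩ := hP.2.2 f hf
      · exact ((A2 O hO h b hb).2 ((A3 b hb).1 hb')).div_mem (A1 O hO h ha)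
      · have h2 := hu.mul ((A2 O hO h b hb).2 ((A3 b hb).1 hb'))
        rw [div_mul_cancel₀ _ hb'.ne] at h2
        exact ((A3 a ha).2 ((A2 O hO h a ha).1 h2)).div hb'
  have hJ : J ⊆ P := fun u hu => by_contra fun hn => by
    obtain ⟨V, hV, h1, h2⟩ := exists_val_not_mem hP.1
      ((hN k F M I R H ξ ρ S L c hc.m1 hc.m2 hc.gen).2 hc.frac P hP) hn
    obtain ⟨O, hO, h3⟩ := xs_ctr L.fm hV (hR.trans h1)
    have h4 := (hiff O hO).1 (dom_of hP (hc.val O hO V hV h3 (hP.2.1.trans h1.1)) h1 h3)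
    have h5 := O.mul_mem (hS.dv O hO h4 u hu) (hS.mem O hO).1
    rw [div_mul_cancel₀ _ (hS.mem O hO).2.ne] at h5
    exact h2 (h3.1 h5)
  refine ⟨P, hP, hR, hiff, hJ, fun f hf => ?_⟩
  have B1 : ∀ m ∈ Submodule.span O₀ (evO ξ ρ '' J), ∃ x ∈ Submodule.span P J, evO ξ ρ x = m :=
    fun m hm => by
      induction hm using Submodule.span_induction with
      | mem _ h =>
        obtain ⟨x, hx, rfl⟩ := h
        exact ⟨x, Submodule.subset_span hx, rfl⟩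
      | zero => exact ⟨0, zero_mem _, evO_zero ρ⟩
      | add _ _ _ _ h1 h2 =>
        obtain ⟨x, hx, rfl⟩ := h1
        obtain ⟨y, hy, rfl⟩ := h2
        exact ⟨x + y, add_mem hx hy,
          evO_add ρ (hξ (span_mem le_rfl hJ hx)) (hξ (span_mem le_rfl hJ hy))⟩
      | smul e _ _ h1 =>
        obtain ⟨x, hx, rfl⟩ := h1
        obtain ⟨a, ha, b, hb, hb', he⟩ := A4 e e.2
        have h2 := hb'.div_mem (hP.2.1 ha)
        refine ⟨a / b * x, span_mul h2 hx, ?_⟩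
        rw [evO_mul ρ (hξ h2) (hξ (span_mem le_rfl hJ hx)),
          evO_div ρ (hξ (hP.2.1 ha)) (hb'.mono hξ), ← he]
        rfl
  have B2 : evO ξ ρ f ∈ O₀ := by
    obtain ⟨a, ha, b, hb, hb', rfl⟩ := hP.2.2 f hf
    rw [evO_div ρ (hξ (hP.2.1 ha)) (hb'.mono hξ)]
    exact ((A3 b hb).1 hb').div_mem (A0 a ha)
  obtain ⟨e, he⟩ := hr _ B2
  obtain ⟨x, hx, hx'⟩ := B1 _ (hS.sp _ he)
  have hxP := span_mem le_rfl hJ hx
  have h1 : f - algebraMap k F e ∈ P := P.sub_mem hf (P.algebraMap_mem e)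
  refine ⟨_, R.algebraMap_mem e, f - algebraMap k F e - x, ?_, by simpa using hx⟩
  have h2 : evO ξ ρ (f - algebraMap k F e - x) = 0 := by
    rw [evO_sub ρ (hξ h1) (hξ hxP), evO_sub ρ (hξ hf) (ξ.algebraMap_mem e), evO_const, hx',
      sub_self]
  obtain ⟨a, ha, b, hb, hb', h3⟩ := hP.2.2 _ (P.sub_mem h1 hxP)
  rw [h3] at h2 ⊢
  rw [evO_div ρ (hξ (hP.2.1 ha)) (hb'.mono hξ), div_eq_zero_iff] at h2
  rw [div_eq_inv_mul]
  exact span_mul hb'.inv_mem (span_up hP.2.1 (pl_zero L hc.m1 hc.m2 hc.gen ha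
    (h2.resolve_right (evO_ne ρ (hb'.mono hξ)))))

end Pool.Agent.MP_e8e0b6_ag.R2.C
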