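import Pool.Agent.MP_e8e0b6_ag.R2.C.Bas

/-! Row SEC: lifting the sections that define a blow-up. -/

set_option autoImplicit false

namespace Pool.Agent.MP_e8e0b6_ag.R2.C

open Pool.Agent.MP_79c67d_ag Pool.Agent.MP_20d318_ag Pool.Agent.MP_20d318_ag.AG
  Pool.Agent.MP_20d318_ag.BV Pool.Agent.MP_20d318_ag.CB

theorem sec : SecStmt := by
  intro k F M I _ _ _ _ _ _ _ _ R H ξ ρ S L A hS O₀ h ε s₀ Z B
  obtain ⟨gh, Dh, Lh⟩ := A.ex h
  obtain ⟨ge, De, Le⟩ := A.ex ε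
  have Dd := dt_div Dh De
  have Ld := lb_div L hS.a1.gne Lh Le
  obtain ⟨z, hz, ez⟩ := A.surj ε ge De Le B.ee 1 B.one
  obtain ⟨s, hs, es⟩ := A.surj h gh Dh Lh B.eh s₀ B.m0
  have zu : IsU ξ z := xi_unit L (sc_mem L Le hz) (by rw [ez]; exact one_ne_zero)
  have su : IsU ξ s := xi_unit L (sc_mem L Lh hs) (by
    obtain ⟨O, hO, hd⟩ := B.ex
    rw [es]
    exact left_ne_zero_of_mul (B.u0 O hO hd).ne)
  have key : ∀ O ∈ Xs R H,
      IsU (red ξ ρ O) (evO ξ ρ (z * ge O) / S.lb ε (red ξ ρ O)) := fun O hO => by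
    rw [evO_mul ρ zu.mem (Le O hO.1 hO.2).1.mem, ez, one_mul]
    exact (Le O hO.1 hO.2).2
  refine ⟨fun O => z * ge O, {u | ∃ a ∈ Sc (XX R H) fun O => gh O / ge O, u = z * a / s},
    fun O hO => ⟨hz O hO.1, zu.mul (Le O hO.1 hO.2).1⟩, fun O hO hm => ?_,
    fun O hO hd => (B.gn _ (red_mem L hO) hd).of_unit (key O hO), ?_,
    fun O hO O' hO' W h1 h2 => ?_, fun a ha => Submodule.span_mono ?_ (B.sp a ha), ?_⟩
  · have h1 := mx_div ((mx_iff L hO (hz O hO.1)).2 hm) (key O hO)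
    rw [div_div_cancel₀ (div_ne_zero_iff.1 (key O hO).ne).1] at h1
    exact B.ov _ (red_mem L hO) h1
  · rintro O hO hd _ ⟨a, ha, rfl⟩
    have h1 : IsU O (s * gh O) :=
      (sc_unit L Lh hs hO).2 (by rw [es]; exact B.u0 _ (red_mem L hO) hd)
    have h2 := zu.ne
    have h3 := su.ne
    have h4 := (Lh O hO.1 hO.2).1.ne
    have h5 := (Le O hO.1 hO.2).1.ne
    have e : z * a / s / (z * ge O) = a * (gh O / ge O) / (s * gh O) := by field_simp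
    show z * a / s / (z * ge O) ∈ O
    rw [e]
    exact h1.div_mem (ha O hO.1)
  · show IsU W (z * ge O / (z * ge O'))
    rw [mul_div_mul_left _ _ zu.ne]
    exact dt_unit De hO.1 hO'.1 h1 h2
  · rintro _ ⟨b, hb, rfl⟩
    obtain ⟨a, ha, ea⟩ := A.surj _ _ Dd Ld B.ed b (B.mZ b hb)
    have h1 := sc_mem L Ld ha
    exact ⟨_, ⟨a, ha, rfl⟩, by
      rw [evO_div ρ (ξ.mul_mem zu.mem h1) su, evO_mul ρ zu.mem h1, ez, ea, es, one_mul]⟩
  · obtain ⟨O, hO, hd⟩ := B.ex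
    obtain ⟨O', hO', rfl⟩ := exists_red L hO
    exact ⟨O', hO', hd⟩

end Pool.Agent.MP_e8e0b6_ag.R2.C
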