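import Pool.Agent.MP_e8e0b6_ag.R2.C.Bas

/-!
The affine planes of a blow-up.
-/

set_option autoImplicit false

namespace Pool.Agent.MP_e8e0b6_ag.R2.C

open Pool.Agent.MP_79c67d_ag Pool.Agent.MP_20d318_ag Pool.Agent.MP_20d318_ag.AG
  Pool.Agent.MP_20d318_ag.BV Pool.Agent.MP_20d318_ag.CB

namespace Stc

variable {k M : Type} [Field k] [Field M] [Algebra k M] {O O₀ : Subalgebra k M} {c : M × M}
  {a b g s : M}

theorem ne (h : GenP k c.1 c.2) (l : k) : (bu l c).1 ≠ 0 := by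
  have := h.aeval_ne (p := MvPolynomial.X 0 + MvPolynomial.C l * MvPolynomial.X 1) fun h0 => by
    simpa using congrArg (MvPolynomial.eval ![1, 0]) h0
  simpa [bu] using this

theorem snd_eq {l : k} (h : (bu l c).1 ≠ 0) : c.2 = (bu l c).2 * (bu l c).1 :=
  (div_mul_cancel₀ _ h).symm

theorem fst_eq (l : k) : c.1 = (bu l c).1 - algebraMap k M l * c.2 := (add_sub_cancel_right _ _).symm

theorem genP [CharZero k] [IsAlgClosed k] (h : GenP k c.1 c.2) (l : k) :
    GenP k (bu l c).1 (bu l c).2 := by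
  have h1 : (bu l c).1 ∈ IntermediateField.adjoin k {(bu l c).1, (bu l c).2} :=
    IntermediateField.subset_adjoin _ _ (Or.inl rfl)
  have h2 : c.2 ∈ IntermediateField.adjoin k {(bu l c).1, (bu l c).2} := by
    have := mul_mem (IntermediateField.subset_adjoin k {(bu l c).1, (bu l c).2} (Or.inr rfl)) h1
    rwa [← snd_eq (ne h l)] at this
  refine genP_of h ?_ h2
  have := sub_mem h1 (mul_mem (IntermediateField.algebraMap_mem _ l) h2)
  rwa [← fst_eq] at this

/-- Division of an element of the maximal ideal. -/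
theorem div (h : Cht O₀ a b) (ha : a ∈ mx O₀) (hb : b ∈ mx O₀) (hs : s ∈ mx O₀) (hle : O₀ ≤ O)
    (h1 : a / g ∈ O) (h2 : b / g ∈ O) : s / g ∈ O := by
  obtain ⟨p, hp, q, hq, rfl⟩ := Pb.gen h ha hb hs
  rw [add_div, mul_div_assoc, mul_div_assoc]
  exact O.add_mem (O.mul_mem (hle hp) h1) (O.mul_mem (hle hq) h2)

theorem span (h : Cht O₀ a b) (ha : a ∈ mx O₀) (hb : b ∈ mx O₀) (hs : s ∈ mx O₀) (hle : O₀ ≤ O) :
    s ∈ Submodule.span O ({a, b} : Set M) := by
  obtain ⟨p, hp, q, hq, rfl⟩ := Pb.gen h ha hb hs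
  exact add_mem (span_mul (hle hp) (Submodule.subset_span (Or.inl rfl)))
    (span_mul (hle hq) (Submodule.subset_span (Or.inr rfl)))

end Stc

theorem stc : StcStmt := by
  intro k M I _ _ _ _ _ _ S O₀ a b H' e c hB hg hsub h0 h1 h2
  have hc : Cht O₀ c.1 c.2 := ⟨hg, h0⟩
  refine ⟨fun l => ⟨Stc.genP hg l, fun O hO => ?_⟩, fun Y hY hf hle => ?_⟩
  · have hn := Stc.ne hg l
    have m1 : (bu l c).1 ∈ O := hO.2.1 fst_ap
    have m2 : (bu l c).2 ∈ O := hO.2.1 snd_ap
    have n0 : (bu l c).1 ∈ mx O₀ := mx_add h0.1 h1 (mx_mul_left (O₀.algebraMap_mem l) h2)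
    rcases isU_or_mx m1 with hu | hm
    · have w2 : c.2 ∈ O := by rw [Stc.snd_eq hn]; exact O.mul_mem m2 m1
      have w1 : c.1 ∈ O := by
        rw [Stc.fst_eq l]; exact O.sub_mem m1 (O.mul_mem (O.algebraMap_mem l) w2)
      have a1 : (bu l c).1 ∈ ap k c :=
        (ap k c).add_mem fst_ap ((ap k c).mul_mem ((ap k c).algebraMap_mem l) snd_ap)
      refine (hB.off O (hsub (pts2 hO (ap_le w1 w2) (ap_le (le_fr a1) (mem_fr snd_ap a1 hu))))
        ?_).1
      rintro rfl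
      exact n0.2 hu
    · have w2 : c.2 ∈ mx O := by rw [Stc.snd_eq hn]; exact mx_mul_left m2 hm
      have w1 : c.1 ∈ mx O := by
        rw [Stc.fst_eq l]; exact mx_sub' hO.1 hm (mx_mul_left (O.algebraMap_mem l) w2)
      have hd := dom0 h0 h1 h2 hO.1 w1 w2
      rw [hB.eq]
      refine Or.inr (Set.mem_iUnion₂.2 ⟨(bu l c).1, ⟨n0, hn⟩, ?_⟩)
      refine Pts_of_le hO (ap_le (Algebra.subset_adjoin (Or.inl n0.1))
        (Algebra.subset_adjoin (Or.inr ⟨c.2, h2, rfl⟩))) (Algebra.adjoin_le ?_)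
      rintro _ (hx | ⟨s, hs, rfl⟩)
      · exact hd.1 hx
      · refine Stc.div hc h1 h2 hs hd.1 ?_ m2
        have : c.1 / (bu l c).1 = 1 - algebraMap k M l * (bu l c).2 := by
          rw [div_eq_iff hn, sub_mul, one_mul, mul_assoc, ← Stc.snd_eq hn]
          exact Stc.fst_eq l
        rw [this]
        exact O.sub_mem O.one_mem (O.mul_mem (O.algebraMap_mem l) m2)
  · have hl : ∀ O ∈ Y, IsLocalRing O := fun O hO => hB.nice.loc O (hY hO)
    have hp : ∀ O ∈ Y, Gn {c.1, c.2} O (gn {c.1, c.2} O) := fun O hO => by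
      refine gn_spec ?_
      rcases hB.cases O (hY hO) with ⟨u, v⟩ | hd
      · refine (gn_one ?_ ?_).prin
        · rintro _ (rfl | rfl)
          · exact hle O hO fst_ap
          · exact hle O hO snd_ap
        · by_contra hn
          refine v (hB.a1.nice.sep O u O₀ hB.mem O (hl O hO) (Dom.refl O) (dom0 h0 h1 h2 (hl O hO)
            ⟨hle O hO fst_ap, fun w => hn ⟨_, Or.inl rfl, w⟩⟩
            ⟨hle O hO snd_ap, fun w => hn ⟨_, Or.inr rfl, w⟩⟩))
      · have hG := (hB.ov O (hY hO) hd).2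
        have k1 : ∀ s ∈ mx O₀, s / e O ∈ O := fun s hs =>
          Stc.div hB.cht hB.ma hB.mb hs hd.1 (hG.1 _ (Or.inl rfl)) (hG.1 _ (Or.inr rfl))
        refine (hG.of_span (hl O hO) ?_ ?_).prin
        · rintro _ (rfl | rfl)
          · exact k1 _ h1
          · exact k1 _ h2
        · rintro _ (rfl | rfl)
          · exact Stc.span hc h1 h2 hB.ma hd.1
          · exact Stc.span hc h1 h2 hB.mb hd.1
    obtain ⟨l, hl'⟩ := exists_pencil (a := c.1) (b := c.2) hf (gn {c.1, c.2}) hl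
      (fun O hO => (hp O hO).1 _ (Or.inl rfl)) fun O hO => (hp O hO).1 _ (Or.inr rfl)
    refine ⟨l, fun O hO => ap_le ?_ ?_⟩
    · exact O.add_mem (hle O hO fst_ap) (O.mul_mem (O.algebraMap_mem l) (hle O hO snd_ap))
    · have hu := hl' O hO (by
        obtain ⟨_, rfl | rfl, w⟩ := (hp O hO).2
        · exact Or.inl w
        · exact Or.inr w)
      have := hu.div_mem ((hp O hO).1 _ (Or.inr rfl))
      rwa [div_div_div_cancel_right₀ (hp O hO).ne] at this

end Pool.Agent.MP_e8e0b6_ag.R2.C
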