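import Pool.Agent.MP_e8e0b6_ag.R2.C.Bas

/-!
The induction step: lifted charts of a blow-up.
-/

set_option autoImplicit false

namespace Pool.Agent.MP_e8e0b6_ag.R2.C

open Pool.Agent.MP_79c67d_ag Pool.Agent.MP_20d318_ag Pool.Agent.MP_20d318_ag.AG
  Pool.Agent.MP_20d318_ag.BV Pool.Agent.MP_20d318_ag.CB

theorem stp : StpStmt := by
  intro stc stk wex cen stv k F M I _ _ _ _ _ _ _ _ R H ξ ρ S L I₀ _ S₀ O₀ a b H' e t J 𝒞 hB hX hC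
  obtain ⟨O, hO, hd⟩ := hX.ex
  obtain ⟨W, hW, h1, h2, h3⟩ := wex k F M I R H ξ ρ S L O hO (t O)
    ((mx_iff L hO (hX.mem O hO).1).1 ((hX.gn O hO hd).mem_mx fun _ ha => hd.mx ha)) (hX.mem O hO).2
  have wv : Wv R H ξ ρ O₀ t W := ⟨hW, ⟨O, hO, hd, h1, h2⟩, h3⟩
  have C : ∀ {d}, Ck R H ξ ρ S₀.T d → Ce R H ξ ρ O₀ t W d → _ := fun {d} hk he =>
    stc k M I₀ S₀ O₀ a b H' e (ev2 ξ ρ d) hB hk.gen hk.sub he.pt he.o1 he.o2
  have V : ∀ {d} (l : k), Ck R H ξ ρ S₀.T d → Ce R H ξ ρ O₀ t W d → _ := fun {d} l hk he =>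
    stv k F M I R H ξ ρ S L O₀ S₀.T (S₀.blow H' e).T t J W d l hX hk he ((C hk he).1 l).1
      ((C hk he).1 l).2
  have ne : ∀ {d} (l : k), Ck R H ξ ρ S₀.T d → Ce R H ξ ρ O₀ t W d → (bu l d).1 ≠ 0 :=
    fun l hk he e0 => by
      have := (V l hk he).2.gen.x_ne 0
      rw [e0, evO_zero] at this
      simp at this
  refine ⟨{c' | ∃ l : k, ∃ d, ∃ c ∈ 𝒞, pl R d = pl R c ∧ Ck R H ξ ρ S₀.T d ∧
    Ce R H ξ ρ O₀ t W d ∧ c' = bu l d}, ?_, ?_, fun Y hY hf => ?_⟩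
  · rintro _ ⟨l, d, -, -, -, hk, he, rfl⟩
    exact (V l hk he).2
  · rintro _ ⟨l, d, c, hc, e1, hk, he, rfl⟩ _ ⟨l', d', c', hc', e1', hk', he', rfl⟩
    refine stk k F R W d d' l l' ?_ ?_ hW he.le he'.le h3 he.w1 he.w2 he'.w1 he'.w2 (ne l hk he)
      (ne l' hk' he') <;> rw [e1, e1']
    exacts [hC.cm c hc c' hc', hC.cm c' hc' c hc]
  · have bt : ∀ O ∈ Y, S₀.bt O ∈ S₀.T ∧ S₀.bt O ≤ O := fun O hO => by
      rcases hB.cases O (hY hO) with ⟨u, v⟩ | u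
      · rw [(hB.off O u v).2.1]
        exact ⟨u, le_rfl⟩
      · rw [(hB.ov O (hY hO) u).1]
        exact ⟨hB.mem, u.1⟩
    obtain ⟨c, hc, hle⟩ := hC.cov (insert O₀ (S₀.bt '' Y))
      (Set.insert_subset hB.mem (by rintro _ ⟨O, hO, rfl⟩; exact (bt O hO).1))
      ((hf.image _).insert _)
    have hk := hC.ck c hc
    have g := hB.a1.nice
    obtain ⟨P, hP, hd'⟩ := exists_ctr (g.loc _ hB.mem) (hle _ (Set.mem_insert _ _))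
    rw [g.sep P (hk.sub hP) O₀ hB.mem O₀ (g.loc _ hB.mem) hd' (Dom.refl _)] at hP
    obtain ⟨d, e1, e2, hk', he⟩ := cen k F M I R H ξ ρ S L O₀ S₀.T t J W c hX wv hk hB.rat hP
    obtain ⟨l, hl⟩ := (C hk' he).2 Y hY hf fun O hO =>
      e2 ▸ (hle _ (Set.mem_insert_of_mem _ ⟨O, hO, rfl⟩)).trans (bt O hO).2
    exact ⟨_, ⟨l, d, c, hc, e1, hk', he, rfl⟩, (V l hk' he).1 ▸ hl⟩

end Pool.Agent.MP_e8e0b6_ag.R2.C
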