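import Pool.Agent.MP_e8e0b6_ag.R2.C.Bas

/-!
A chart of the blow-up of a section.
-/

set_option autoImplicit false

namespace Pool.Agent.MP_e8e0b6_ag.R2.C

open Pool.Agent.MP_79c67d_ag Pool.Agent.MP_20d318_ag Pool.Agent.MP_20d318_ag.AG
  Pool.Agent.MP_20d318_ag.BV Pool.Agent.MP_20d318_ag.CB

namespace Stv

variable {k F : Type} [Field k] [Field F] [Algebra k F] {O V : Subalgebra k F} {d : F × F} {u : F}
  {l : k}

/-- The second coordinate of the chart is regular where a common divisor generates. -/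
theorem snd (hd : Dom O V) (ha : (bu l d).1 ≠ 0) (hV : (bu l d).2 ∈ V) (h1 : d.1 / u ∈ O)
    (h2 : d.2 / u ∈ O) (h : IsU O (d.1 / u) ∨ IsU O (d.2 / u)) : (bu l d).2 ∈ O := by
  have hu : u ≠ 0 := h.elim (fun h => (div_ne_zero_iff.1 h.ne).2) fun h => (div_ne_zero_iff.1 h.ne).2
  have ha' : d.1 + algebraMap k F l * d.2 ≠ 0 := ha
  have hm : (bu l d).1 / u ∈ O := by
    have := O.add_mem h1 (O.mul_mem (O.algebraMap_mem l) h2)
    rwa [← mul_div_assoc, ← add_div] at this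
  have hU : IsU V ((bu l d).1 / u) := by
    rcases h with h | h
    · refine IsU.of_mul (hd.1 hm) (V.sub_mem V.one_mem (V.mul_mem (V.algebraMap_mem l) hV)) ?_
      have e : (bu l d).1 / u * (1 - algebraMap k F l * (bu l d).2) = d.1 / u := by
        simp only [bu]
        field_simp
        ring
      rw [e]
      exact h.mono hd.1
    · refine IsU.of_mul (hd.1 hm) hV ?_
      have e : (bu l d).1 / u * (bu l d).2 = d.2 / u := by
        simp only [bu]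
        field_simp
      rw [e]
      exact h.mono hd.1
  have := (hd.2 _ hm hU).div_mem h2
  rwa [div_div_div_cancel_right₀ hu] at this

end Stv

theorem stv : StvStmt := by
  intro k F M I _ _ _ _ _ _ _ _ R H ξ ρ S L O₀ T₀ T₁ t J W d l hx hk he hg hs
  have m1 : (bu l d).1 ∈ ξ := ξ.add_mem hk.m1 (ξ.mul_mem (ξ.algebraMap_mem l) hk.m2)
  have e1 : evO ξ ρ (bu l d).1 = (bu l (ev2 ξ ρ d)).1 := by
    simp only [bu, ev2]
    rw [evO_add ρ hk.m1 (ξ.mul_mem (ξ.algebraMap_mem l) hk.m2),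
      evO_mul ρ (ξ.algebraMap_mem l) hk.m2, evO_const]
  have hu : IsU ξ (bu l d).1 := xi_unit L m1 (by rw [e1]; simpa using hg.x_ne 0)
  have e2 : evO ξ ρ (bu l d).2 = (bu l (ev2 ξ ρ d)).2 :=
    (evO_div ρ hk.m2 hu).trans (by rw [e1]; rfl)
  have e : ev2 ξ ρ (bu l d) = bu l (ev2 ξ ρ d) := Prod.ext e1 e2
  refine ⟨e, m1, hu.div_mem hk.m2, e1 ▸ e2 ▸ hg, e ▸ hs, hk.frac.mono (pl_le_bu l hu.ne),
    fun O hO V hV hd hle => ?_⟩
  have hO' : pl R d ≤ O := hk.val O hO V hV hd ((pl_le_bu l hu.ne).trans hle)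
  have d1 : d.1 ∈ O := hO' fst_mem
  have d2 : d.2 ∈ O := hO' snd_mem
  refine pl_le (xx_le hO.1) (O.add_mem d1 (O.mul_mem (O.algebraMap_mem l) d2)) ?_
  by_cases hc : IsU O d.1 ∨ IsU O d.2
  · exact Stv.snd (u := 1) hd hu.ne (hle snd_mem) (by rwa [div_one]) (by rwa [div_one])
      (by rwa [div_one, div_one])
  rw [not_or] at hc
  have hl := red_loc (ρ := ρ) (xs_le L hO) (xx_loc hO.1)
  have h0 : Dom O₀ (red ξ ρ O) := dom0 he.pt he.o1 he.o2 hl ((mx_iff L hO d1).2 ⟨d1, hc.1⟩)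
    ((mx_iff L hO d2).2 ⟨d2, hc.2⟩)
  obtain ⟨y1, y2⟩ := he.dv O hO h0
  refine Stv.snd hd hu.ne (hle snd_mem) y1 y2 (by_contra fun hn => ?_)
  rw [not_or] at hn
  obtain ⟨s, h1, h2⟩ := (hx.gn O hO h0).2
  obtain ⟨p, hp, q, hq, rfl⟩ := CB.Pb.gen ⟨hk.gen, he.pt⟩ he.o1 he.o2 h1
  have z1 := (mx_iff L hO y1).2 ⟨y1, hn.1⟩
  have z2 := (mx_iff L hO y2).2 ⟨y2, hn.2⟩
  rw [evO_div ρ hk.m1 (hx.mem O hO).2] at z1
  rw [evO_div ρ hk.m2 (hx.mem O hO).2] at z2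
  refine h2.not_mx ?_
  rw [add_div, mul_div_assoc, mul_div_assoc]
  exact mx_add hl (mx_mul_left (h0.1 hp) z1) (mx_mul_left (h0.1 hq) z2)

end Pool.Agent.MP_e8e0b6_ag.R2.C
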