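import Pool.Agent.MP_e8e0b6_ag.R2.C.Bas

/-!
Charts of the whole family.
-/

set_option autoImplicit false

namespace Pool.Agent.MP_e8e0b6_ag.R2.C

open Pool.Agent.MP_79c67d_ag Pool.Agent.MP_20d318_ag Pool.Agent.MP_20d318_ag.AG
  Pool.Agent.MP_20d318_ag.BV Pool.Agent.MP_20d318_ag.CB

namespace Tp

variable {k F M I : Type} [Field k] [Field F] [Field M] [Algebra k F] [Algebra k M] [Fintype I]
  {R O P ξ : Subalgebra k F} {H : Set F} {ρ : ξ →ₐ[k] M} {S : Sd k M I} {c : F × F}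

theorem red_pts (L : Lc R H ξ ρ S) (h1 : c.1 ∈ ξ) (h2 : c.2 ∈ ξ) (hP : P ∈ Pts (pl R c))
    (hle : P ≤ ξ) : red ξ ρ P ∈ Pts (ap k (ev2 ξ ρ c)) := by
  refine ⟨red_loc hle hP.1, ap_le (ev_mem hle (hP.2.1 fst_mem)) (ev_mem hle (hP.2.1 snd_mem)),
    fun m hm => ?_⟩
  obtain ⟨f, hf, -, rfl⟩ := mem_red.1 hm
  obtain ⟨a, ha, b, hb, hu, rfl⟩ := hP.2.2 f hf
  exact ⟨_, ev_pl L h1 h2 ha, _, ev_pl L h1 h2 hb, ev_unit hle hu,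
    evO_div ρ (hle (hP.2.1 ha)) (hu.mono hle)⟩

theorem red_dom (L : Lc R H ξ ρ S) (hO : O ∈ Xs R H) (h : Dom P O) :
    Dom (red ξ ρ P) (red ξ ρ O) := by
  refine ⟨red_mono h.1, fun m hm hu => ?_⟩
  obtain ⟨f, hf, -, rfl⟩ := mem_red.1 hm
  exact ev_unit (h.1.trans (xs_le L hO)) (h.2 f hf ((unit_iff L hO (h.1 hf)).1 hu))

theorem t1 (L : Lc R H ξ ρ S) (hS : SAll S) (C : Ck R H ξ ρ S.T c)
    (hN : ∀ P ∈ Pts (pl R c), Nrm P) (hO : O ∈ Xs R H) (h : ap k (ev2 ξ ρ c) ≤ red ξ ρ O) :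
    O ∈ Pts (pl R c) := by
  have hle := reg L C.m1 C.m2 C.val hO h
  obtain ⟨P, hP, hd⟩ := exists_ctr (xx_loc hO.1) hle
  have hT : red ξ ρ P ∈ S.T := C.sub (red_pts L C.m1 C.m2 hP (hd.1.trans (xs_le L hO)))
  have e : ∀ O' ∈ Xs R H, Dom P O' → red ξ ρ P = red ξ ρ O' := fun O' h' hd' =>
    hS.a1.nice.sep _ hT _ (red_mem L h') _ (red_loc (xs_le L h') (xx_loc h'.1))
      (red_dom L h' hd') (Dom.refl _)
  have hR : Dom R P := hO.2.of_le (le_pl.trans hP.2.1) hd.1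
  have : O ≤ P := fun f hf => by_contra fun hn => by
    obtain ⟨V, hV, h1, h2⟩ := exists_val_not_mem hP.1 (hN P hP) hn
    obtain ⟨O', h', h3⟩ := xs_ctr L.fm hV (hR.trans h1)
    have h4 := dom_of hP (C.val O' h' V hV h3 (hP.2.1.trans h1.1)) h1 h3
    rw [red_inj L hO h' ((e O hO hd).symm.trans (e O' h' h4))] at hf
    exact h2 (h3.1 hf)
  rwa [le_antisymm this hd.1]

end Tp

open Tp in
theorem top : TopStmt := by
  intro hN k F M I _ _ _ _ _ _ _ _ R H ξ ρ S L hS 𝒞 C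
  have N := fun c hc => hN k F M I R H ξ ρ S L c (C.ck c hc).m1 (C.ck c hc).m2 (C.ck c hc).gen
  have T : ∀ Y ⊆ Xs R H, Y.Finite → ∃ c ∈ 𝒞, ∀ O ∈ Y, O ∈ Pts (pl R c) := fun Y hY hf => by
    obtain ⟨c, hc, h⟩ := C.cov (red ξ ρ '' Y)
      (by rintro _ ⟨O, hO, rfl⟩; exact red_mem L (hY hO)) (hf.image _)
    exact ⟨c, hc, fun O hO =>
      t1 L hS (C.ck c hc) ((N c hc).2 (C.ck c hc).frac) (hY hO) (h _ ⟨O, hO, rfl⟩)⟩
  intro Y hY hf hd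
  obtain ⟨c, hc, h⟩ := T Y (fun O hO => ⟨hY hO, hd O hO⟩) hf
  refine ⟨c, (N c hc).1, (C.ck c hc).frac, h, fun O' h' => ?_⟩
  obtain ⟨V, hV, h1⟩ := AG.exists_val h'.1
  have h2 : pl R c ≤ V := h'.2.1.trans h1.1
  obtain ⟨O, hO, h3⟩ := xx_ctr L.fm hV (le_pl.trans h2)
  obtain ⟨O₁, h4, h5⟩ := xx_spec L.fm L.loc hO
  obtain ⟨c', hc', h6⟩ := T {O₁} (Set.singleton_subset_iff.2 h4) (Set.finite_singleton _)
  have h7 := Pts_trans (h6 O₁ rfl) (xx_pts L.fm h4.1 hO h5)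
  rwa [Pts_eq h' h7 (C.cm c' hc' c hc V hV h2 O h7 h3)
    (C.cm c hc c' hc' V hV (h7.2.1.trans h3.1) O' h' h1) h1 h3]

end Pool.Agent.MP_e8e0b6_ag.R2.C
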