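import Pool.Agent.MP_e8e0b6_ag.R2.C.Bas

/-!
A horizontal valuation ring on a divisor that misses the generic point of the closed fibre.
-/

set_option autoImplicit false

namespace Pool.Agent.MP_e8e0b6_ag.R2.C

open Pool.Agent.MP_79c67d_ag Pool.Agent.MP_20d318_ag Pool.Agent.MP_20d318_ag.AG
  Pool.Agent.MP_20d318_ag.BV Pool.Agent.MP_20d318_ag.CB

namespace Wex

variable {k F : Type} [Field k] [Field F] [Algebra k F] {R R' ξ : Subalgebra k F}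

/-- The localization at a prime ideal. -/
theorem loc (q : Ideal ξ) (hq : q.IsPrime) : ∃ O ∈ Pts ξ, ∀ b : ξ, IsU O b ↔ b ∉ q := by
  have e : ∀ b : ξ, (b : F) ∈ Subtype.val '' (q : Set ξ) ↔ b ∈ q := fun b =>
    Subtype.val_injective.mem_set_image
  obtain ⟨O, hO, h⟩ := exists_loc ξ (Subtype.val '' (q : Set ξ)) ((e 0).2 q.zero_mem)
    (fun h => hq.ne_top ((Ideal.eq_top_iff_one q).2 ((e 1).1 h)))
    (fun a ha b hb h1 h2 => (e (⟨a, ha⟩ + ⟨b, hb⟩)).2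
      (q.add_mem ((e ⟨a, ha⟩).1 h1) ((e ⟨b, hb⟩).1 h2)))
    fun a ha b hb => (e (⟨a, ha⟩ * ⟨b, hb⟩)).trans
      (hq.mul_mem_iff_mem_or_mem.trans (or_congr (e ⟨a, ha⟩).symm (e ⟨b, hb⟩).symm))
  exact ⟨O, hO, fun b => (h b b.2).trans (not_congr (e b))⟩

/-- Flat local inclusions are surjective on points. -/
theorem surj (hR : IsLocalRing R) (hξ : IsLocalRing ξ) (hd : Dom R ξ)
    (hf : (Subalgebra.inclusion hd.1).toRingHom.Flat) (h : R' ∈ Pts R) :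
    ∃ O ∈ Pts ξ, Dom R' O := by
  letI := (Subalgebra.inclusion hd.1).toRingHom.toAlgebra
  haveI : Module.Flat R ξ := hf
  haveI : IsLocalHom (algebraMap R ξ) := ⟨fun a ha => (isU_iff_isUnit a).1
    (hd.2 a a.2 ((isU_iff_isUnit (algebraMap R ξ a)).2 ha))⟩
  haveI : Module.FaithfullyFlat R ξ := .of_flat_of_isLocalHom
  haveI := h.1
  let p : Ideal R := (IsLocalRing.maximalIdeal R').comap (Subalgebra.inclusion h.2.1).toRingHom
  haveI : p.IsPrime := Ideal.comap_isPrime _ _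
  obtain ⟨q, hq, hl⟩ := Ideal.exists_isPrime_liesOver_of_faithfullyFlat (B := ξ) p
  obtain ⟨O, hO, hU⟩ := loc q hq
  have key : ∀ b ∈ R, IsU O b ↔ IsU R' b := fun b hb => by
    have h1 : algebraMap R ξ ⟨b, hb⟩ ∈ q ↔ b ∈ mx R' :=
      (Ideal.mem_of_liesOver q p ⟨b, hb⟩).symm.trans (mem_mx_iff (⟨b, h.2.1 hb⟩ : R')).symm
    exact (hU (algebraMap R ξ ⟨b, hb⟩)).trans ((not_congr h1).trans
      ⟨isU_of_not_mx (h.2.1 hb), IsU.not_mx⟩)
  have hle : R ≤ O := hd.1.trans hO.2.1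
  refine ⟨O, hO, fun f hf => ?_, fun f hf hu => ?_⟩ <;>
    obtain ⟨a, ha, b, hb, hb', rfl⟩ := h.2.2 f hf
  · exact ((key b hb).2 hb').div_mem (hle ha)
  · have := hu.mul ((key b hb).2 hb')
    rw [div_mul_cancel₀ _ hb'.ne] at this
    exact ((key a ha).1 this).div hb'

end Wex

theorem wex : WexStmt := by
  intro k F M I _ _ _ _ _ _ _ _ R H ξ ρ S L O hO t ht hu
  haveI := L.fm.ufd O hO.1
  obtain ⟨τ, hτ, s, hs⟩ := WfDvdMonoid.exists_irreducible_factor (a := (⟨t, ht.1⟩ : O))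
    (fun h => ht.2 ((isU_iff_isUnit ⟨t, ht.1⟩).2 h)) fun h => hu.ne (congrArg Subtype.val h)
  have hs' : t = τ * s := congrArg Subtype.val hs
  obtain ⟨D, hD, hU⟩ := Wex.loc (Ideal.span {τ})
    ((Ideal.span_singleton_prime hτ.ne_zero).2 hτ.prime)
  simp only [Ideal.mem_span_singleton] at hU
  obtain ⟨W, hW, hd⟩ := AG.exists_val hD.1
  refine ⟨W, hW, hD.2.1.trans hd.1, hd.mx ⟨hD.2.1 ht.1, fun h => (hU ⟨t, ht.1⟩).1 h ⟨s, hs⟩⟩,
    fun g hg g0 => ?_⟩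
  have hRD : R ≤ D := (xx_le hO.1).trans hD.2.1
  obtain ⟨R', hR', h1⟩ := exists_ctr hD.1 hRD
  obtain ⟨ξ', f'⟩ := L.fm.fib R' hR'
  have h2 : D ≤ ξ' := f'.le D (xx_base (xx_trans hO.1 hD) hR'.2.1 h1.1) h1
  obtain ⟨O', hO', h3⟩ := Wex.surj L.loc (xx_loc L.fib.mem) L.fib.dom
    (L.fm.flat ξ L.fib.mem _) hR'
  have h4 : ξ ≤ ξ' :=
    hO'.2.1.trans (f'.le O' (xx_base (xx_trans L.fib.mem hO') hR'.2.1 h3.1) h3)
  have h5 : IsU ξ' τ := (IsU.of_mul (xs_le L hO τ.2) (xs_le L hO s.2) (hs' ▸ hu)).mono h4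
  obtain ⟨n, a, h6, h7⟩ := WfDvdMonoid.max_power_factor (a₀ := (⟨g, xx_le hO.1 hg⟩ : O))
    (fun h => g0 (congrArg Subtype.val h)) hτ
  have h8 : g = τ ^ n * a := congrArg Subtype.val h7
  have h9 : IsU ξ' g := h8 ▸ (h5.pow n).mul (((hU a).2 h6).mono h2)
  exact (f'.dom.2 g (hR'.2.1 hg) h9).mono (h1.1.trans hd.1)

end Pool.Agent.MP_e8e0b6_ag.R2.C
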