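import Pool.Agent.MP_e8e0b6_ag.R2.C.Glue
import Pool.Agent.MP_e8e0b6_ag.R2.C.Pb
import Pool.Agent.MP_e8e0b6_ag.R2.C.P2c
import Pool.Agent.MP_e8e0b6_ag.R2.C.Fnc
import Pool.Agent.MP_e8e0b6_ag.R2.C.Fnr
import Pool.Agent.MP_e8e0b6_ag.R2.C.Bz
import Pool.Agent.MP_e8e0b6_ag.R2.C.Stc
import Pool.Agent.MP_e8e0b6_ag.R2.C.Alg
import Pool.Agent.MP_e8e0b6_ag.R2.C.Cns
import Pool.Agent.MP_e8e0b6_ag.R2.C.Del
import Pool.Agent.MP_e8e0b6_ag.R2.C.Stk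
import Pool.Agent.MP_e8e0b6_ag.R2.C.Frc
import Pool.Agent.MP_e8e0b6_ag.R2.C.Nrm
import Pool.Agent.MP_e8e0b6_ag.R2.C.Wex
import Pool.Agent.MP_e8e0b6_ag.R2.C.Sec
import Pool.Agent.MP_e8e0b6_ag.R2.C.Pq
import Pool.Agent.MP_e8e0b6_ag.R2.C.Cen
import Pool.Agent.MP_e8e0b6_ag.R2.C.Stv
import Pool.Agent.MP_e8e0b6_ag.R2.C.Stp
import Pool.Agent.MP_e8e0b6_ag.R2.C.P2f
import Pool.Agent.MP_e8e0b6_ag.R2.C.Fns
import Pool.Agent.MP_e8e0b6_ag.R2.C.Fng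
import Pool.Agent.MP_e8e0b6_ag.R2.C.Top

/-!
The charts of a family of marked towers.
-/

namespace Pool.Agent.MP_e8e0b6_ag.R2.C

theorem ch_all (mk2 : Mk2Stmt) (vn : VnStmt) : ChStmt :=
  ch_of mk2 vn pbS p2c fnc fnr bz stc alg con del stk frc nrm wex sec pq cen stv stp p2f fns fng top

end Pool.Agent.MP_e8e0b6_ag.R2.C
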