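import Pool.Agent.MP_e8e0b6_ag.R2.C.GSpec

/-!
Charts with etale coordinates on a smooth variety.
-/

set_option autoImplicit false

open AlgebraicGeometry CategoryTheory IsLocalRing

namespace Pool.Agent.MP_e8e0b6_ag.R2.C

open Pool.Agent.MP_79c67d_ag Pool.Agent.MP_20d318_ag Pool.Agent.MP_20d318_ag.AG
  Pool.Agent.MP_20d318_ag.BV Pool.Agent.MP_20d318_ag.CB

namespace Chs

variable {k K A : Type} [Field k] [Field K] [Algebra k K] [CommRing A] [Algebra k A]
  {S : Scheme.{0}} [IsIntegral S] {q : Spec (.of K) ⟶ S}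

/-- The field of a chart is the function field. -/
theorem ff {g : A →ₐ[k] K} {j : Spec (.of A) ⟶ S} (h : Ct q g j) :
    ∃ φ : S.functionField →+* K, sp φ ≫ gen S = q ∧ Function.Surjective φ := by
  have := h.opn
  have := h.inj.isDomain (g : A →+* K)
  obtain ⟨φ, hφ⟩ := exists_gen_factor q (by
    rw [← h.eq, ← genericPoint_eq_of_isOpenImmersion j, genericPoint_eq_bot_of_affine]
    refine congrArg j (PrimeSpectrum.ext ?_)
    change (maximalIdeal K).comap (g : A →+* K) = ⊥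
    rw [maximalIdeal_eq_bot, Ideal.comap_bot_of_injective (g : A →+* K) h.inj])
  obtain ⟨κ, hκ, -, -⟩ := exists_chart j
  have e : φ.comp κ = (g : A →+* K) := sp_cancel j (by rw [← sp_comp_assoc, hκ, hφ, h.eq])
  refine ⟨φ, hφ, fun z => ?_⟩
  obtain ⟨_, ⟨a, rfl⟩, _, ⟨b, rfl⟩, -, rfl⟩ := h.frac z
  exact ⟨κ a / κ b, by rw [map_div₀]; exact congrArg₂ _ (DFunLike.congr_fun e a) (DFunLike.congr_fun e b)⟩

/-- Every affine open over `k` is a chart. -/
theorem ct [IsDomain A] {f : S ⟶ Spec (.of k)} (hq : q ≫ f = sp (algebraMap k K))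
    {φ : S.functionField →+* K} (hφ : sp φ ≫ gen S = q) (hs : Function.Surjective φ)
    (j : Spec (.of A) ⟶ S) [hj : IsOpenImmersion j] (hf : j ≫ f = sp (algebraMap k A)) :
    ∃ g : A →ₐ[k] K, Ct q g j := by
  obtain ⟨κ, hκ, h1, h2⟩ := exists_chart j
  have e : sp (φ.comp κ) ≫ j = q := by rw [← sp_comp_assoc, hκ, hφ]
  have e' : (φ.comp κ).comp (algebraMap k A) = algebraMap k K :=
    sp_inj (by rw [← sp_comp, ← hf, ← Category.assoc, e, hq])
  refine ⟨⟨φ.comp κ, DFunLike.congr_fun e'⟩, hj, e, φ.injective.comp h1, fun z => ?_⟩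
  obtain ⟨y, rfl⟩ := hs z
  obtain ⟨a, s, h0, h3⟩ := h2 y
  have h4 : φ (κ s) ≠ 0 := fun h => h0 (h1 (φ.injective (by rw [h, map_zero, map_zero])))
  exact ⟨_, ⟨a, rfl⟩, _, ⟨s, rfl⟩, h4, (eq_div_iff h4).2 (by
    change φ y * φ (κ s) = φ (κ a)
    rw [← map_mul, h3])⟩

end Chs

theorem chs : ChsStmt := by
  intro coo k K A _ _ _ _ _ _ _ S f q g j hf hq h x
  have := hf.integral
  have := hf.smooth
  obtain ⟨φ, hφ, hs⟩ := Chs.ff h
  obtain ⟨B, jB, hB, y, rfl⟩ := Scheme.exists_Spec_apply_eq x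
  obtain ⟨ψ, hψ⟩ := sp_surj (R := k) (T := B) (jB ≫ f)
  let _ := ψ.toAlgebra
  have hsm : Algebra.Smooth k B := by
    have h1 : Smooth (sp ψ) := by rw [hψ]; exact smooth_comp jB f
    exact (HasRingHomProperty.Spec_iff (P := @Smooth)).1 h1
  have := y.isPrime
  obtain ⟨r, hr, n, _, _, he⟩ :=
    Algebra.IsSmoothAt.exists_isStandardEtale_mvPolynomial (R := k) (p := y.asIdeal)
  let j' : Spec (.of (Localization.Away r)) ⟶ S := sp (algebraMap B (Localization.Away r)) ≫ jB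
  have hj' : IsOpenImmersion j' := IsOpenImmersion.comp _ _
  obtain ⟨y', hy'⟩ : y ∈ Set.range (PrimeSpectrum.comap (algebraMap B (Localization.Away r))) := by
    rw [PrimeSpectrum.localization_away_comap_range _ r]
    exact hr
  have : Nontrivial (Localization.Away r) := PrimeSpectrum.nontrivial y'
  have := isDomain_chart j'
  obtain ⟨g', hg'⟩ := Chs.ct hq hφ hs j' (by
    rw [Category.assoc]
    exact (congrArg _ hψ.symm).trans (sp_comp _ _))
  exact ⟨_, _, _, g', j', hg', coo k _ n he, y', congrArg jB hy'⟩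

end Pool.Agent.MP_e8e0b6_ag.R2.C
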