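import Pool.Agent.MP_e8e0b6_ag.R2.C.GSpec
import Pool.Agent.MP_e8e0b6_ag.SB.Gal

set_option autoImplicit false

namespace Pool.Agent.MP_e8e0b6_ag.R2.C

theorem coo : CooStmt := by
  intro k A _ _ _ _ _ _ n _ _ h
  have : Algebra.Smooth k (MvPolynomial (Fin n) k) := {}
  have sm : Algebra.Smooth k A := Algebra.Smooth.comp k (MvPolynomial (Fin n) k) A
  have e : (MvPolynomial.aeval fun i => algebraMap (MvPolynomial (Fin n) k) A (MvPolynomial.X i) :
      MvPolynomial (Fin n) k →ₐ[k] A) = IsScalarTower.toAlgHom k _ A :=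
    MvPolynomial.algHom_ext fun i => by simp
  refine ⟨inferInstance, sm, IsIntegrallyClosed.of_localization_maximal fun p _ _ => ?_, n,
    fun i => algebraMap _ A (MvPolynomial.X i : MvPolynomial (Fin n) k), ?_, fun a => ?_⟩
  · have := Pool.Agent.MP_e8e0b6_ag.SB.ufd_smooth (k := k) p
    infer_instance
  · rw [e]
    exact RingHom.formallySmooth_algebraMap.2 inferInstance
  · rw [Algebra.adjoin_range_eq_range_aeval, e]
    obtain ⟨P⟩ := h.nonempty_standardEtalePresentation
    obtain ⟨p, m, hp⟩ := P.exists_mul_aeval_x_g_pow_eq_aeval_x a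
    have i : ∀ z : A, IsIntegral (MvPolynomial (Fin n) k) z →
        IsIntegral (IsScalarTower.toAlgHom k (MvPolynomial (Fin n) k) A).range z := fun z hz =>
      hz.map_of_comp_eq (IsScalarTower.toAlgHom k (MvPolynomial (Fin n) k) A).rangeRestrict.toRingHom
        (RingHom.id A) rfl
    have hx : IsIntegral (MvPolynomial (Fin n) k) P.x := ⟨P.f, P.monic_f, P.hasMap.1⟩
    have j : ∀ q : Polynomial (MvPolynomial (Fin n) k),
        IsIntegral (MvPolynomial (Fin n) k) (Polynomial.aeval P.x q) := fun q =>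
      IsIntegral.of_mem_of_fg _ hx.fg_adjoin_singleton _ (Polynomial.aeval_mem_adjoin_singleton _ _)
    refine IsAlgebraic.of_mul (y := Polynomial.aeval P.x P.g ^ m)
      (mem_nonZeroDivisors_of_ne_zero (P.hasMap.2.pow m).ne_zero) (i _ ((j _).pow m)).isAlgebraic ?_
    rw [mul_comm, hp]
    exact (i _ (j p)).isAlgebraic

end Pool.Agent.MP_e8e0b6_ag.R2.C
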