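import Pool.Agent.MP_e8e0b6_ag.R2.C.GSpec

/-!
The local ring of the integral closure at the centre of a valuation.
-/

set_option autoImplicit false

namespace Pool.Agent.MP_e8e0b6_ag.R2.C

open Pool.Agent.MP_79c67d_ag Pool.Agent.MP_20d318_ag Pool.Agent.MP_20d318_ag.AG
  Pool.Agent.MP_20d318_ag.BV Pool.Agent.MP_20d318_ag.CB
open Pool.Agent.MP_19ffc6_ag.Res (Fix Dv In)

theorem dvr : DvrStmt := by
  intro k L G _ _ _ _ _ R B W hB hF hI hfix hD
  have hRB : R ≤ B := fun r hr => (hI r).2 (isIntegral_algebraMap (x := (⟨r, hr⟩ : R)))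
  have hBW : ∀ b ∈ B, W.valuation b ≤ 1 := fun b hb => by
    let : Algebra R W := ((algebraMap R L).codRestrict W.toSubring fun r => hD.le r r.2).toAlgebra
    have : IsScalarTower R W L := .of_algebraMap_eq fun _ => rfl
    obtain ⟨y, hy⟩ := IsIntegrallyClosed.isIntegral_iff.1 (((hI b).1 hb).tower_top (A := W))
    exact (W.valuation_le_one_iff b).2 (hy ▸ y.2)
  obtain ⟨D, hP, hU⟩ := exists_loc B {b | W.valuation b < 1} (by simp) (by simp)
    (fun a _ b _ => W.valuation.map_add_lt) fun a ha b hb => by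
      simp only [Set.mem_ofPred_eq, map_mul]
      refine ⟨fun h => by_contra fun hn => ?_, fun h => h.elim
        (fun h => mul_lt_one_of_nonneg_of_lt_one_left zero_le h (hBW b hb))
        fun h => mul_lt_one_of_nonneg_of_lt_one_right (hBW a ha) zero_le h⟩
      rw [not_or, not_lt, not_lt] at hn
      exact absurd h (not_lt.2 (one_le_mul hn.1 hn.2))
  have hU' : ∀ b ∈ B, IsU D b ↔ W.valuation b = 1 := fun b hb =>
    (hU b hb).trans ⟨fun h => le_antisymm (hBW b hb) (not_lt.1 h), fun h => not_lt.2 h.ge⟩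
  refine ⟨D, hP, hU', ?_⟩
  have := hP.1
  have := AG.Krull.noeth_pts hB hP
  let : Algebra R B := (Subalgebra.inclusion hRB).toRingHom.toAlgebra
  have : IsScalarTower R B L := .of_algebraMap_eq fun _ => rfl
  have hint : ∀ b : B, IsIntegral R b := fun b =>
    (isIntegral_algebraMap_iff (B := L) Subtype.val_injective).1 ((hI b).1 b.2)
  have : Algebra.IsIntegral R B := ⟨hint⟩
  have hN : Nrm D := nrmLoc_stmt k L B D (fun f hf => (hI f).2 (isIntegral_trans f hf)) hP.2.1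
    hP.2.2
  have := AG.Krull.isFractionRing (hF.mono hP.2.1)
  obtain ⟨π, hπ, h0, h1, h2⟩ := hD.unif
  have hRD : R ≤ D := hRB.trans hP.2.1
  have dv : ∀ P : Ideal D, P.IsPrime → ∀ (a b) (ha : a ∈ R) (hb : b ∈ R), b ≠ 0 →
      W.valuation a ≤ W.valuation b → (⟨b, hRD hb⟩ : D) ∈ P → (⟨a, hRD ha⟩ : D) ∈ P := by
    intro P hp a b ha hb hb0 hv hm
    obtain ⟨u, hu, h3, h4⟩ := hD.loc (a / b) ((MP_19ffc6_ag.Res.val_le_iff W a hb0).1 hv)
      fun g => by rw [smul_div₀', hfix a ha, hfix b hb]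
    have h5 := ((hU' u (hRB hu)).2 h3)
    have e : (⟨a, hRD ha⟩ : D) = ⟨_, h5.div_mem (hRD h4)⟩ * ⟨b, hRD hb⟩ := Subtype.ext (by
      have := h5.ne
      change a = u * (a / b) / u * b
      field_simp)
    exact e ▸ P.mul_mem_left _ hm
  have hc : IsIntegrallyClosed D ∧
      ∀ P : Ideal D, P ≠ ⊥ → P.IsPrime → P = IsLocalRing.maximalIdeal D :=
    ⟨(isIntegrallyClosed_iff L).2 fun {x} hx => ⟨⟨x, hN x hx⟩, rfl⟩, fun P hne hp => by
      let ι := (Subalgebra.inclusion hP.2.1).toRingHom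
      have num : ∀ x : D, ∃ (a : B) (u : D), IsUnit u ∧ ι a = x * u := fun x => by
        obtain ⟨a, ha, b, hb, hu, e⟩ := hP.2.2 x x.2
        exact ⟨⟨a, ha⟩, ⟨b, hu.mem⟩, (isU_iff_isUnit _).1 hu,
          Subtype.ext (by change a = x * b; rw [e, div_mul_cancel₀ _ hu.ne])⟩
      obtain ⟨x, hx, hx0⟩ := Submodule.exists_mem_ne_zero_of_ne_bot hne
      obtain ⟨a, u, hu, e⟩ := num x
      have h3 := Ideal.comap_ne_bot_of_integral_mem (R := R) (I := P.comap ι) (x := a)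
        (fun h => mul_ne_zero hx0 hu.ne_zero (by rw [← e, h, map_zero]))
        (by rw [Ideal.mem_comap, e]; exact P.mul_mem_right _ hx) (hint a)
      obtain ⟨r, hr, hr0⟩ := Submodule.exists_mem_ne_zero_of_ne_bot h3
      have hr1 : (r : L) ≠ 0 := fun h => hr0 (Subtype.ext h)
      obtain ⟨n, hn⟩ := h2 r r.2 hr1
      have h4 : (⟨π, hRD hπ⟩ : D) ∈ P := hp.mem_of_pow_mem n
        (dv P hp (π ^ n) r (pow_mem hπ n) r.2 hr1 (by rw [map_pow, hn]) hr)
      have hle := IsLocalRing.le_maximalIdeal hp.ne_top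
      refine le_antisymm hle fun y hy => by_contra fun hn => ?_
      obtain ⟨b, v, hv, e'⟩ := num y
      refine (Ideal.comap_lt_comap_of_integral_mem_sdiff (R := R) (Ideal.comap_mono (f := ι) hle)
        (x := b) ⟨?_, fun h => ?_⟩ (hint b)).not_ge fun s hs => ?_
      · exact Ideal.mem_comap.2 (e' ▸ Ideal.mul_mem_right _ _ hy)
      · exact hn ((Ideal.mul_unit_mem_iff_mem P hv).1 (e' ▸ Ideal.mem_comap.1 h))
      · by_cases s0 : (s : L) = 0
        · rw [show s = 0 from Subtype.ext s0]; exact zero_mem _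
        obtain ⟨m, hm⟩ := h2 s s.2 s0
        refine dv P hp s π s.2 hπ h0 ?_ h4
        have h5 : m ≠ 0 := by
          rintro rfl
          exact ((mem_mx_iff (⟨s, hRD s.2⟩ : D)).2 hs).2
            ((hU' s (hRB s.2)).2 (hm.trans (pow_zero _)))
        exact hm ▸ pow_le_of_le_one zero_le h1.le h5⟩
  have hpr : (IsLocalRing.maximalIdeal D).IsPrincipal :=
    ((tfae_of_isNoetherianRing_of_isLocalRing_of_isDomain D).out 3 4).1 hc
  obtain ⟨ϖ, hϖ⟩ := hpr
  have key : ∀ a ∈ mx D, ∃ c : D, (c : L) * ϖ = a := fun a ha => by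
    have := (mem_mx_iff (⟨a, ha.1⟩ : D)).1 ha
    rw [hϖ] at this
    obtain ⟨c, hc⟩ := Ideal.mem_span_singleton'.1 this
    exact ⟨c, congrArg Subtype.val hc⟩
  have h3 : (ϖ : L) ≠ 0 := fun h => by
    obtain ⟨c, hc⟩ := key π ⟨hRD hπ, fun hu => h1.ne ((hU' π (hRB hπ)).1 hu)⟩
    exact h0 (by rw [← hc, h, mul_zero])
  refine ⟨ϖ, (mem_mx_iff ϖ).2 (hϖ ▸ Submodule.mem_span_singleton_self ϖ), h3, fun a ha => ?_⟩
  obtain ⟨c, rfl⟩ := key a ha
  rw [mul_div_cancel_right₀ _ h3]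
  exact c.2

end Pool.Agent.MP_e8e0b6_ag.R2.C
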