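import Pool.Agent.MP_e8e0b6_ag.R2.C.GSpec
import Mathlib.RingTheory.Etale.Locus
import Mathlib.RingTheory.Etale.StandardEtale
import Mathlib.RingTheory.Valuation.LocalSubring
import Mathlib.FieldTheory.Minpoly.IsIntegrallyClosed

/-!
Row ETA: local primitive elements with unit different give an etale integral closure.
-/

set_option autoImplicit false

namespace Pool.Agent.MP_e8e0b6_ag.R2.C

namespace Eta

open Polynomial

/-- A localization of `B` that is generated by one element up to the denominator. -/
lemma away {A B : Type} [CommRing A] [IsDomain A] [IsIntegrallyClosed A] [CommRing B] [IsDomain B]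
    [Algebra A B] (hi : Function.Injective (algebraMap A B)) (a : B) (f p : A[X]) (hm : f.Monic)
    (h0 : aeval a f = 0) (ht : aeval a (derivative f * p) ≠ 0)
    (hs : ∀ s : B, ∃ r : A[X], aeval a p * s = aeval a r) :
    Algebra.FormallyEtale A (Localization.Away (aeval a (derivative f * p))) := by
  have : FaithfulSMul A B := (faithfulSMul_iff_algebraMap_injective A B).2 hi
  have hint : IsIntegral A a := ⟨f, hm, h0⟩
  obtain ⟨q, hq⟩ := minpoly.isIntegrallyClosed_dvd hint h0
  let P : StandardEtalePair A := ⟨minpoly A a, minpoly.monic hint, derivative f * p,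
    q * p, derivative q * p, 1, by
      have h := congrArg derivative hq
      rw [derivative_mul] at h
      rw [h]; ring⟩
  let T := Localization.Away (aeval a (derivative f * p))
  have hinj : Function.Injective (algebraMap B T) :=
    IsLocalization.injective T (powers_le_nonZeroDivisors_of_noZeroDivisors ht)
  have hu : IsUnit (algebraMap B T (aeval a (derivative f * p))) :=
    IsLocalization.Away.algebraMap_isUnit _
  have hm' : P.HasMap (algebraMap B T a) := by
    refine ⟨?_, ?_⟩
    · rw [aeval_algebraMap_apply, show aeval a P.f = 0 from minpoly.aeval A a, map_zero]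
    · rw [aeval_algebraMap_apply]; exact hu
  let φ := P.lift _ hm'
  have hev : ∀ g : A[X], φ (aeval P.X g) = algebraMap B T (aeval a g) := fun g => by
    rw [← aeval_algHom_apply, StandardEtalePair.lift_X, aeval_algebraMap_apply]
  let P' : StandardEtalePresentation A P.Ring :=
    ⟨P, P.X, P.hasMap_X, by rw [P.lift_X_left]; exact Function.bijective_id⟩
  have hφ : Function.Injective φ := by
    rw [injective_iff_map_eq_zero]
    intro y hy
    obtain ⟨g, n, e⟩ := P'.exists_mul_aeval_x_g_pow_eq_aeval_x y
    have e' : y * aeval P.X P.g ^ n = aeval P.X g := e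
    have h4 : aeval a g = 0 := hinj (by rw [← hev, ← e', map_mul, hy, zero_mul, map_zero])
    obtain ⟨q', hq'⟩ := minpoly.isIntegrallyClosed_dvd hint h4
    rw [hq', map_mul (aeval P.X) (minpoly A a), show aeval P.X (minpoly A a) = 0 from P.hasMap_X.1,
      zero_mul] at e'
    exact (P.hasMap_X.2.pow n).mul_left_eq_zero.1 e'
  have hsur : Function.Surjective φ := by
    intro y
    obtain ⟨⟨s, ⟨_, n, rfl⟩⟩, e⟩ :=
      IsLocalization.surj (Submonoid.powers (aeval a (derivative f * p))) y
    obtain ⟨r, hr⟩ := hs s
    obtain ⟨u, hu'⟩ := (P.hasMap_X.2.pow (n + 1)).exists_right_inv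
    refine ⟨aeval P.X (r * derivative f) * u, (hu.pow (n + 1)).mul_right_cancel ?_⟩
    have h1 : φ u * algebraMap B T (aeval a (derivative f * p)) ^ (n + 1) = 1 := by
      have h2 := congrArg φ hu'
      rw [map_mul, map_pow, hev, map_one] at h2
      rw [mul_comm]; exact h2
    have e' : y * algebraMap B T (aeval a (derivative f * p)) ^ n = algebraMap B T s := by
      rw [← map_pow]; exact e
    have h5 : aeval a (r * derivative f) = s * aeval a (derivative f * p) := by
      rw [map_mul, map_mul, ← hr]; ring
    rw [map_mul φ, hev, mul_assoc, h1, mul_one, pow_succ, ← mul_assoc, e', h5, map_mul]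
  exact Algebra.FormallyEtale.of_equiv (AlgEquiv.ofBijective φ ⟨hφ, hsur⟩)

end Eta

open Polynomial in
theorem eta : EtaStmt := by
  intro A L _ _ _ _ _ _ hi hf h
  let B := integralClosure A L
  have hfp : Algebra.FinitePresentation A B :=
    Algebra.FinitePresentation.of_finiteType.1 inferInstance
  refine Algebra.etaleLocus_eq_univ_iff_etale.1 (Set.eq_univ_of_forall fun Q => ?_)
  obtain ⟨O, hO, hQ⟩ := Ideal.image_subset_nonunits_valuationSubring (A := B.toSubring)
    Q.asIdeal Q.isPrime.ne_top
  obtain ⟨a, f, p, hm, h0, h1, h2, h3⟩ := h O fun r => hO (B.algebraMap_mem r)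
  let a' : B := ⟨a, f, hm, h0⟩
  have hev : ∀ g : A[X], (aeval a' g : B).1 = aeval a g := fun g =>
    (aeval_algHom_apply B.val a' g).symm
  have hv : O.valuation (aeval a' (derivative f * p) : B).1 = 1 := by
    rw [hev, map_mul, map_mul, h1, h2, mul_one]
  have hn : aeval a' (derivative f * p) ∉ Q.asIdeal := fun hx => by
    have h4 := O.mem_nonunits_iff.1 (hQ ⟨_, hx, rfl⟩)
    exact h4.ne hv
  have hE := Eta.away (A := A) (B := B) (fun x y e => hi (congrArg Subtype.val e)) a' f p hm
    (Subtype.ext ((hev f).trans h0)) (fun e => hn (e ▸ Q.asIdeal.zero_mem)) fun s => by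
      obtain ⟨r, hr⟩ := h3 s.1 s.2
      exact ⟨r, Subtype.ext (by rw [hev, ← hr, ← hev]; rfl)⟩
  exact Algebra.basicOpen_subset_etaleLocus_iff.2 hE hn

end Pool.Agent.MP_e8e0b6_ag.R2.C
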