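import Pool.Agent.MP_e8e0b6_ag.R2.C.GSpec

/-!
Automorphisms of the constants extend to the function field.
-/

set_option autoImplicit false

namespace Pool.Agent.MP_e8e0b6_ag.R2.C

open Pool.Agent.MP_79c67d_ag Pool.Agent.MP_20d318_ag Pool.Agent.MP_20d318_ag.AG
  Pool.Agent.MP_20d318_ag.BV Pool.Agent.MP_20d318_ag.CB
open scoped TensorProduct

namespace Ext

theorem core {K F Ω E : Type} [Field K] [Field F] [Field Ω] [Field E] [Algebra K F] [Algebra K Ω]
    [Algebra K E] [Algebra Ω E] [IsScalarTower K Ω E] (ν : F →ₐ[K] E)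
    (ld : ∀ (ι : Type) (v : ι → F), LinearIndependent K v → LinearIndependent Ω fun i => ν (v i))
    (hf : ∀ B : Subalgebra Ω E, (∀ z, ν z ∈ B) → ∀ f : E, ∃ a ∈ B, ∃ b ∈ B, f = a / b)
    (g : Ω ≃ₐ[K] Ω) : ∃ τ : E ≃+* E,
      (∀ a, τ (algebraMap Ω E a) = algebraMap Ω E (g a)) ∧ ∀ z, τ (ν z) = ν z := by
  let Ψ : Ω ⊗[K] F →ₐ[Ω] E :=
    Algebra.TensorProduct.lift (Algebra.ofId Ω E) ν fun _ _ => Commute.all _ _
  have hΨ : ∀ a z, Ψ (a ⊗ₜ z) = algebraMap Ω E a * ν z := fun a z => rfl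
  let b := Module.Basis.ofVectorSpace K F
  have hinj : Function.Injective Ψ := by
    refine LinearMap.injective_of_linearIndependent (f := Ψ.toLinearMap)
      (b.baseChange Ω).span_eq ?_
    have e : Ψ.toLinearMap ∘ b.baseChange Ω = fun i => ν (b i) := by
      funext i
      change Ψ (b.baseChange Ω i) = _
      rw [Module.Basis.baseChange_apply, hΨ, map_one, one_mul]
    rw [e]
    exact ld _ _ b.linearIndependent
  let _ : Algebra (Ω ⊗[K] F) E := Ψ.toRingHom.toAlgebra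
  have : FaithfulSMul (Ω ⊗[K] F) E := (faithfulSMul_iff_algebraMap_injective _ _).2 hinj
  have : IsFractionRing (Ω ⊗[K] F) E := IsFractionRing.of_field _ _ fun f => by
    obtain ⟨_, ⟨a, rfl⟩, _, ⟨c, rfl⟩, e⟩ := hf Ψ.range (fun z => ⟨1 ⊗ₜ z, by
      change Ψ _ = _
      rw [hΨ, map_one, one_mul]⟩) f
    exact ⟨a, c, e⟩
  let θ := (Algebra.TensorProduct.congr g (AlgEquiv.refl : F ≃ₐ[K] F)).toRingEquiv
  have key : ∀ a z, IsFractionRing.ringEquivOfRingEquiv (K := E) (L := E) θ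
      (algebraMap Ω E a * ν z) = algebraMap Ω E (g a) * ν z := fun a z =>
    IsFractionRing.ringEquivOfRingEquiv_algebraMap (K := E) (L := E) θ (a ⊗ₜ z)
  refine ⟨IsFractionRing.ringEquivOfRingEquiv (K := E) (L := E) θ, fun a => ?_, fun z => ?_⟩
  · simpa only [map_one, mul_one] using key a 1
  · simpa only [map_one, one_mul] using key 1 z

end Ext

theorem ext : ExtStmt := by
  intro k F Ω E J _ _ _ _ _ _ _ _ C H μ S' gc ht g hg
  let K : Subfield F := ((RingHom.eqLocusField (g : Ω →+* Ω) (RingHom.id Ω)).map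
    (algebraMap Ω E)).comap (μ : F →+* E)
  have hK : ∀ z : K, ∃ a : Ω, g a = a ∧ algebraMap Ω E a = μ z := fun z => z.2
  have hC : ∀ c ∈ C, c ∈ K := fun c hc => by
    obtain ⟨a, ha⟩ := gc.base c hc
    exact ⟨a, hg a ⟨c, hc, ha.symm⟩, ha⟩
  choose φ h1 h2 using hK
  have inj := (algebraMap Ω E).injective
  let φ' : K →+* Ω :=
    { toFun := φ
      map_one' := inj (by simp [h2])
      map_mul' := fun a b => inj (by simp [h2])
      map_zero' := inj (by simp [h2])
      map_add' := fun a b => inj (by simp [h2]) }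
  let _ : Algebra K Ω := φ'.toAlgebra
  let _ : Algebra K E := ((μ : F →+* E).comp K.subtype).toAlgebra
  have : IsScalarTower K Ω E := IsScalarTower.of_algebraMap_eq fun z => (h2 z).symm
  refine Ext.core (K := K) { (μ : F →+* E) with commutes' := fun _ => rfl } (fun ι v hv => ?_)
    (fun B hB f => ?_) { g with commutes' := h1 }
  · refine gc.ld ι v (linearIndependent_iff'.2 fun s c hc i hi => ?_)
    have := linearIndependent_iff'.1 hv s (fun i => ⟨c i, hC _ (c i).2⟩) hc i hi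
    exact Subtype.ext (congrArg (fun z : K => (z : F)) this)
  · rw [gc.eq] at ht
    obtain ⟨j, hj, -, -, h6⟩ := ht
    have h7 : cht Ω (fun _ : Unit => μ '' H) j ≤ B := Algebra.adjoin_le (by
      intro z hz
      obtain ⟨l, _, ⟨a, ha, rfl⟩, rfl⟩ := Set.mem_iUnion.1 hz
      obtain ⟨c, hc, e⟩ := hj l
      have := hB (a / c)
      change μ (a / c) ∈ B at this
      rwa [map_div₀, e] at this)
    obtain ⟨a, ha, c, hc, -, rfl⟩ := h6 f trivial
    exact ⟨a, h7 ha, c, h7 hc, rfl⟩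

end Pool.Agent.MP_e8e0b6_ag.R2.C
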