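import Pool.Agent.MP_e8e0b6_ag.R2.C.Bas

/-!
Row FNG: lifting the charts of a Hirzebruch surface.
-/

set_option autoImplicit false

namespace Pool.Agent.MP_e8e0b6_ag.R2.C

open Pool.Agent.MP_79c67d_ag Pool.Agent.MP_20d318_ag Pool.Agent.MP_20d318_ag.AG
  Pool.Agent.MP_20d318_ag.BV Pool.Agent.MP_20d318_ag.CB

namespace Fng

variable {k F : Type} [Field k] [Field F] [Algebra k F] {O V W R : Subalgebra k F} {S N : Set F}
  {g u X₀ X₁ z Y : F} {α κ : k}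

/-- `g` generates the span of `S`. -/
def Tv (O : Subalgebra k F) (S : Set F) (g : F) : Prop :=
  g ≠ 0 ∧ g ∈ Submodule.span O S ∧ ∀ a ∈ S, a / g ∈ O

theorem of_prin (h : Prin S O) : ∃ g, Tv O S g := by
  obtain ⟨g, hg, h⟩ := h.exists_mem
  exact ⟨g, h.ne, Submodule.subset_span hg, h.1⟩

/-- A generator over a dominating ring is a generator. -/
theorem up (hd : Dom O V) (hg : ∃ g, Tv O S g) (hu : u ∈ Submodule.span O S) (hV : Tv V S u) :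
    ∀ a ∈ S, a / u ∈ O := by
  obtain ⟨g, g0, g1, g2⟩ := hg
  have h1 : u / g ∈ O := span_div le_rfl g2 hu
  have h2 : IsU O (u / g) := hd.2 _ h1 ⟨div_ne_zero hV.1 g0, hd.1 h1, by
    rw [inv_div]; exact span_div hd.1 hV.2.2 g1⟩
  intro a ha
  rw [← div_div_div_cancel_right₀ g0 a u]
  exact h2.div_mem (g2 a ha)

/-- The lifted chart. -/
def cc (X₀ X₁ z : F) (α κ : k) (Y : F) : F × F :=
  (X₀ / (X₁ - algebraMap k F α * X₀), z / (Y + algebraMap k F κ * z))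

/-- The data of a lifted chart. -/
structure Cd (R : Subalgebra k F) (X₀ X₁ z : F) (N : Set F) (α κ : k) (Y : F) : Prop where
  x0 : X₁ - algebraMap k F α * X₀ ≠ 0
  b0 : Y + algebraMap k F κ * z ≠ 0
  zN : z ∈ N
  y1 : Y ∈ Submodule.span ↥(R ⊔ Algebra.adjoin k {X₀ / (X₁ - algebraMap k F α * X₀)}) N
  y2 : ∀ a ∈ N, a ∈ Submodule.span ↥(R ⊔ Algebra.adjoin k {X₀ / (X₁ - algebraMap k F α * X₀)})
    ({z, Y} : Set F)

theorem sp1 : X₁ - algebraMap k F α * X₀ ∈ Submodule.span W ({X₀, X₁} : Set F) :=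
  sub_mem (Submodule.subset_span (Or.inr rfl))
    (span_mul (W.algebraMap_mem α) (Submodule.subset_span (Or.inl rfl)))

theorem base_le (hR : R ≤ W) (ht : u ∈ W) : R ⊔ Algebra.adjoin k {u} ≤ W :=
  sup_le hR (Algebra.adjoin_le (by rintro _ rfl; exact ht))

theorem Cd.sp2 (h : Cd R X₀ X₁ z N α κ Y) (hR : R ≤ W) (ht : (cc X₀ X₁ z α κ Y).1 ∈ W) :
    Y + algebraMap k F κ * z ∈ Submodule.span W N :=
  add_mem (span_up (base_le hR ht) h.y1)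
    (span_mul (W.algebraMap_mem κ) (Submodule.subset_span h.zN))

theorem Cd.tv1 (h : Cd R X₀ X₁ z N α κ Y) (hW : pl R (cc X₀ X₁ z α κ Y) ≤ W) :
    Tv W {X₀, X₁} (X₁ - algebraMap k F α * X₀) := by
  have ht : X₀ / (X₁ - algebraMap k F α * X₀) ∈ W := hW fst_mem
  refine ⟨h.x0, sp1, ?_⟩
  rintro _ (rfl | rfl)
  · exact ht
  · convert W.add_mem W.one_mem (W.mul_mem (W.algebraMap_mem α) ht) using 1
    have := h.x0
    field_simp
    ring

theorem Cd.tv2 (h : Cd R X₀ X₁ z N α κ Y) (hW : pl R (cc X₀ X₁ z α κ Y) ≤ W) :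
    Tv W N (Y + algebraMap k F κ * z) := by
  have hz : z / (Y + algebraMap k F κ * z) ∈ W := hW snd_mem
  refine ⟨h.b0, h.sp2 (le_pl.trans hW) (hW fst_mem), fun a ha =>
    span_div (base_le (le_pl.trans hW) (hW fst_mem)) ?_ (h.y2 a ha)⟩
  rintro _ (rfl | rfl)
  · exact hz
  · convert W.sub_mem W.one_mem (W.mul_mem (W.algebraMap_mem κ) hz) using 1
    have := h.b0
    field_simp
    ring

/-- The chart is regular at a point where both modules are principal, if it is along a ring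
that dominates the point. -/
theorem Cd.le (h : Cd R X₀ X₁ z N α κ Y) (hd : Dom O V) (hR : R ≤ O)
    (h1 : ∃ g, Tv O {X₀, X₁} g) (h2 : ∃ g, Tv O N g) (hV : pl R (cc X₀ X₁ z α κ Y) ≤ V) :
    pl R (cc X₀ X₁ z α κ Y) ≤ O :=
  have ht : (cc X₀ X₁ z α κ Y).1 ∈ O := up hd h1 sp1 (h.tv1 hV) X₀ (Or.inl rfl)
  pl_le hR ht (up hd h2 (h.sp2 hR ht) (h.tv2 hV) z h.zN)

end Fng

open Fng in
theorem fng : FngStmt := by
  intro hF k F M I _ _ _ _ _ _ _ _ R H ξ ρ S L T₀ n x y X₀ X₁ z N hA hR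
  choose Y hY using hR.ys
  have m1 : ∀ α : k, X₁ - algebraMap k F α * X₀ ∈ ξ := fun α =>
    ξ.sub_mem hR.m1 (ξ.mul_mem (ξ.algebraMap_mem α) hR.m0)
  have m2 : ∀ α κ : k, Y α + algebraMap k F κ * z ∈ ξ := fun α κ =>
    ξ.add_mem (hY α).1 (ξ.mul_mem (ξ.algebraMap_mem κ) hR.mz)
  have e1 : ∀ α : k, evO ξ ρ (X₁ - algebraMap k F α * X₀) = x - algebraMap k M α := fun α => by
    rw [evO_sub ρ hR.m1 (ξ.mul_mem (ξ.algebraMap_mem α) hR.m0),
      evO_mul ρ (ξ.algebraMap_mem α) hR.m0, evO_const, hR.e0, hR.e1, mul_one]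
  have e2 : ∀ α κ : k, evO ξ ρ (Y α + algebraMap k F κ * z) =
      (x - algebraMap k M α) ^ n * y + algebraMap k M κ := fun α κ => by
    rw [evO_add ρ (hY α).1 (ξ.mul_mem (ξ.algebraMap_mem κ) hR.mz),
      evO_mul ρ (ξ.algebraMap_mem κ) hR.mz, evO_const, hR.ez, (hY α).2.1, mul_one]
  have u1 : ∀ α : k, IsU ξ (X₁ - algebraMap k F α * X₀) := fun α => xi_unit L (m1 α) (by
    have := (hA.gen (α, 0)).x_ne 0
    rw [map_zero, sub_zero] at this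
    rw [e1]; exact fun h => this (by simp [cH, h]))
  have u2 : ∀ α κ : k, IsU ξ (Y α + algebraMap k F κ * z) := fun α κ => xi_unit L (m2 α κ) (by
    have := (hA.gen (α, κ)).y_ne 0
    rw [map_zero, sub_zero] at this
    rw [e2]; exact fun h => this (by simp [cH, h]))
  have cd : ∀ l : k × k, Cd R X₀ X₁ z N l.1 l.2 (Y l.1) := fun l =>
    ⟨(u1 _).ne, (u2 _ _).ne, hR.zN, (hY _).2.2.1, (hY _).2.2.2⟩
  have ev : ∀ l : k × k, ev2 ξ ρ (cc X₀ X₁ z l.1 l.2 (Y l.1)) = cH n x y l := fun l => by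
    simp only [ev2, cc, cH]
    rw [evO_div ρ hR.m0 (u1 _), evO_div ρ hR.mz (u2 _ _), e1, e2, hR.e0, hR.ez, one_div, one_div]
  refine ⟨Set.range fun l : k × k => cc X₀ X₁ z l.1 l.2 (Y l.1), ?_, ?_, fun T hT hf => ?_⟩
  · rintro _ ⟨l, rfl⟩
    have c1 : (cc X₀ X₁ z l.1 l.2 (Y l.1)).1 ∈ ξ := (u1 _).div_mem hR.m0
    have c2 : (cc X₀ X₁ z l.1 l.2 (Y l.1)).2 ∈ ξ := (u2 _ _).div_mem hR.mz
    have hg := hA.gen l
    rw [← ev] at hg
    have hv : Vl R H (pl R (cc X₀ X₁ z l.1 l.2 (Y l.1))) := fun O hO V _ hd hV =>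
      (cd l).le hd (xx_le hO.1) (of_prin (hR.pf O hO)) (of_prin (hR.pG O hO)) hV
    exact ⟨c1, c2, hg, by rw [ev]; exact hA.sub l, hF k F M I R H ξ ρ S L _ c1 c2 hg hv, hv⟩
  · rintro _ ⟨l, rfl⟩ _ ⟨l', rfl⟩ V _ hV O hO hd
    exact (cd l').le hd (le_pl.trans hO.2.1) ⟨_, (cd l).tv1 hO.2.1⟩ ⟨_, (cd l).tv2 hO.2.1⟩ hV
  · obtain ⟨l, hl⟩ := hA.cov T hT hf
    exact ⟨_, ⟨l, rfl⟩, by rw [ev]; exact hl⟩

end Pool.Agent.MP_e8e0b6_ag.R2.C
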