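import Pool.Agent.MP_e8e0b6_ag.R2.C.GSpec

/-!
An automorphism that fixes the base point acts trivially on the closed fibre.
-/

set_option autoImplicit false

namespace Pool.Agent.MP_e8e0b6_ag.R2.C

open Pool.Agent.MP_79c67d_ag Pool.Agent.MP_20d318_ag Pool.Agent.MP_20d318_ag.AG
  Pool.Agent.MP_20d318_ag.BV Pool.Agent.MP_20d318_ag.CB

namespace Fx1

variable {k F : Type} [Field k] [Field F] [Algebra k F] {R O : Subalgebra k F} {H : Set F}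
  {θ : F ≃ₐ[k] F} {a j : F}

theorem symH (hH : ∀ a ∈ H, θ a = a) : ∀ a ∈ H, θ.symm a = a := fun a ha =>
  θ.symm_apply_eq.2 (hH a ha).symm

theorem symR (hR : ∀ a, a ∈ R ↔ θ a ∈ R) : ∀ a, a ∈ R ↔ θ.symm a ∈ R := fun a => by
  rw [hR (θ.symm a), θ.apply_symm_apply]

theorem st (hH : ∀ a ∈ H, θ a = a) (hR : ∀ a, a ∈ R ↔ θ a ∈ R) (hj : j ∈ H)
    (ha : a ∈ ch R H j) : θ a ∈ ch R H j :=
  ch_le (O := (ch R H j).comap (θ : F →ₐ[k] F))
    (fun r hr => (le_sup_left : R ≤ ch R H j) ((hR r).1 hr))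
    (fun b hb => by
      change θ (b / j) ∈ ch R H j
      rw [map_div₀, hH b hb, hH j hj]
      exact div_mem_ch hb) ha

theorem isU : IsU (O.comap (θ : F →ₐ[k] F)) a ↔ IsU O (θ a) := by
  refine and_congr (by simp) (and_congr Iff.rfl ?_)
  rw [← map_inv₀]
  exact Iff.rfl

theorem dif (hH : ∀ a ∈ H, θ a = a) (hR : ∀ a, a ∈ R ↔ θ a ∈ R) (hr : RatPt R)
    (hl : IsLocalRing R) (hj : j ∈ H) (hO : O ∈ Pts (ch R H j)) (hd : Dom R O)
    (ha : a ∈ ch R H j) : θ a - a ∈ mx O := by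
  let T : Subalgebra k F :=
    { carrier := {a | a ∈ ch R H j ∧ θ a - a ∈ mx O}
      mul_mem' := by
        rintro a b ⟨h1, h2⟩ ⟨h3, h4⟩
        refine ⟨mul_mem h1 h3, ?_⟩
        have := mx_add hO.1 (mx_mul_right h2 (hO.2.1 (st hH hR hj h3))) (mx_mul_left (hO.2.1 h1) h4)
        rwa [show (θ a - a) * θ b + a * (θ b - b) = θ (a * b) - a * b by
          rw [map_mul]; ring] at this
      add_mem' := by
        rintro a b ⟨h1, h2⟩ ⟨h3, h4⟩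
        refine ⟨add_mem h1 h3, ?_⟩
        have := mx_add hO.1 h2 h4
        rwa [show θ a - a + (θ b - b) = θ (a + b) - (a + b) by rw [map_add]; ring] at this
      algebraMap_mem' := fun c =>
        ⟨Subalgebra.algebraMap_mem _ c, by rw [θ.commutes, sub_self]; exact zero_mem_mx⟩ }
  refine (ch_le (O := T) (fun r h => ⟨(le_sup_left : R ≤ ch R H j) h, ?_⟩)
    (fun b hb => ⟨div_mem_ch hb, ?_⟩) ha).2
  · obtain ⟨c, hc⟩ := hr r h
    have h1 : θ (r - algebraMap k F c) ∈ mx R := ⟨(hR _).1 hc.1, fun hu => hc.2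
      ⟨fun h0 => hu.ne (by rw [h0, map_zero]), hc.1, (hR _).2 (by rw [map_inv₀]; exact hu.inv_mem)⟩⟩
    have := hd.mx (mx_sub' hl h1 hc)
    rwa [map_sub, θ.commutes, sub_sub_sub_cancel_right] at this
  · rw [map_div₀, hH b hb, hH j hj, sub_self]
    exact zero_mem_mx

theorem un (hO : IsLocalRing O) (hu : IsU O a) (h : θ a - a ∈ mx O) : IsU O (θ a) := by
  simpa using hu.add_mx hO h

theorem fw (hH : ∀ a ∈ H, θ a = a) (hR : ∀ a, a ∈ R ↔ θ a ∈ R) (hr : RatPt R)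
    (hl : IsLocalRing R) (hO : O ∈ Xs R H) (ha : a ∈ O) : θ a ∈ O := by
  obtain ⟨⟨j, hj, h⟩, hd⟩ := hO
  obtain ⟨p, hp, q, hq, hu, rfl⟩ := h.2.2 a ha
  rw [map_div₀]
  exact (un h.1 hu (dif hH hR hr hl hj h hd hq)).div_mem (h.2.1 (st hH hR hj hp))

end Fx1

theorem fx1 : Fx1Stmt := by
  intro k F M I _ _ _ _ _ _ _ _ R H ξ ρ S L θ hH hR
  refine ⟨?_, fun O hO => ?_, fun a ha => ?_⟩
  · rintro O ⟨j, hj, h⟩
    refine ⟨j, hj, isLocalRing_of fun a ha b hb => ⟨add_mem ha.1 hb.1, fun hu => ?_⟩,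
      fun a ha => h.2.1 (Fx1.st hH hR hj ha), fun f hf => ?_⟩
    · rw [Fx1.isU, map_add] at hu
      exact (mx_add h.1 ⟨ha.1, fun w => ha.2 (Fx1.isU.2 w)⟩ ⟨hb.1, fun w => hb.2 (Fx1.isU.2 w)⟩).2 hu
    · obtain ⟨p, hp, q, hq, hu, e⟩ := h.2.2 (θ f) hf
      refine ⟨_, Fx1.st (Fx1.symH hH) (Fx1.symR hR) hj hp, _,
        Fx1.st (Fx1.symH hH) (Fx1.symR hR) hj hq, Fx1.isU.2 (by rwa [θ.apply_symm_apply]), ?_⟩
      rw [← map_div₀, ← e, θ.symm_apply_apply]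
  · ext a
    refine ⟨fun h => ?_, fun h => Fx1.fw hH hR L.rat L.loc hO h⟩
    have := Fx1.fw (a := θ a) (Fx1.symH hH) (Fx1.symR hR) L.rat L.loc hO h
    rwa [θ.symm_apply_apply] at this
  · obtain ⟨j, hj, h⟩ := L.fib.mem
    obtain ⟨p, hp, q, hq, hu, rfl⟩ := h.2.2 a ha
    have key : ∀ b ∈ ch R H j, evO ξ ρ (θ b) = evO ξ ρ b := fun b hb => by
      have h1 := Fx1.dif hH hR L.rat L.loc hj h L.fib.dom hb
      have h2 := (L.lh.eq_zero_iff h1.1).2 h1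
      rwa [evO_sub ρ (h.2.1 (Fx1.st hH hR hj hb)) (h.2.1 hb), sub_eq_zero] at h2
    rw [map_div₀, evO_div ρ (h.2.1 (Fx1.st hH hR hj hp))
      (Fx1.un h.1 hu (Fx1.dif hH hR L.rat L.loc hj h L.fib.dom hq)), evO_div ρ (h.2.1 hp) hu,
      key p hp, key q hq]

end Pool.Agent.MP_e8e0b6_ag.R2.C
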