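import Pool.Agent.MP_e8e0b6_ag.R2.C.GSpec

/-!
Row FX2: an automorphism that fixes the base point acts trivially on classes.
-/

set_option autoImplicit false

namespace Pool.Agent.MP_e8e0b6_ag.R2.C

open Pool.Agent.MP_79c67d_ag Pool.Agent.MP_20d318_ag Pool.Agent.MP_20d318_ag.AG
  Pool.Agent.MP_20d318_ag.BV Pool.Agent.MP_20d318_ag.CB

namespace Fx2

variable {Ω E J : Type} [Field Ω] [Field E] [Algebra Ω E] [Fintype J] {O O' : Subalgebra Ω E}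
  {U : Set E} {g : E}

theorem gn_tau (τ : E ≃+* E) (h : ∀ a, a ∈ O' ↔ τ a ∈ O) (hg : Gn U O' g) :
    Gn (τ '' U) O (τ g) := by
  obtain ⟨a, ha, h0, h1, h2⟩ := hg.2
  refine ⟨?_, τ a, ⟨a, ha, rfl⟩, ?_⟩
  · rintro _ ⟨b, hb, rfl⟩
    rw [← map_div₀]; exact (h _).1 (hg.1 b hb)
  · rw [← map_div₀]
    exact ⟨(map_ne_zero τ).2 h0, (h _).1 h1, by rw [← map_inv₀]; exact (h _).1 h2⟩

/-- A finite set that is principal at all points has a class. -/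
theorem exists_cl {S' : Sd Ω E J} (hS : SAll S') (hU : U.Finite) (h : ∀ O ∈ S'.T, Prin U O) :
    ∃ c, Cl S' U c := by
  obtain ⟨c, φ, h0, h1⟩ := hS.a2.pic _ (isCart_of_gn hU fun O hO => gn_spec (h O hO))
  exact ⟨-c, φ, h0, fun O hO => by
    rw [S'.lb_neg, inv_inv]; exact (gn_spec (h O hO)).of_unit (h1 O hO)⟩

/-- Transport of a line bundle. -/
theorem dt_map {X : Set (Subalgebra Ω E)} {γ : Subalgebra Ω E → E} (θ : E →ₐ[Ω] E)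
    (hX : ∀ O ∈ X, O.comap θ ∈ X) (h : Dt X γ) : Dt X fun O => θ (γ (O.comap θ)) := by
  obtain ⟨U, V, h1, h2, h⟩ := h
  have s : ∀ W, Sys X W → Sys X (θ '' W) := fun W hW => ⟨hW.1.image _, fun O hO =>
    (hW.2 _ (hX O hO)).elim fun a ha => ⟨_, (gn_map θ).2 ha⟩⟩
  refine ⟨_, _, s U h1, s V h2, fun O hO => ?_⟩
  obtain ⟨a, b, ha, hb, hu⟩ := h _ (hX O hO)
  refine ⟨_, _, (gn_map θ).2 ha, (gn_map θ).2 hb, ?_⟩
  simpa only [map_div₀, map_mul] using (isU_comap θ).1 hu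

end Fx2

open Fx2 in
theorem fx2 : Fx2Stmt := by
  intro mk2 dt sp tw fx1 k F M Ω E I J _ _ _ _ _ _ _ _ _ _ _ _ _ _ _ R H ξ ρ S μ S' τ θ L G hR hP
    hτ hH hθ U c hU ⟨φ', hφ', hG⟩
  have hS := (mk2 k M I S L.mrk).all
  have hS' := (mk2 Ω E J S' G.mrk).all
  obtain ⟨f1, f2, f3⟩ := fx1 k F M I R H ξ ρ S L θ hH hθ
  have hw : ∀ O ∈ S'.T, ∃ O' ∈ S'.T, ∀ a, a ∈ O' ↔ τ a ∈ O := by
    rw [G.eq]
    exact tw Ω E _ τ hP (by rintro _ ⟨a, ha, rfl⟩; rw [hτ, hH a ha])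
  obtain ⟨c', ψ, hψ, hG'⟩ := exists_cl hS' (hU.image τ) fun O hO =>
    (hw O hO).elim fun O' h => (gn_tau τ h.2 (hG O' h.1)).prin
  obtain ⟨γ, hD, φ, hφ, hL⟩ := dt k F Ω E J R H μ S' L.fm G hR c
  obtain ⟨-, σ, hσ⟩ := sp k F M Ω E I J R H ξ ρ S μ S' L G hR
  have hL' : Lg (XX R H) μ S' c' fun O => (θ : F →ₐ[k] F) (γ (O.comap (θ : F →ₐ[k] F))) := by
    have h0 : τ (φ' * φ) ≠ 0 := (map_ne_zero τ).2 (mul_ne_zero hφ' hφ)
    refine ⟨τ (φ' * φ) / ψ, div_ne_zero h0 hψ, fun O' hO' O hO hle => ?_⟩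
    obtain ⟨O'', hO'', e⟩ := hw O' hO'
    have h1 := hL O'' hO'' _ (f1 O hO) fun a ha => (e _).2 (by rw [hτ]; exact hle _ ha)
    have h2 : Gn U O'' (φ' * φ / μ (γ (O.comap (θ : F →ₐ[k] F)))) := (hG O'' hO'').of_unit (by
      convert h1.inv using 1
      field_simp)
    have h3 := (hG' O' hO').unit (gn_tau τ e h2)
    rw [map_div₀, hτ] at h3
    convert h3 using 1
    change μ (θ _) / _ = _
    field_simp
  obtain ⟨u, -, hu⟩ := hσ.rel c γ hD ⟨φ, hφ, hL⟩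
  obtain ⟨u', -, hu'⟩ := hσ.rel c' _ (dt_map _ f1 hD) hL'
  have e : σ c' - σ c = 0 := hS.a1.zero _ (evO ξ ρ (θ u / u')) fun O₁ hO₁ => by
    obtain ⟨O, hO, rfl⟩ := exists_red L hO₁
    obtain ⟨h1, h2⟩ := hu O hO.1 hO.2
    obtain ⟨h3, h4⟩ := hu' O hO.1 hO.2
    simp only [f2 O hO] at h3 h4
    have h5 : IsU ξ (θ (u * γ O)) :=
      (isU_comap (θ : F →ₐ[k] F)).1 (by rwa [f2 ξ (xi_mem L)])
    have h6 : θ u / u' = θ (u * γ O) / (u' * (θ : F →ₐ[k] F) (γ O)) := by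
      rw [map_mul]
      exact (mul_div_mul_right _ _ (right_ne_zero_of_mul h3.ne)).symm
    rw [h6, evO_div ρ h5.mem h3, f3 (u * γ O) h1.mem, S.lb_sub (hS.a1.gne _ hO₁)]
    convert h2.div h4 using 1
    field_simp
  obtain rfl : c' = c := σ.injective (sub_eq_zero.1 e)
  exact ⟨ψ, hψ, hG'⟩

end Pool.Agent.MP_e8e0b6_ag.R2.C
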