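import Pool.Agent.MP_e8e0b6_ag.R2.C.GSpec

/-!
The monodromy on divisor classes is trivial: the assembly.
-/

set_option autoImplicit false

open AlgebraicGeometry CategoryTheory

namespace Pool.Agent.MP_e8e0b6_ag.R2.C

open Pool.Agent.MP_79c67d_ag Pool.Agent.MP_20d318_ag Pool.Agent.MP_20d318_ag.AG
  Pool.Agent.MP_20d318_ag.BV Pool.Agent.MP_20d318_ag.CB

namespace GGlue

variable {k Ω E J : Type} [Field k] [Field Ω] [Field E] [Algebra k E] [Algebra Ω E] [Fintype J]

theorem fix_adjoin (τ : E ≃+* E) {T : Set E} (h0 : ∀ c, τ (algebraMap k E c) = algebraMap k E c)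
    (h : ∀ a ∈ T, τ a = a) {z : E} (hz : z ∈ IntermediateField.adjoin k T) : τ z = z := by
  induction hz using IntermediateField.adjoin_induction with
  | mem a ha => exact h a ha
  | algebraMap c => exact h0 c
  | add a b _ _ ha hb => rw [map_add, ha, hb]
  | inv a _ ha => rw [map_inv₀, ha]
  | mul a b _ _ ha hb => rw [map_mul, ha, hb]

theorem pres_trans {τ τ' : E ≃+* E} (h : Pres Ω τ) (h' : Pres Ω τ') : Pres Ω (τ.trans τ') := by
  unfold Pres at *
  rw [RingEquiv.coe_trans, Set.image_comp, h, h']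

theorem pres_symm {τ : E ≃+* E} (h : Pres Ω τ) : Pres Ω τ.symm := by
  unfold Pres at *
  conv_lhs => rw [← h]
  exact τ.toEquiv.symm_image_image _

theorem tv_trans {S' : Sd Ω E J} {τ τ' : E ≃+* E} (h : Tv S' τ) (h' : Tv S' τ') :
    Tv S' (τ.trans τ') := fun U c hU hc => by
  rw [RingEquiv.coe_trans, Set.image_comp]
  exact h' _ c (hU.image _) (h U c hU hc)

theorem img_H {L : Type} [Field L] [Algebra k L] (ι : L →ₐ[k] E) (H₀ : Set E) :
    (fl ι H₀).val '' ((fl ι H₀).val ⁻¹' H₀) = H₀ :=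
  Set.image_preimage_eq_of_subset fun a ha =>
    ⟨⟨a, IntermediateField.subset_adjoin _ _ (Or.inr ha)⟩, rfl⟩

end GGlue

open GGlue in
theorem gal_of (mk2 : Mk2Stmt) (ext : ExtStmt) (chs : Chs) (pur : Pur) (ptf : Ptf) (tw : TwStmt)
    (one : OneStmt) (rat : RatStmt) (gdf : GdfStmt) (ine : Ine) : GalStmt' := by
  intro k Ω E J _ _ _ _ _ _ _ _ _ _ _ S f s H₀ S' hf hsc hs h1 hnz hU A _ j _ g hg hinj halg
  obtain ⟨φ, hφ⟩ := sp_surj (j ≫ f)
  have hgφ : g.comp φ = algebraMap k Ω := sp_inj (by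
    rw [← sp_comp, hφ, ← Category.assoc, hg, hs])
  let _ : Algebra k A := φ.toAlgebra
  let gA : A →ₐ[k] Ω := { g with commutes' := DFunLike.congr_fun hgφ }
  let K : IntermediateField k Ω := IntermediateField.adjoin k (Set.range g)
  have hK : ∀ a, g a ∈ K := fun a => IntermediateField.subset_adjoin _ _ ⟨a, rfl⟩
  let gK : A →ₐ[k] K := gA.codRestrict K.toSubalgebra hK
  let q : Spec (.of K) ⟶ S := sp (gK : A →+* K) ≫ j
  have hq : sp (algebraMap K Ω) ≫ q = s := by
    rw [← Category.assoc, sp_comp]; exact hg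
  have hqf : q ≫ f = sp (algebraMap k K) := by
    rw [Category.assoc, ← hφ, sp_comp]
    exact congrArg sp gK.comp_algebraMap
  have hct : Ct q gK j := ⟨‹_›, rfl, fun a b h => hinj (congrArg Subtype.val h), fun z => by
    obtain ⟨r, hr, t, ht, e⟩ := IntermediateField.mem_adjoin_iff_div.1 z.2
    rw [show Algebra.adjoin k (Set.range g) = gA.range from
      Algebra.adjoin_eq (S := gA.range)] at hr ht
    obtain ⟨a, rfl⟩ := hr
    obtain ⟨b, rfl⟩ := ht
    by_cases hb : gK b = 0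
    · refine ⟨0, zero_mem _, 1, one_mem _, one_ne_zero, Subtype.ext ?_⟩
      have : gA b = 0 := congrArg Subtype.val hb
      simpa [this] using e
    · exact ⟨_, ⟨a, rfl⟩, _, ⟨b, rfl⟩, hb, Subtype.ext e⟩⟩
  have : CharZero Ω := charZero_of_injective_algebraMap (algebraMap k Ω).injective
  have : Algebra.IsAlgebraic K Ω := ⟨fun a => by
    have hle : g.range ≤ K.toSubalgebra.toSubring := by rintro _ ⟨a, rfl⟩; exact hK a
    let ψ : g.range →+* K := Subring.inclusion hle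
    exact (halg a).ringHom_of_comp_eq ψ (RingHom.id Ω) (Subring.inclusion_injective hle) rfl⟩
  have : IsAlgClosure K Ω := ⟨inferInstance, inferInstance⟩
  have : IsGalois K Ω := inferInstance
  have uni : ∀ (A' : Type) [CommRing A'] [Algebra k A'] (g' : A' →ₐ[k] K)
      (j' : Spec (.of A') ⟶ S), Ct q g' j' →
      Uni ((IsScalarTower.toAlgHom k Ω E).comp (K.val.comp g')).range H₀ S' :=
    fun A' _ _ g' j' h => hU A' (K.val.comp g') j' (Subtype.val_injective.comp h.inj) (by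
      rw [← hq, ← h.eq, ← Category.assoc, sp_comp]; rfl)
  have := hf.integral
  obtain ⟨A₁, _, _, g₁, j₁, c₁, o₁, -⟩ := chs k K A S f q gK j hf hqf hct (genericPoint S)
  let ιK : K →ₐ[k] E := (IsScalarTower.toAlgHom k Ω E).comp K.val
  have := o₁.sm
  have G₀ := gdf k K Ω E J ιK H₀ S' _ g₁.range (fun a => ⟨a, rfl⟩) h1 hnz (uni A₁ g₁ j₁ c₁)
    (by rintro _ ⟨a, rfl⟩; exact ⟨_, ⟨a, rfl⟩, rfl⟩)
    (.of_equiv (AlgEquiv.ofInjective g₁ c₁.inj)) c₁.frac
  have hS := (mk2 Ω E J S' G₀.gc.mrk).all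
  have hT : S'.T = mp Ω fun _ : Unit => H₀ := by rw [G₀.gc.eq, img_H]
  obtain ⟨Z, hZ, hR⟩ := rat k Ω E J H₀ S' hS hT
  have := hZ.to_subtype
  let L : IntermediateField K Ω := (FiniteGaloisIntermediateField.adjoin K Z).toIntermediateField
  have : IsScalarTower k L Ω := .of_algebraMap_eq fun c => (IsScalarTower.algebraMap_apply k K Ω c)
  let ιL : L →ₐ[k] E := (IsScalarTower.toAlgHom k Ω E).comp (IsScalarTower.toAlgHom k L Ω)
  have hrat : Rat (fl ιL H₀).val S' := hR _ _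
    (fun z hz => ⟨⟨_, IntermediateField.subset_adjoin _ _ (Or.inl
      ⟨⟨z, FiniteGaloisIntermediateField.subset_adjoin K Z hz⟩, rfl⟩)⟩, rfl⟩)
    fun a ha => ⟨⟨a, IntermediateField.subset_adjoin _ _ (Or.inr ha)⟩, rfl⟩
  let N₀ : Submonoid (L ≃ₐ[K] L) :=
    { carrier := {γ | ∃ τ : E ≃+* E, Pres Ω τ ∧ (∀ a, τ (ιL a) = ιL (γ a)) ∧
        (∀ a ∈ H₀, τ a = a) ∧ Tv S' τ}
      one_mem' := ⟨RingEquiv.refl E, by simp [Pres], fun _ => rfl, fun _ _ => rfl,
        fun U c _ h => by simpa using h⟩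
      mul_mem' := by
        rintro γ γ' ⟨τ, a1, a2, a3, a4⟩ ⟨τ', b1, b2, b3, b4⟩
        exact ⟨τ'.trans τ, pres_trans b1 a1, fun a => by simp [a2, b2],
          fun a ha => by simp [a3 a ha, b3 a ha], tv_trans b4 a4⟩ }
  let N : Subgroup (L ≃ₐ[K] L) :=
    { N₀ with
      inv_mem' := fun {γ} h => by
        have := N₀.pow_mem h (orderOf γ - 1)
        rwa [eq_inv_of_mul_eq_one_left (show γ ^ (orderOf γ - 1) * γ = 1 by
          rw [← pow_succ, Nat.sub_add_cancel (orderOf_pos γ), pow_orderOf_eq_one])] at this }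
  have hN : N = ⊤ := pur k K L A S f q gK j N hf hsc hqf hct fun A' _ _ g' j' c' o' W hW γ hγ => by
    obtain ⟨τ, t1, t2⟩ := ext k _ Ω E J _ _ _ S' G₀.gc hS.a1.nice.toFine.top
      (γ.liftNormal Ω).toRingEquiv (by
        rintro a ⟨z, ⟨b, -, hb⟩, hz⟩
        obtain rfl : (b : Ω) = a := (algebraMap Ω E).injective (hb.trans hz)
        exact (γ.liftNormal Ω).commutes b)
    have p1 : Pres Ω τ := by
      unfold Pres
      rw [← Set.range_comp, show τ ∘ algebraMap Ω E = algebraMap Ω E ∘ γ.liftNormal Ω from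
        funext t1, (γ.liftNormal Ω).surjective.range_comp]
    have p2 : ∀ a, τ (ιL a) = ιL (γ a) := fun a =>
      (t1 a).trans (congrArg _ (γ.liftNormal_commutes Ω a))
    have p3 : ∀ a ∈ H₀, τ a = a := fun a ha =>
      t2 ⟨a, IntermediateField.subset_adjoin _ _ (Or.inr ha)⟩
    have := o'.sm
    have := o'.nrm
    have := o'.dom
    have e := AlgEquiv.ofInjective g' c'.inj
    obtain ⟨C, R', q1, q2, q3, q4, q5, q6⟩ := ptf k K L g'.range W γ c'.frac
      (.equiv inferInstance e) (.of_equiv e.toRingEquiv) hW hγ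
    exact ⟨τ, p1, p2, p3, ine k L Ω E J ιL H₀ S' C R' (γ.restrictScalars k) τ
      (gdf k L Ω E J ιL H₀ S' _ C (fun a => ⟨a, rfl⟩) h1 hnz (uni A' g' j' c')
        (by rintro _ ⟨a, rfl⟩; exact ⟨_, q1 ⟨_, ⟨a, rfl⟩, rfl⟩, rfl⟩) q2 q3)
      (fun a => ⟨a, rfl⟩) hrat q4 q5 q6 p1 p2 p3⟩
  intro τ hp hfix
  have hk : ∀ c, τ (algebraMap k E c) = algebraMap k E c := fun c =>
    hfix _ (Or.inl ⟨_, ⟨φ c, DFunLike.congr_fun hgφ c⟩, (IsScalarTower.algebraMap_apply ..).symm⟩)
  choose σ hσ using fun a : Ω =>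
    (hp ▸ ⟨_, ⟨a, rfl⟩, rfl⟩ : τ (algebraMap Ω E a) ∈ Set.range (algebraMap Ω E))
  have inj := (algebraMap Ω E).injective
  let σ' : Ω →ₐ[K] Ω :=
    { toFun := σ
      map_one' := inj (by simp [hσ])
      map_mul' := fun a b => inj (by simp [hσ])
      map_zero' := inj (by simp [hσ])
      map_add' := fun a b => inj (by simp [hσ])
      commutes' := fun a => inj ((hσ a).trans (fix_adjoin τ hk (T := algebraMap Ω E '' Set.range g)
        (fun z hz => hfix z (Or.inl hz)) (by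
          rw [show algebraMap Ω E '' Set.range g =
            IsScalarTower.toAlgHom k Ω E '' Set.range g from rfl, ← IntermediateField.adjoin_map]
          exact ⟨a, a.2, rfl⟩))) }
  let γ := (AlgEquiv.ofBijective σ' (Algebra.IsAlgebraic.algHom_bijective σ')).restrictNormal L
  obtain ⟨τ', b1, b2, b3, b4⟩ : γ ∈ N := hN ▸ Subgroup.mem_top γ
  have e1 : ∀ a, τ (ιL a) = τ' (ιL a) := fun a => (hσ a).symm.trans ((b2 a).trans
    (congrArg (algebraMap Ω E) (AlgEquiv.restrictNormal_commutes _ L a))).symm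
  have e2 : ∀ a ∈ H₀, (τ.trans τ'.symm) a = a := fun a ha => by
    rw [RingEquiv.trans_apply, hfix a (Or.inr ha), RingEquiv.symm_apply_eq, b3 a ha]
  have e3 : ∀ a, (τ.trans τ'.symm) (ιL a) = ιL a := fun a => by
    rw [RingEquiv.trans_apply, e1, RingEquiv.symm_apply_apply]
  have := tv_trans (one tw k _ Ω E J (fl ιL H₀).val H₀ S' (τ.trans τ'.symm) hS hT hrat
    (pres_trans hp (pres_symm b1)) e2 fun z => fix_adjoin _
      (fun c => by rw [← ιL.commutes, e3]) (by
        rintro a (⟨b, rfl⟩ | ha)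
        exacts [e3 b, e2 a ha]) z.2) b4
  rwa [show (τ.trans τ'.symm).trans τ' = τ from RingEquiv.ext fun a => by simp] at this

end Pool.Agent.MP_e8e0b6_ag.R2.C
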