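import Pool.Agent.MP_e8e0b6_ag.R2.C.Bas
import Pool.Agent.MP_19ffc6_ag.Res.Pur

/-!
The monodromy on divisor classes: data and rows.
-/

set_option autoImplicit false

open AlgebraicGeometry CategoryTheory

namespace Pool.Agent.MP_e8e0b6_ag.R2.C

open Pool.Agent.MP_79c67d_ag Pool.Agent.MP_20d318_ag Pool.Agent.MP_20d318_ag.AG
  Pool.Agent.MP_20d318_ag.BV Pool.Agent.MP_20d318_ag.CB
open Pool.Agent.MP_19ffc6_ag.Res (Fix Dv In)

/-! ### Purity -/

/-- Smooth normal domains with etale coordinates. -/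
structure Co (k A : Type) [Field k] [CommRing A] [Algebra k A] : Prop where
  dom : IsDomain A
  sm : Algebra.Smooth k A
  nrm : IsIntegrallyClosed A
  ex : ∃ (n : ℕ) (x : Fin n → A),
    (MvPolynomial.aeval x : MvPolynomial (Fin n) k →ₐ[k] A).toRingHom.FormallySmooth ∧
      ∀ a : A, IsAlgebraic (Algebra.adjoin k (Set.range x)) a

/-- An affine chart of `S` whose ring has fraction field `K`. -/
structure Ct {k K A : Type} [Field k] [Field K] [Algebra k K] [CommRing A] [Algebra k A]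
    {S : Scheme.{0}} (q : Spec (.of K) ⟶ S) (g : A →ₐ[k] K) (j : Spec (.of A) ⟶ S) : Prop where
  opn : IsOpenImmersion j
  eq : sp (g : A →+* K) ≫ j = q
  inj : Function.Injective g
  frac : Frac g.range

/-- COO. -/
def CooStmt : Prop := ∀ (k A : Type) [Field k] [CharZero k] [IsAlgClosed k] [CommRing A]
  [IsDomain A] [Algebra k A] (n : ℕ) [Algebra (MvPolynomial (Fin n) k) A]
  [IsScalarTower k (MvPolynomial (Fin n) k) A],
  Algebra.IsStandardEtale (MvPolynomial (Fin n) k) A → Co k A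

/-- Every point has a chart with etale coordinates. -/
def Chs : Prop := ∀ (k K A : Type) [Field k] [CharZero k] [IsAlgClosed k] [Field K]
  [Algebra k K] [CommRing A] [Algebra k A] (S : Scheme.{0}) (f : S ⟶ Spec (.of k))
  (q : Spec (.of K) ⟶ S) (g : A →ₐ[k] K) (j : Spec (.of A) ⟶ S), SmoothVariety f →
  q ≫ f = sp (algebraMap k K) → Ct q g j → ∀ x : S, ∃ (A' : Type) (_ : CommRing A')
    (_ : Algebra k A') (g' : A' →ₐ[k] K) (j' : Spec (.of A') ⟶ S),
      Ct q g' j' ∧ Co k A' ∧ x ∈ Set.range j'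

/-- CHS. -/
def ChsStmt : Prop := CooStmt → Chs

/-- NOR: the normalization of a simply connected scheme in an unramified extension. -/
def NorStmt : Prop := ∀ (L : Type) [Field L] (S : Scheme.{0}) (q : Spec (.of L) ⟶ S),
  SimplyConnected S → (∀ x : S, ∃ (A : Type) (_ : CommRing A) (_ : Algebra A L)
    (j : Spec (.of A) ⟶ S), IsOpenImmersion j ∧ x ∈ Set.range j ∧ sp (algebraMap A L) ≫ j = q ∧
      Module.Finite A (integralClosure A L) ∧ Algebra.Etale A (integralClosure A L)) →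
  ∀ (A : Type) [CommRing A] [Algebra A L] (j : Spec (.of A) ⟶ S), IsOpenImmersion j →
    sp (algebraMap A L) ≫ j = q → ∀ z : L, IsIntegral A z → z ∈ (algebraMap A L).range

/-- ETA: local primitive elements with unit different. -/
def EtaStmt : Prop := ∀ (A L : Type) [CommRing A] [IsDomain A] [IsIntegrallyClosed A]
  [IsNoetherianRing A] [Field L] [Algebra A L], Function.Injective (algebraMap A L) →
  Module.Finite A (integralClosure A L) →
  (∀ O : ValuationSubring L, (∀ r, algebraMap A L r ∈ O) → ∃ (a : L) (f p : Polynomial A),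
    f.Monic ∧ Polynomial.aeval a f = 0 ∧ O.valuation (Polynomial.aeval a f.derivative) = 1 ∧
    O.valuation (Polynomial.aeval a p) = 1 ∧ ∀ s : L, IsIntegral A s →
      ∃ r : Polynomial A, Polynomial.aeval a p * s = Polynomial.aeval a r) →
    Algebra.Etale A (integralClosure A L)

/-- Purity of the branch locus on a chart. -/
def Aje : Prop := ∀ (k A L G : Type) [Field k] [CharZero k] [CommRing A] [Field L] [Algebra k A]
  [Algebra A L] [Algebra k L] [IsScalarTower k A L] [Group G] [Finite G] [MulSemiringAction G L]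
  [FaithfulSMul G L], Co k A → Function.Injective (algebraMap A L) →
  (∀ r, Fix G (algebraMap A L r)) →
  (∀ z : L, Fix G z → ∃ a b : A, b ≠ 0 ∧ algebraMap A L b * z = algebraMap A L a) →
  (∀ W, Dv G (algebraMap A L).range W → ∀ g : G, In W g → g = 1) →
    Module.Finite A (integralClosure A L) ∧ Algebra.Etale A (integralClosure A L)

/-- AJE. -/
def AjeStmt : Prop := EtaStmt → Aje

/-- INL: inertia elements lift. -/
def InlStmt : Prop := ∀ (K L' L : Type) [Field K] [Field L'] [Field L] [Algebra K L']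
  [Algebra L' L] [Algebra K L] [IsScalarTower K L' L] [FiniteDimensional K L] [IsGalois K L]
  (W' : ValuationSubring L') (g' : L' ≃ₐ[K] L'), In W' g' →
    ∃ (W : ValuationSubring L) (g : L ≃ₐ[K] L), W.comap (algebraMap L' L) = W' ∧ In W g ∧
      ∀ z, g (algebraMap L' L z) = algebraMap L' L (g' z)

/-- The Galois group is generated by divisorial inertia. -/
def Pur : Prop := ∀ (k K L A : Type) [Field k] [CharZero k] [IsAlgClosed k] [Field K] [Field L]
  [Algebra k K] [Algebra K L] [Algebra k L] [IsScalarTower k K L] [FiniteDimensional K L]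
  [IsGalois K L] [CommRing A] [Algebra k A] (S : Scheme.{0}) (f : S ⟶ Spec (.of k))
  (q : Spec (.of K) ⟶ S) (g : A →ₐ[k] K) (j : Spec (.of A) ⟶ S) (N : Subgroup (L ≃ₐ[K] L)),
  SmoothVariety f → SimplyConnected S → q ≫ f = sp (algebraMap k K) → Ct q g j →
  (∀ (A' : Type) [CommRing A'] [Algebra k A'] (g' : A' →ₐ[k] K) (j' : Spec (.of A') ⟶ S),
    Ct q g' j' → Co k A' → ∀ W, Dv (L ≃ₐ[K] L)
      (g'.range.map (IsScalarTower.toAlgHom k K L)).toSubring W → ∀ γ, In W γ → γ ∈ N) → N = ⊤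

/-- PUR. -/
def PurStmt : Prop := Chs → NorStmt → Aje → InlStmt → Pur

/-! ### Inertia fixes a smooth point -/

/-- DVR. -/
def DvrStmt : Prop := ∀ (k L G : Type) [Field k] [Field L] [Algebra k L] [Group G]
  [MulSemiringAction G L] (R B : Subalgebra k L) (W : ValuationSubring L), IsNoetherianRing B →
  Frac B → (∀ z, z ∈ B ↔ IsIntegral R z) → (∀ r ∈ R, Fix G r) → Dv G R.toSubring W →
    ∃ D ∈ Pts B, (∀ b ∈ B, IsU D b ↔ W.valuation b = 1) ∧
      ∃ ϖ ∈ mx D, ϖ ≠ 0 ∧ ∀ a ∈ mx D, a / ϖ ∈ D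

/-- SM1. -/
def Sm1Stmt : Prop := ∀ (k D : Type) [Field k] [CharZero k] [CommRing D] [IsDomain D]
  [IsLocalRing D] [Algebra k D] [Algebra.EssFiniteType k D] (ϖ : D), ϖ ≠ 0 →
  IsLocalRing.maximalIdeal D = Ideal.span {ϖ} → Algebra.FormallySmooth k D

/-- A smooth neighbourhood of a discrete valuation ring. -/
def Smo : Prop := ∀ (k L : Type) [Field k] [CharZero k] [Field L] [Algebra k L]
  (B D : Subalgebra k L) (ϖ : L), Algebra.FiniteType k B → D ∈ Pts B → ϖ ∈ mx D → ϖ ≠ 0 →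
  (∀ a ∈ mx D, a / ϖ ∈ D) →
    ∃ f ∈ B, IsU D f ∧ Algebra.Smooth k ↥(B ⊔ Algebra.adjoin k {f⁻¹})

/-- SM2. -/
def Sm2Stmt : Prop := Sm1Stmt → Smo

/-- An inertia element fixes a smooth rational point. -/
def Ptf : Prop := ∀ (k K L : Type) [Field k] [CharZero k] [IsAlgClosed k] [Field K] [Field L]
  [Algebra k K] [Algebra K L] [Algebra k L] [IsScalarTower k K L] [FiniteDimensional K L]
  [IsGalois K L] (R : Subalgebra k K) (W : ValuationSubring L) (γ : L ≃ₐ[K] L), Frac R →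
  Algebra.FiniteType k R → IsIntegrallyClosed R →
  Dv (L ≃ₐ[K] L) (R.map (IsScalarTower.toAlgHom k K L)).toSubring W → In W γ →
    ∃ C R' : Subalgebra k L, R.map (IsScalarTower.toAlgHom k K L) ≤ C ∧ Algebra.Smooth k C ∧
      Frac C ∧ R' ∈ Pts C ∧ RatPt R' ∧ ∀ a, a ∈ R' ↔ γ a ∈ R'

/-- PT. -/
def PtStmt : Prop := DvrStmt → Smo → Ptf

/-! ### The action on classes -/

/-- `τ` preserves the constants. -/
def Pres (Ω : Type) {E : Type} [Field Ω] [Field E] [Algebra Ω E] (τ : E ≃+* E) : Prop :=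
  τ '' Set.range (algebraMap Ω E) = Set.range (algebraMap Ω E)

/-- `τ` acts trivially on classes. -/
def Tv {Ω E J : Type} [Field Ω] [Field E] [Algebra Ω E] [Fintype J] (S' : Sd Ω E J)
    (τ : E ≃+* E) : Prop := ∀ (U : Set E) (c : J → ℤ), U.Finite → Cl S' U c → Cl S' (τ '' U) c

/-- The field generated by the image of `L` and `H₀`. -/
def fl {k L E : Type} [Field k] [Field L] [Field E] [Algebra k L] [Algebra k E] (ι : L →ₐ[k] E)
    (H₀ : Set E) : IntermediateField k E := IntermediateField.adjoin k (Set.range ι ∪ H₀)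

/-- A subring of `L` seen in this field. -/
def fu {k L E : Type} [Field k] [Field L] [Field E] [Algebra k L] [Algebra k E] (ι : L →ₐ[k] E)
    (H₀ : Set E) (C : Subalgebra k L) : Subalgebra k (fl ι H₀) := (C.map ι).comap (fl ι H₀).val

/-- TW: semilinear automorphisms permute the points. -/
def TwStmt : Prop := ∀ (Ω E : Type) [Field Ω] [Field E] [Algebra Ω E] (H₀ : Set E) (τ : E ≃+* E),
  Pres Ω τ → (∀ a ∈ H₀, τ a = a) → ∀ O ∈ mp Ω fun _ : Unit => H₀,
    ∃ O' ∈ mp Ω fun _ : Unit => H₀, ∀ a, a ∈ O' ↔ τ a ∈ O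

/-- ONE: automorphisms over a field of definition. -/
def OneStmt : Prop := TwStmt → ∀ (k F Ω E J : Type) [Field k] [Field F] [Field Ω] [Field E]
  [Algebra k F] [Algebra k E] [Algebra Ω E] [Fintype J] (μ : F →ₐ[k] E) (H₀ : Set E)
  (S' : Sd Ω E J) (τ : E ≃+* E), SAll S' → (S'.T = mp Ω fun _ : Unit => H₀) → Rat μ S' →
  Pres Ω τ → (∀ a ∈ H₀, τ a = a) → (∀ z, τ (μ z) = μ z) → Tv S' τ

/-- RAT: a finite set of constants over which all classes are defined. -/
def RatStmt : Prop := ∀ (k Ω E J : Type) [Field k] [Field Ω] [Field E] [Algebra k E] [Algebra Ω E]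
  [Fintype J] (H₀ : Set E) (S' : Sd Ω E J), SAll S' → (S'.T = mp Ω fun _ : Unit => H₀) →
    ∃ Z : Set Ω, Z.Finite ∧ ∀ (F : Type) [Field F] [Algebra k F] (μ : F →ₐ[k] E),
      (∀ z ∈ Z, algebraMap Ω E z ∈ Set.range μ) → H₀ ⊆ Set.range μ → Rat μ S'

/-- FX1: an automorphism that fixes the base point acts trivially on the closed fibre. -/
def Fx1Stmt : Prop := AllL fun k F _ _ _ _ _ _ _ _ R H ξ ρ _ => ∀ θ : F ≃ₐ[k] F,
  (∀ a ∈ H, θ a = a) → (∀ a, a ∈ R ↔ θ a ∈ R) →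
    (∀ O ∈ XX R H, O.comap (θ : F →ₐ[k] F) ∈ XX R H) ∧
    (∀ O ∈ Xs R H, O.comap (θ : F →ₐ[k] F) = O) ∧ ∀ a ∈ ξ, evO ξ ρ (θ a) = evO ξ ρ a

/-- An automorphism that fixes the base point acts trivially on classes. -/
def Fxm : Prop := ∀ (k F M Ω E I J : Type) [Field k] [CharZero k] [IsAlgClosed k] [Field F]
  [Field M] [Field Ω] [CharZero Ω] [IsAlgClosed Ω] [Field E] [Algebra k F] [Algebra k M]
  [Algebra k E] [Algebra Ω E] [Fintype I] [Fintype J] (R : Subalgebra k F) (H : Set F)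
  (ξ : Subalgebra k F) (ρ : ξ →ₐ[k] M) (S : Sd k M I) (μ : F →ₐ[k] E) (S' : Sd Ω E J)
  (τ : E ≃+* E) (θ : F ≃ₐ[k] F), Lc R H ξ ρ S → Gc R H μ S' → Rat μ S' → Pres Ω τ →
  (∀ z, τ (μ z) = μ (θ z)) → (∀ a ∈ H, θ a = a) → (∀ a, a ∈ R ↔ θ a ∈ R) → Tv S' τ

/-- FX2. -/
def Fx2Stmt : Prop := Mk2Stmt → DtStmt → SpStmt → TwStmt → Fx1Stmt → Fxm

/-- GDF: the family over a smooth ring inside `L`. -/
def GdfStmt : Prop := ∀ (k L Ω E J : Type) [Field k] [Field L] [Field Ω] [Field E] [Algebra k L]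
  [Algebra k E] [Algebra Ω E] [Fintype J] (ι : L →ₐ[k] E) (H₀ : Set E) (S' : Sd Ω E J)
  (C₀ : Subalgebra k E) (C : Subalgebra k L), (∀ a, ι a ∈ Set.range (algebraMap Ω E)) → 1 ∈ H₀ →
  (∀ a ∈ H₀, a ≠ 0) → Uni C₀ H₀ S' → C₀ ≤ C.map ι → Algebra.Smooth k C → Frac C →
    Gd (fu ι H₀ C) ((fl ι H₀).val ⁻¹' H₀) (fl ι H₀).val S'

/-- An automorphism that fixes a smooth rational point acts trivially on classes. -/
def Ine : Prop := ∀ (k L Ω E J : Type) [Field k] [CharZero k] [IsAlgClosed k] [Field L] [Field Ω]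
  [CharZero Ω] [IsAlgClosed Ω] [Field E] [Algebra k L] [Algebra k E] [Algebra Ω E] [Fintype J]
  (ι : L →ₐ[k] E) (H₀ : Set E) (S' : Sd Ω E J) (C R' : Subalgebra k L) (γ : L ≃ₐ[k] L)
  (τ : E ≃+* E), Gd (fu ι H₀ C) ((fl ι H₀).val ⁻¹' H₀) (fl ι H₀).val S' →
  (∀ a, ι a ∈ Set.range (algebraMap Ω E)) → Rat (fl ι H₀).val S' → R' ∈ Pts C → RatPt R' →
  (∀ a, a ∈ R' ↔ γ a ∈ R') → Pres Ω τ → (∀ a, τ (ι a) = ι (γ a)) → (∀ a ∈ H₀, τ a = a) → Tv S' τ

/-- INE. -/
def IneStmt : Prop := Fxm → Ine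

/-- GAL: the monodromy on classes is trivial. -/
def GalStmt' : Prop := ∀ (k Ω E J : Type) [Field k] [CharZero k] [IsAlgClosed k] [Field Ω]
  [IsAlgClosed Ω] [Field E] [Algebra k Ω] [Algebra Ω E] [Algebra k E] [IsScalarTower k Ω E]
  [Fintype J] (S : Scheme.{0}) (f : S ⟶ Spec (.of k)) (s : Spec (.of Ω) ⟶ S) (H₀ : Set E)
  (S' : Sd Ω E J), SmoothVariety f → SimplyConnected S → s ≫ f = sp (algebraMap k Ω) →
  1 ∈ H₀ → (∀ a ∈ H₀, a ≠ 0) → UniS k s H₀ S' →
  ∀ (A : Type) [CommRing A] (j : Spec (.of A) ⟶ S) [IsOpenImmersion j]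
  (g : A →+* Ω), sp g ≫ j = s → Function.Injective g → (∀ a : Ω, IsAlgebraic g.range a) →
    Triv (algebraMap Ω E '' Set.range g ∪ H₀) S'

end Pool.Agent.MP_e8e0b6_ag.R2.C
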