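import Pool.Agent.MP_e8e0b6_ag.R2.C.GSpec

/-!
The family over a smooth ring inside a field of constants is good.
-/

set_option autoImplicit false

namespace Pool.Agent.MP_e8e0b6_ag.R2.C

open Pool.Agent.MP_79c67d_ag Pool.Agent.MP_20d318_ag Pool.Agent.MP_20d318_ag.AG
  Pool.Agent.MP_20d318_ag.BV Pool.Agent.MP_20d318_ag.CB

namespace GdfA

variable {k L E : Type} [Field k] [Field L] [Field E] [Algebra k L] [Algebra k E]

theorem frac_of {D : Subalgebra k L} (h : ∀ f, f ∈ IntermediateField.adjoin k (D : Set L)) :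
    Frac D := fun f => by
  obtain ⟨a, ha, b, hb, rfl⟩ := IntermediateField.mem_adjoin_iff_div.1 (h f)
  rw [Algebra.adjoin_eq] at ha hb
  by_cases h0 : b = 0
  · exact ⟨0, zero_mem _, 1, one_mem _, one_ne_zero, by rw [h0, div_zero, zero_div]⟩
  · exact ⟨a, ha, b, hb, h0, rfl⟩

theorem mem_l (ι : L →ₐ[k] E) (H₀ : Set E) (a : L) : ι a ∈ fl ι H₀ :=
  IntermediateField.subset_adjoin _ _ (Or.inl ⟨a, rfl⟩)

theorem mem_r (ι : L →ₐ[k] E) {H₀ : Set E} {a : E} (h : a ∈ H₀) : a ∈ fl ι H₀ :=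
  IntermediateField.subset_adjoin _ _ (Or.inr h)

theorem smooth (ι : L →ₐ[k] E) (H₀ : Set E) (C : Subalgebra k L) [Algebra.Smooth k C] :
    Algebra.Smooth k (fu ι H₀ C) := by
  let φ : C →ₐ[k] fu ι H₀ C :=
    (((ι.comp C.val).codRestrict (fl ι H₀).toSubalgebra fun a => mem_l ι H₀ a) :
      C →ₐ[k] fl ι H₀).codRestrict _ fun a => ⟨a, a.2, rfl⟩
  refine Algebra.Smooth.of_equiv (AlgEquiv.ofBijective φ ⟨fun a b e => ?_, ?_⟩)
  · exact Subtype.ext (ι.injective (congrArg (fun z : fu ι H₀ C => (z.1 : E)) e))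
  · rintro ⟨z, c, hc, e⟩
    exact ⟨⟨c, hc⟩, Subtype.ext (Subtype.ext e)⟩

end GdfA

open GdfA

theorem gdf : GdfStmt := by
  intro k L Ω E J _ _ _ _ _ _ _ _ ι H₀ S' C₀ C hι h1 h0 hU hC hs hf
  refine hU (fl ι H₀) (fl ι H₀).val _ _
    (Set.image_preimage_eq_of_subset fun a ha => ⟨⟨a, mem_r ι ha⟩, rfl⟩) (fun x hx => ?_)
    (fun c hc => ?_) (smooth ι H₀ C) fun j hj => frac_of fun f => ?_
  · obtain ⟨c, hc, rfl⟩ := hC hx
    exact ⟨⟨ι c, mem_l ι H₀ c⟩, ⟨c, hc, rfl⟩, rfl⟩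
  · obtain ⟨a, -, e⟩ := hc
    exact e ▸ hι a
  · set D := ch (fu ι H₀ C) ((fl ι H₀).val ⁻¹' H₀) j
    have hD : ∀ z ∈ D, z ∈ IntermediateField.adjoin k (D : Set (fl ι H₀)) := fun z hz =>
      IntermediateField.subset_adjoin _ _ hz
    have hr : ∀ z ∈ (fl ι H₀).val ⁻¹' H₀, z / j ∈ D := fun z hz =>
      (le_sup_right : _ ≤ D) (Algebra.subset_adjoin ⟨z, hz, rfl⟩)
    have hl : ∀ c ∈ C, (⟨ι c, mem_l ι H₀ c⟩ : fl ι H₀) ∈ D := fun c hc =>
      (le_sup_left : _ ≤ D) (show _ ∈ fu ι H₀ C from ⟨c, hc, rfl⟩)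
    have hj0 : j ≠ 0 := fun e => h0 _ hj (by rw [e, map_zero])
    have : fl ι H₀ ≤ (IntermediateField.adjoin k (D : Set (fl ι H₀))).map (fl ι H₀).val := by
      refine IntermediateField.adjoin_le_iff.2 ?_
      rintro _ (⟨a, rfl⟩ | ha)
      · obtain ⟨a, ha, b, hb, -, rfl⟩ := hf a
        have := div_mem (hD _ (hl a ha)) (hD _ (hl b hb))
        exact ⟨_, this, (map_div₀ ι a b).symm⟩
      · refine ⟨⟨_, mem_r ι ha⟩, ?_, rfl⟩
        have := div_mem (hD _ (hr ⟨_, mem_r ι ha⟩ ha)) (hD _ (hr 1 (by simpa using h1)))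
        rwa [div_div_div_cancel_right₀ hj0, div_one] at this
    obtain ⟨z, hz, e⟩ := this f.2
    exact (Subtype.ext e : z = f) ▸ hz

end Pool.Agent.MP_e8e0b6_ag.R2.C
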