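import Pool.Agent.MP_e8e0b6_ag.R2.C.GSpec

/-!
Row INE: an automorphism that fixes a smooth rational point acts trivially on classes.
-/

set_option autoImplicit false

namespace Pool.Agent.MP_e8e0b6_ag.R2.C

open Pool.Agent.MP_79c67d_ag Pool.Agent.MP_20d318_ag Pool.Agent.MP_20d318_ag.AG
  Pool.Agent.MP_20d318_ag.BV Pool.Agent.MP_20d318_ag.CB

namespace Ine

variable {k L F : Type} [Field k] [Field L] [Field F] [Algebra k L] [Algebra k F]
  {C R : Subalgebra k L} (j : L →ₐ[k] F) {a : L}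

theorem isU_map : IsU (R.map j) (j a) ↔ IsU R a := by
  rw [← isU_comap, Subalgebra.comap_map_eq_self_of_injective j.injective]

theorem mx_map : j a ∈ mx (R.map j) ↔ a ∈ mx R := by
  rw [← mem_mx_comap, Subalgebra.comap_map_eq_self_of_injective j.injective]

theorem pts_map (h : R ∈ Pts C) : R.map j ∈ Pts (C.map j) := by
  refine ⟨isLocalRing_of fun a ha b hb => ?_, Subalgebra.map_mono h.2.1, ?_⟩
  · obtain ⟨a, -, rfl⟩ := ha.1
    obtain ⟨b, -, rfl⟩ := hb.1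
    have := (mx_map j).2 (mx_add h.1 ((mx_map j).1 ha) ((mx_map j).1 hb))
    rwa [map_add] at this
  · rintro _ ⟨f, hf, rfl⟩
    obtain ⟨a, ha, b, hb, hu, rfl⟩ := h.2.2 f hf
    exact ⟨_, ⟨a, ha, rfl⟩, _, ⟨b, hb, rfl⟩, (isU_map j).2 hu, map_div₀ j a b⟩

theorem rat_map (h : RatPt R) : RatPt (R.map j) := by
  rintro _ ⟨f, hf, rfl⟩
  obtain ⟨c, hc⟩ := h f hf
  have := (mx_map j).2 hc
  rw [map_sub, j.commutes] at this
  exact ⟨c, this⟩

theorem li_mono (h : C ≤ R) {ι : Type} {v : ι → L} (hv : LinearIndependent R v) :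
    LinearIndependent C v := by
  rw [linearIndependent_iff'] at hv ⊢
  exact fun s g e i hi => Subtype.ext (congrArg (fun x : R => (x : L))
    (hv s (fun i => Subalgebra.inclusion h (g i)) e i hi))

theorem fu_eq (H₀ : Set F) : ∃ i : L →ₐ[k] fl j H₀, ∀ C : Subalgebra k L, fu j H₀ C = C.map i :=
  ⟨j.codRestrict (fl j H₀).toSubalgebra fun a =>
    IntermediateField.subset_adjoin k _ (Or.inl ⟨a, rfl⟩), fun _ => Subalgebra.ext fun _ =>
      ⟨fun ⟨a, ha, e⟩ => ⟨a, ha, Subtype.ext e⟩, fun ⟨a, ha, e⟩ => ⟨a, ha, congrArg Subtype.val e⟩⟩⟩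

/-- The restriction of an automorphism to the field of definition. -/
theorem exists_res (H₀ : Set F) (γ : L ≃ₐ[k] L) (τ : F ≃+* F) (h : ∀ a, τ (j a) = j (γ a))
    (hH : ∀ a ∈ H₀, τ a = a) :
    ∃ θ : fl j H₀ ≃ₐ[k] fl j H₀, ∀ z : fl j H₀, τ z = θ z := by
  let τ' : F ≃ₐ[k] F := { τ with
    commutes' := fun c => by
      have := h (algebraMap k L c)
      rwa [γ.commutes, j.commutes] at this }
  have e : (fl j H₀).map τ'.toAlgHom = fl j H₀ := by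
    rw [fl, IntermediateField.adjoin_map]
    congr 1
    refine Set.ext fun z => ⟨?_, ?_⟩
    · rintro ⟨_, ⟨a, rfl⟩ | hw, rfl⟩
      · exact Or.inl ⟨γ a, (h a).symm⟩
      · exact Or.inr ((hH _ hw).symm ▸ hw : τ _ ∈ H₀)
    · rintro (⟨a, rfl⟩ | hz)
      · exact ⟨_, Or.inl ⟨γ.symm a, rfl⟩, (h _).trans (by rw [γ.apply_symm_apply])⟩
      · exact ⟨z, Or.inr hz, hH z hz⟩
  exact ⟨(IntermediateField.intermediateFieldMap τ' _).trans (IntermediateField.equivOfEq e),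
    fun _ => rfl⟩

end Ine

open Ine in
theorem ine : IneStmt := by
  intro fx k L Ω E J _ _ _ _ _ _ _ _ _ _ _ _ ι H₀ S' C R' γ τ G hι hR hP hr hγ hτ h1 h2
  obtain ⟨i, hi⟩ := fu_eq ι H₀
  obtain ⟨θ, hθ⟩ := exists_res ι H₀ γ τ h1 h2
  have hp : fu ι H₀ R' ∈ Pts (fu ι H₀ C) := by rw [hi, hi]; exact pts_map i hP
  obtain ⟨M, _, _, I, _, ξ, ρ, S, hL⟩ := G.lc _ hp (by rw [hi]; exact rat_map i hr)
  refine fx k _ M Ω E I J _ _ ξ ρ S _ S' τ θ hL ⟨G.gc.mrk, G.gc.eq, ?_, fun _ v hv =>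
    G.gc.ld _ v (li_mono hp.2.1 hv)⟩ hR hτ hθ (fun a ha => Subtype.ext ((hθ a).symm.trans (h2 _ ha)))
    fun a => ⟨?_, ?_⟩
  · rintro c ⟨a, -, e⟩
    exact e ▸ hι a
  · rintro ⟨b, hb, e⟩
    exact ⟨γ b, (hγ b).1 hb, ((h1 b).symm.trans (congrArg τ e)).trans (hθ a)⟩
  · rintro ⟨b, hb, e⟩
    obtain ⟨b, rfl⟩ := γ.surjective b
    exact ⟨b, (hγ b).2 hb, τ.injective (((h1 b).trans e).trans (hθ a).symm)⟩

end Pool.Agent.MP_e8e0b6_ag.R2.C
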