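import Pool.Agent.MP_e8e0b6_ag.R2.C.GSpec
import Mathlib.RingTheory.Invariant.Basic
import Mathlib.RingTheory.Valuation.LocalSubring

/-!
Inertia elements lift to a larger Galois extension.
-/

set_option autoImplicit false

namespace Pool.Agent.MP_e8e0b6_ag.R2.C

open Pool.Agent.MP_19ffc6_ag.Res (In in_of_core)
open Polynomial

namespace Inl

theorem one {B Ω : Type} (G : Type) [CommRing B] [CommRing Ω] [IsDomain Ω] [Group G] [Finite G]
    [MulSemiringAction G B] (φ ψ : B →+* Ω) (h : ∀ b, (∀ g : G, g • b = b) → ψ b = φ b) (b : B) :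
    ∃ g : G, ψ b = φ (g • b) := by
  cases nonempty_fintype G
  have e : (MulSemiringAction.charpoly G b).map ψ = (MulSemiringAction.charpoly G b).map φ :=
    Polynomial.ext fun n => by
      rw [coeff_map, coeff_map]
      exact h _ (MulSemiringAction.smul_coeff_charpoly b n)
  have h1 : ((MulSemiringAction.charpoly G b).map ψ).eval (ψ b) = 0 := by
    rw [eval_map, eval₂_hom, MulSemiringAction.eval_charpoly, map_zero]
  rw [e, MulSemiringAction.charpoly_eq, Polynomial.map_prod, eval_prod,
    Finset.prod_eq_zero_iff] at h1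
  obtain ⟨g, -, hg⟩ := h1
  exact ⟨g, by simpa [sub_eq_zero] using hg⟩

/-- Two maps to a domain that agree on the invariants are conjugate. -/
theorem all {B Ω : Type} (G : Type) [CommRing B] [CommRing Ω] [IsDomain Ω] [Group G] [Finite G]
    [MulSemiringAction G B] (φ ψ : B →+* Ω) (h : ∀ b, (∀ g : G, g • b = b) → ψ b = φ b) :
    ∃ g : G, ∀ b, ψ b = φ (g • b) := by
  classical
  by_contra hn
  push Not at hn
  choose b hb using hn
  cases nonempty_fintype G
  let i : G → ℕ := fun g => (Fintype.equivFin G g : ℕ)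
  have hi : Function.Injective i := fun g g' e => (Fintype.equivFin G).injective (Fin.ext e)
  have hc : ∀ g, (∑ g', monomial (i g') (b g')).coeff (i g) = b g := fun g => by
    rw [finsetSum_coeff, Finset.sum_eq_single g (fun g' _ hg => by
      rw [coeff_monomial, if_neg fun e => hg (hi e)]) (by simp), coeff_monomial, if_pos rfl]
  obtain ⟨g, hg⟩ := one G (mapRingHom φ) (mapRingHom ψ) (fun p hp => Polynomial.ext fun n => by
    rw [coe_mapRingHom, coe_mapRingHom, coeff_map, coeff_map]
    exact h _ fun g => by rw [← coeff_smul, hp]) (∑ g', monomial (i g') (b g'))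
  have := congrArg (fun p => coeff p (i g)) hg
  simp only [coe_mapRingHom, coeff_map, coeff_smul, hc] at this
  exact hb g this

theorem exists_over {L' L : Type} [Field L'] [Field L] (f : L' →+* L) (W' : ValuationSubring L') :
    ∃ W : ValuationSubring L, W.comap f = W' := by
  obtain ⟨W, h, hl⟩ := IsLocalRing.exists_factor_valuationRing (f.comp W'.subtype)
  refine ⟨W, SetLike.ext fun z => ⟨fun hz => by_contra fun hn => ?_, fun hz => h ⟨z, hz⟩⟩⟩
  have h0 : z ≠ 0 := fun e => hn (e ▸ W'.zero_mem)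
  have h1 := (W'.mem_or_inv_mem z).resolve_left hn
  obtain ⟨u, hu⟩ := isUnit_iff_exists_inv.1 (hl.1 ⟨z⁻¹, h1⟩ (isUnit_iff_exists_inv.2
    ⟨⟨f z, hz⟩, Subtype.ext (by
      change f z⁻¹ * f z = 1
      rw [← map_mul, inv_mul_cancel₀ h0, map_one])⟩))
  have h2 : z⁻¹ * (u : L') = 1 := congrArg Subtype.val hu
  rw [inv_mul_eq_one₀ h0] at h2
  exact hn (h2 ▸ u.2)

end Inl

theorem inl : InlStmt := by
  intro K L' L _ _ _ _ _ _ _ _ _ W' g' hg'
  obtain ⟨W, rfl⟩ := Inl.exists_over (algebraMap L' L) W'
  let B : Subring L :=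
    { carrier := {s | ∀ g : L ≃ₐ[K] L, g • s ∈ W}
      mul_mem' := fun ha hb g => by rw [smul_mul']; exact mul_mem (ha g) (hb g)
      one_mem' := fun g => by rw [smul_one]; exact one_mem _
      add_mem' := fun ha hb g => by rw [smul_add]; exact add_mem (ha g) (hb g)
      zero_mem' := fun g => by rw [smul_zero]; exact zero_mem _
      neg_mem' := fun ha g => by rw [smul_neg]; exact neg_mem (ha g) }
  have : IsInvariantSubring (L ≃ₐ[K] L) B := ⟨fun m x hx g => by rw [← mul_smul]; exact hx _⟩
  let φ : B →+* IsLocalRing.ResidueField W := (IsLocalRing.residue W).comp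
    (B.subtype.codRestrict W fun s => by simpa using s.2 1)
  have hφ : ∀ a b : B, φ a = φ b ↔ W.valuation ((a : L) - b) < 1 := fun a b => by
    rw [← sub_eq_zero, ← map_sub]
    exact (IsLocalRing.residue_eq_zero_iff _).trans (W.valuation_lt_one_iff _)
  let E := (IsScalarTower.toAlgHom K L' L).fieldRange
  let g₀ : L ≃ₐ[K] L := g'.liftNormal L
  have h0 : ∀ z, g₀ (algebraMap L' L z) = algebraMap L' L (g' z) := g'.liftNormal_commutes L
  obtain ⟨h, hh⟩ := Inl.all E.fixingSubgroup φ
    (φ.comp (MulSemiringAction.toRingHom _ B g₀)) fun b hb => by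
      have h1 : (b : L) ∈ E := by
        rw [← IsGalois.fixedField_fixingSubgroup E, IntermediateField.mem_fixedField_iff]
        exact fun f hf => congrArg Subtype.val (hb ⟨f, hf⟩)
      obtain ⟨z, hz⟩ := h1
      have hz' : algebraMap L' L z = b := hz
      have h2 := hg' z (by
        rw [ValuationSubring.mem_comap, hz']
        simpa using b.2 1)
      refine (hφ _ _).2 ?_
      change W.valuation (g₀ (b : L) - b) < 1
      rw [← hz', h0, ← map_sub]
      rw [← ValuationSubring.mem_nonunits_iff, ValuationSubring.mem_nonunits_iff_or] at h2 ⊢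
      rwa [← map_inv₀, map_eq_zero]
  refine ⟨W, g₀ * h.1⁻¹, rfl, in_of_core W _ fun s hs => ?_, fun z => ?_⟩
  · have h1 := hh (h⁻¹ • (⟨s, hs⟩ : B))
    rw [smul_inv_smul] at h1
    exact (hφ _ _).1 h1
  · rw [AlgEquiv.mul_apply, (IntermediateField.mem_fixingSubgroup_iff E _).1 (inv_mem h.2)
      (algebraMap L' L z) ⟨z, rfl⟩, h0]

end Pool.Agent.MP_e8e0b6_ag.R2.C
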