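import Pool.Agent.MP_e8e0b6_ag.R2.C.GSpec
import Mathlib.AlgebraicGeometry.Normalization
import Mathlib.AlgebraicGeometry.Noetherian
import Mathlib.AlgebraicGeometry.Morphisms.IsIso

/-!
The normalization of a simply connected scheme in an unramified extension.
-/

set_option autoImplicit false

open AlgebraicGeometry CategoryTheory

namespace Pool.Agent.MP_e8e0b6_ag.R2.C

open Pool.Agent.MP_79c67d_ag Pool.Agent.MP_20d318_ag Pool.Agent.MP_20d318_ag.AG
  Pool.Agent.MP_20d318_ag.BV Pool.Agent.MP_20d318_ag.CB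
open Pool.Agent.MP_19ffc6_ag.Res (Fix Dv In)

namespace Nor

/-- Integral closures of isomorphic extensions are isomorphic. -/
theorem exists_equiv {R T A L : Type} [CommRing R] [CommRing T] [CommRing A] [CommRing L]
    [Algebra R T] [Algebra A L] (α : R ≃+* A) (β : T ≃+* L)
    (h : ∀ r, β (algebraMap R T r) = algebraMap A L (α r)) :
    ∃ γ : integralClosure R T ≃+* integralClosure A L,
      ∀ r, γ (algebraMap R _ r) = algebraMap A _ (α r) := by
  have h' : ∀ a, β.symm (algebraMap A L a) = algebraMap R T (α.symm a) := fun a => by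
    rw [β.symm_apply_eq, h, α.apply_symm_apply]
  refine ⟨{ toFun := fun x => ⟨β x, IsIntegral.map_of_comp_eq (α : R →+* A) (β : T →+* L)
              (RingHom.ext fun r => (h r).symm) x.2⟩
            invFun := fun x => ⟨β.symm x, IsIntegral.map_of_comp_eq (α.symm : A →+* R)
              (β.symm : L →+* T) (RingHom.ext fun r => (h' r).symm) x.2⟩
            left_inv := fun x => Subtype.ext (β.symm_apply_apply _)
            right_inv := fun x => Subtype.ext (β.apply_symm_apply _)
            map_mul' := fun x y => Subtype.ext (map_mul β _ _)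
            map_add' := fun x y => Subtype.ext (map_add β _ _) }, fun r => Subtype.ext (h r)⟩

set_option backward.isDefEq.respectTransparency false in
/-- The normalization over an affine open set. -/
theorem restrict_iff {X Y : Scheme.{0}} (f : X ⟶ Y) [QuasiCompact f] [QuasiSeparated f]
    (P : MorphismProperty Scheme.{0}) [P.RespectsIso] {U : Y.Opens} (hU : IsAffineOpen U) :
    P (f.fromNormalization ∣_ U) ↔ P (Spec.map (f.normalizationDiagramMap.app (.op U))) := by
  let e := IsOpenImmersion.isoOfRangeEq (f.fromNormalization ⁻¹ᵁ U).ι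
    (f.normalizationOpenCover.f ⟨U, hU⟩)
      (by simpa using congr($(f.fromNormalization_preimage ⟨U, hU⟩).1))
  have key : (e.inv ≫ f.fromNormalization ∣_ U) ≫ hU.isoSpec.hom =
      Spec.map (f.normalizationDiagramMap.app (.op U)) := by
    rw [← cancel_mono hU.fromSpec]
    refine Eq.trans ?_ (f.ι_fromNormalization ⟨U, hU⟩)
    simp [IsAffineOpen.isoSpec_hom, e]
  rw [← key, P.cancel_right_of_respectsIso, P.cancel_left_of_respectsIso]

/-- The sections over a chart. -/
theorem chart {A L : Type} [CommRing A] [CommRing L] {S : Scheme.{0}} (φ : A →+* L)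
    (j : Spec (.of A) ⟶ S) [IsOpenImmersion j] :
    ∃ (α : Γ(S, j ''ᵁ ⊤) ≅ .of A) (β : Γ(Spec (.of L), (sp φ ≫ j) ⁻¹ᵁ j ''ᵁ ⊤) ≅ .of L),
      (sp φ ≫ j).app (j ''ᵁ ⊤) ≫ β.hom = α.hom ≫ CommRingCat.ofHom φ := by
  have h : (⊤ : (Spec (.of L)).Opens) = (sp φ ≫ j) ⁻¹ᵁ j ''ᵁ ⊤ := by
    rw [Scheme.Hom.comp_preimage, Scheme.Hom.preimage_image_eq]
    rfl
  refine ⟨j.appIso ⊤ ≪≫ Scheme.ΓSpecIso _,
    (Spec (.of L)).presheaf.mapIso (eqToIso h).op ≪≫ Scheme.ΓSpecIso _, ?_⟩
  simp only [Iso.trans_hom, Category.assoc, Functor.mapIso_hom, Iso.op_hom, eqToIso.hom]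
  rw [← Scheme.ΓSpecIso_naturality, Scheme.Hom.appIso_hom', ← Category.assoc, ← Category.assoc]
  congr 1

set_option backward.isDefEq.respectTransparency false in
/-- The normalization over a chart. -/
theorem key {A L : Type} [CommRing A] [Field L] [Algebra A L] {S : Scheme.{0}}
    (q : Spec (.of L) ⟶ S) (j : Spec (.of A) ⟶ S) [IsOpenImmersion j]
    (h : sp (algebraMap A L) ≫ j = q) (P : MorphismProperty Scheme.{0}) [P.RespectsIso] :
    P (q.fromNormalization ∣_ (j ''ᵁ ⊤)) ↔ P (sp (algebraMap A (integralClosure A L))) := by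
  subst h
  rw [restrict_iff _ P ((isAffineOpen_top _).image_of_isOpenImmersion j)]
  obtain ⟨α, β, e⟩ := chart (algebraMap A L) j
  let := ((sp (algebraMap A L) ≫ j).app (j ''ᵁ ⊤)).hom.toAlgebra
  obtain ⟨γ, hγ⟩ := exists_equiv α.commRingCatIsoToRingEquiv β.commRingCatIsoToRingEquiv
    fun r => congrArg (fun g => g.hom r) e
  have e2 : (sp (algebraMap A L) ≫ j).normalizationDiagramMap.app (.op (j ''ᵁ ⊤)) ≫
      γ.toCommRingCatIso.hom =
        α.hom ≫ CommRingCat.ofHom (algebraMap A (integralClosure A L)) :=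
    CommRingCat.hom_ext (RingHom.ext hγ)
  have e3 := congrArg Spec.map e2
  rw [Spec.map_comp, Spec.map_comp] at e3
  rw [← P.cancel_left_of_respectsIso (Spec.map γ.toCommRingCatIso.hom), e3,
    P.cancel_right_of_respectsIso]

end Nor

theorem nor : NorStmt := by
  intro L _ S q hS hc A _ _ j hj hq z hz
  have hm : ∀ {A : Type} [CommRing A] (j : Spec (.of A) ⟶ S) [IsOpenImmersion j] (x : S),
      x ∈ Set.range j → x ∈ j ''ᵁ ⊤ := by
    rintro A _ j _ _ ⟨y, rfl⟩
    exact ⟨y, trivial, rfl⟩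
  have h1 : IsFinite q.fromNormalization := by
    refine IsZariskiLocalAtTarget.of_forall_exists_morphismRestrict (P := @IsFinite) fun x => ?_
    obtain ⟨B, _, _, i, hi, hx, e, hf, -⟩ := hc x
    exact ⟨_, hm i x hx, (Nor.key q i e @IsFinite).2
      ((IsFinite.SpecMap_iff _).2 (RingHom.finite_algebraMap.2 hf))⟩
  have h2 : Etale q.fromNormalization := by
    refine IsZariskiLocalAtTarget.of_forall_exists_morphismRestrict (P := @Etale) fun x => ?_
    obtain ⟨B, _, _, i, hi, hx, e, -, hf⟩ := hc x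
    exact ⟨_, hm i x hx, (Nor.key q i e @Etale).2
      ((HasRingHomProperty.Spec_iff (P := @Etale)).2 (RingHom.etale_algebraMap.2 hf))⟩
  have h3 := hS _ _ h1 h2 inferInstance
  have h4 : IsIso (sp (algebraMap A (integralClosure A L))) :=
    (Nor.key q j hq (.isomorphisms _)).1
      (inferInstanceAs (IsIso (q.fromNormalization ∣_ (j ''ᵁ ⊤))))
  obtain ⟨a, ha⟩ := (isIso_SpecMap_iff.1 h4).2 ⟨z, hz⟩
  exact ⟨a, congrArg Subtype.val ha⟩

end Pool.Agent.MP_e8e0b6_ag.R2.C
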