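import Pool.Agent.MP_e8e0b6_ag.R2.C.GSpec

/-!
Row ONE: automorphisms over a field of definition act trivially on classes.
-/

set_option autoImplicit false

namespace Pool.Agent.MP_e8e0b6_ag.R2.C

open Pool.Agent.MP_79c67d_ag Pool.Agent.MP_20d318_ag Pool.Agent.MP_20d318_ag.AG
  Pool.Agent.MP_20d318_ag.BV Pool.Agent.MP_20d318_ag.CB

namespace One

theorem tr {Ω E : Type} [Field Ω] [Field E] [Algebra Ω E] {τ : E ≃+* E} {O O' : Subalgebra Ω E}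
    (h : ∀ a, a ∈ O' ↔ τ a ∈ O) {S : Set E} {g : E} (hg : Gn S O' g) : Gn (τ '' S) O (τ g) := by
  obtain ⟨h1, a, ha, h2⟩ := hg
  refine ⟨?_, τ a, ⟨a, ha, rfl⟩, ?_⟩
  · rintro _ ⟨b, hb, rfl⟩
    rw [← map_div₀]
    exact (h _).1 (h1 b hb)
  · rw [← map_div₀]
    refine ⟨(map_ne_zero _).2 h2.1, (h _).1 h2.2.1, ?_⟩
    rw [← map_inv₀]
    exact (h _).1 h2.2.2

end One

theorem one : OneStmt := by
  intro tw k F Ω E J _ _ _ _ _ _ _ _ μ H₀ S' τ hS hT hR hP hH hμ U' c _ hc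
  obtain ⟨φ, h0, hφ⟩ := hc
  obtain ⟨U, V, c₁, c₂, -, -, ⟨φ₁, n1, h1⟩, ⟨φ₂, n2, h2⟩, rfl⟩ := hR c
  have fx : ∀ W : Set F, τ '' (μ '' W) = μ '' W := fun W => by
    rw [Set.image_image]
    exact Set.image_congr fun z _ => hμ z
  have p0 : τ (φ * φ₂ / φ₁) ≠ 0 := (map_ne_zero _).2 (div_ne_zero (mul_ne_zero h0 n2) n1)
  refine ⟨τ (φ * φ₂ / φ₁) * φ₁ / φ₂, div_ne_zero (mul_ne_zero p0 n1) n2, fun O hO => ?_⟩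
  obtain ⟨O', hO', ht⟩ := tw Ω E H₀ τ hP hH O (hT ▸ hO)
  rw [← hT] at hO'
  have g0 := One.tr ht (hφ O' hO')
  have g1 := One.tr ht (h1 O' hO')
  have g2 := One.tr ht (h2 O' hO')
  rw [fx] at g1 g2
  have u := ((h1 O hO).unit g1).mul (g2.unit (h2 O hO))
  have l1 := S'.lb_ne (hS.a1.gne O hO) c₁
  have l2 := S'.lb_ne (hS.a1.gne O hO) c₂
  have m1 := S'.lb_ne (hS.a1.gne O' hO') c₁
  have m2 := S'.lb_ne (hS.a1.gne O' hO') c₂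
  have e : φ * (S'.lb (c₁ - c₂) O')⁻¹ =
      φ * φ₂ / φ₁ * (φ₁ * (S'.lb c₁ O')⁻¹ / (φ₂ * (S'.lb c₂ O')⁻¹)) := by
    rw [S'.lb_sub (hS.a1.gne O' hO')]
    field_simp
  refine g0.of_unit ?_
  have t1 := g1.ne
  have t2 := g2.ne
  rw [e, map_mul, map_div₀ τ (φ₁ * _), S'.lb_sub (hS.a1.gne O hO)]
  generalize τ (φ * φ₂ / φ₁) = ψ at p0 ⊢
  generalize τ (φ₁ * (S'.lb c₁ O')⁻¹) = a₁ at t1 u ⊢
  generalize τ (φ₂ * (S'.lb c₂ O')⁻¹) = a₂ at t2 u ⊢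
  have e2 : ψ * φ₁ / φ₂ * (S'.lb c₁ O / S'.lb c₂ O)⁻¹ / (ψ * (a₁ / a₂)) =
      φ₁ * (S'.lb c₁ O)⁻¹ / a₁ * (a₂ / (φ₂ * (S'.lb c₂ O)⁻¹)) := by
    field_simp
  rw [e2]
  exact u

end Pool.Agent.MP_e8e0b6_ag.R2.C
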