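import Pool.Agent.MP_e8e0b6_ag.R2.C.GSpec
import Mathlib.RingTheory.Jacobson.Ring
import Mathlib.RingTheory.DedekindDomain.IntegralClosure

/-!
An inertia element fixes a smooth rational point.
-/

set_option autoImplicit false

namespace Pool.Agent.MP_e8e0b6_ag.R2.C

open Pool.Agent.MP_79c67d_ag Pool.Agent.MP_20d318_ag Pool.Agent.MP_20d318_ag.AG
  Pool.Agent.MP_20d318_ag.BV Pool.Agent.MP_20d318_ag.CB
open Pool.Agent.MP_19ffc6_ag.Res (Fix Dv In)

namespace Pt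

variable {k L : Type} [Field k] [Field L] [Algebra k L]

/-- A rational point in the closure of a point, outside a hypersurface. -/
theorem exists_rat [IsAlgClosed k] {B D : Subalgebra k L} [Algebra.FiniteType k B]
    (hD : D ∈ Pts B) {f : L} (hf : f ∈ B) (hu : IsU D f) :
    ∃ O ∈ Pts B, RatPt O ∧ IsU O f ∧ ∀ b ∈ B, b ∈ mx D → b ∈ mx O := by
  have := hD.1
  have : IsJacobsonRing B := isJacobsonRing_of_finiteType (A := k)
  let q : Ideal B := (IsLocalRing.maximalIdeal D).comap (Subalgebra.inclusion hD.2.1)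
  have hq : ∀ b : B, b ∈ q ↔ (b : L) ∈ mx D := fun b =>
    (mem_mx_iff (Subalgebra.inclusion hD.2.1 b)).symm
  have hj : q.jacobson = q := IsJacobsonRing.out inferInstance
    (Ideal.IsPrime.isRadical (Ideal.comap_isPrime _ _))
  have h1 : (⟨f, hf⟩ : B) ∉ q.jacobson := by
    rw [hj, hq]
    exact hu.not_mx
  obtain ⟨m, ⟨hle, hm⟩, hfm⟩ : ∃ m : Ideal B, (q ≤ m ∧ m.IsMaximal) ∧ (⟨f, hf⟩ : B) ∉ m := by
    by_contra hn
    exact h1 (Ideal.mem_sInf.2 fun {m} hm => by_contra fun h => hn ⟨m, hm, h⟩)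
  obtain ⟨O, hO, hU⟩ := exists_loc B {x | ∃ h : x ∈ B, (⟨x, h⟩ : B) ∈ m} ⟨B.zero_mem, m.zero_mem⟩
    (fun ⟨_, h⟩ => hm.ne_top ((Ideal.eq_top_iff_one _).2 h))
    (fun a ha b hb ⟨_, h1⟩ ⟨_, h2⟩ => ⟨B.add_mem ha hb, m.add_mem h1 h2⟩)
    (fun a ha b hb => ⟨fun ⟨_, h1⟩ => (hm.isPrime.mem_or_mem (x := ⟨a, ha⟩) (y := ⟨b, hb⟩) h1).imp
      (fun h => ⟨ha, h⟩) fun h => ⟨hb, h⟩, fun h1 => ⟨B.mul_mem ha hb, h1.elim
        (fun ⟨_, h⟩ => m.mul_mem_right (⟨b, hb⟩ : B) h) fun ⟨_, h⟩ =>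
          m.mul_mem_left (⟨a, ha⟩ : B) h⟩⟩)
  have hmx : ∀ b : B, b ∈ m → (b : L) ∈ mx O := fun b hb =>
    ⟨hO.2.1 b.2, fun h => (hU b b.2).1 h ⟨b.2, hb⟩⟩
  refine ⟨O, hO, ratPt_of hO (Algebra.adjoin_eq B).symm fun g hg => ?_,
    (hU f hf).2 fun ⟨_, h⟩ => hfm h, fun b hb h => hmx ⟨b, hb⟩ (hle ((hq _).2 h))⟩
  let := Ideal.Quotient.field m
  have : Module.Finite k (B ⧸ m) := finite_of_finite_type_of_isJacobsonRing k (B ⧸ m)
  obtain ⟨c, hc⟩ := (IsAlgClosed.algebraMap_bijective_of_isIntegral (k := k) (K := B ⧸ m)).2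
    (Ideal.Quotient.mk m ⟨g, hg⟩)
  exact ⟨c, hmx (⟨g, hg⟩ - algebraMap k B c) (Ideal.Quotient.eq.1 hc.symm)⟩

theorem map_mem {B O : Subalgebra k L} (hO : O ∈ Pts B) (σ : L →+* L) (h1 : ∀ b ∈ B, σ b ∈ B)
    (h2 : ∀ b ∈ B, IsU O b → IsU O (σ b)) {a : L} (ha : a ∈ O) : σ a ∈ O := by
  obtain ⟨p, hp, q, hq, hu, rfl⟩ := hO.2.2 a ha
  rw [map_div₀]
  exact (h2 q hq hu).div_mem (hO.2.1 (h1 p hp))

end Pt

theorem pt : PtStmt := by
  intro dvr smo k K L _ _ _ _ _ _ _ _ _ _ _ R W γ hF hT hN hD hI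
  have : CharZero K := charZero_of_injective_algebraMap (algebraMap k K).injective
  have : IsFractionRing R K := IsFractionRing.of_field R K fun z => by
    obtain ⟨a, ha, b, hb, -, e⟩ := hF z
    exact ⟨⟨a, ha⟩, ⟨b, hb⟩, e⟩
  have : IsNoetherianRing R := Algebra.FiniteType.isNoetherianRing k R
  have h1 : Module.Finite R (integralClosure R L) := IsIntegralClosure.finite R K L _
  have h2 : Algebra.FiniteType k (integralClosure R L) :=
    Algebra.FiniteType.trans hT inferInstance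
  have h3 : IsFractionRing (integralClosure R L) L :=
    integralClosure.isFractionRing_of_finite_extension K L
  obtain ⟨B, hB⟩ : ∃ B : Subalgebra k L, B = (integralClosure R L).restrictScalars k := ⟨_, rfl⟩
  have hm : ∀ z, z ∈ B ↔ IsIntegral R z := fun z => by rw [hB]; rfl
  have h4 : Algebra.FiniteType k B := by rw [hB]; exact h2
  have h5 : Frac B := fun z => by
    obtain ⟨a, b, hb, e⟩ := IsFractionRing.div_surjective (integralClosure R L) z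
    exact ⟨a, (hm _).2 a.2, b, (hm _).2 b.2, fun h => nonZeroDivisors.ne_zero hb (Subtype.ext h),
      e.symm⟩
  have h6 : ∀ z : L, z ∈ B ↔ IsIntegral (R.map (IsScalarTower.toAlgHom k K L)) z := fun z =>
    (hm z).trans (RingEquiv.isIntegral_iff (R.equivMapOfInjective (IsScalarTower.toAlgHom k K L)
      (algebraMap K L).injective).toRingEquiv (RingHom.ext fun _ => rfl) z)
  obtain ⟨D, hD1, hU, ϖ, hϖ, h0, hd⟩ := dvr k L (L ≃ₐ[K] L) _ B W
    (Algebra.FiniteType.isNoetherianRing k B) h5 h6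
    (by rintro _ ⟨r, -, rfl⟩ g; exact g.commutes r) hD
  obtain ⟨f, hf, hfu, hsm⟩ := smo k L B D ϖ h4 hD1 hϖ h0 hd
  obtain ⟨O, hO, hr, hOf, hmx⟩ := Pt.exists_rat hD1 hf hfu
  have hW : ∀ b ∈ B, b ∈ W := by
    intro b hb
    rcases isU_or_mx (hD1.2.1 hb) with h | h
    · exact (W.valuation_le_one_iff b).1 ((hU b hb).1 h).le
    · have := (W.valuation_le_one_iff _).1
        ((hU _ (B.add_mem B.one_mem hb)).1 (isU_one.add_mx hD1.1 h)).le
      simpa using W.toSubring.sub_mem this W.one_mem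
  have hσ : ∀ σ : L ≃ₐ[K] L, ∀ b ∈ B, σ b ∈ B := fun σ b hb =>
    (hm _).2 (((hm b).1 hb).map (σ.restrictScalars R : L →ₐ[R] L))
  have hγ : ∀ b ∈ B, γ b - b ∈ mx O := fun b hb => by
    have hb' := B.sub_mem (hσ γ b hb) hb
    exact hmx _ hb' ⟨hD1.2.1 hb', fun h => (hI b (hW b hb)).ne ((hU _ hb').1 h)⟩
  refine ⟨B ⊔ Algebra.adjoin k {f⁻¹}, O, le_trans (fun z hz => (h6 z).2
    (isIntegral_algebraMap (x := (⟨z, hz⟩ : R.map (IsScalarTower.toAlgHom k K L))))) le_sup_left,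
    hsm, fun z => ?_, Pts_of_le hO le_sup_left (sup_le hO.2.1 (Algebra.adjoin_le ?_)), hr,
    fun a => ⟨fun ha => ?_, fun ha => ?_⟩⟩
  · obtain ⟨a, ha, b, hb, h⟩ := h5 z
    have hle : B ≤ B ⊔ Algebra.adjoin k {f⁻¹} := le_sup_left
    exact ⟨a, hle ha, b, hle hb, h⟩
  · rintro _ rfl
    exact hOf.inv_mem
  · refine Pt.map_mem hO (γ : L →+* L) (hσ γ) (fun b hb hu => ?_) ha
    have := hu.add_mx hO.1 (hγ b hb)
    rwa [add_sub_cancel] at this
  · have := Pt.map_mem hO (γ.symm : L →+* L) (hσ γ.symm) (fun b hb hu => by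
      have h := hu.add_mx hO.1 (mx_neg (hγ _ (hσ γ.symm b hb)))
      rwa [γ.apply_symm_apply, neg_sub, add_sub_cancel] at h) ha
    exact (γ.symm_apply_apply a) ▸ this

end Pool.Agent.MP_e8e0b6_ag.R2.C
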