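import Pool.Agent.MP_e8e0b6_ag.R2.C.GSpec

/-!
The Galois group is generated by divisorial inertia.
-/

set_option autoImplicit false

open AlgebraicGeometry CategoryTheory

namespace Pool.Agent.MP_e8e0b6_ag.R2.C

open Pool.Agent.MP_79c67d_ag Pool.Agent.MP_20d318_ag Pool.Agent.MP_20d318_ag.AG
  Pool.Agent.MP_20d318_ag.BV Pool.Agent.MP_20d318_ag.CB
open Pool.Agent.MP_19ffc6_ag.Res (Fix Dv In val_le_iff val_conj)

namespace PurA

variable {K L' L : Type} [Field K] [Field L'] [Field L] [Algebra K L'] [Algebra L' L] [Algebra K L]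

theorem in_conj {G : Type} [Group G] [MulSemiringAction G L] {W W₁ : ValuationSubring L} {γ b : G}
    (h : In W γ) (e : ∀ z, z ∈ W₁ ↔ b⁻¹ • z ∈ W) : In W₁ (b * γ * b⁻¹) := fun z hz => by
  have h1 := h _ ((e z).1 hz)
  have h2 := val_conj e 1 ((b * γ * b⁻¹) • z - z)
  rw [smul_one, map_one, map_one, smul_sub, mul_smul, mul_smul, inv_smul_smul] at h2
  rwa [mul_smul, mul_smul, ← not_le, h2, not_le]

theorem val_up (W : ValuationSubring L) (a b : L') :
    (W.comap (algebraMap L' L)).valuation a ≤ (W.comap (algebraMap L' L)).valuation b ↔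
      W.valuation (algebraMap L' L a) ≤ W.valuation (algebraMap L' L b) := by
  by_cases hb : b = 0
  · simp [hb]
  · rw [val_le_iff _ _ hb, val_le_iff _ _ ((map_ne_zero _).2 hb), ← map_div₀]
    rfl

variable [IsScalarTower K L' L] [FiniteDimensional K L] [IsGalois K L]

theorem dv_up {R : Subring L'} {W : ValuationSubring L}
    (h : Dv (L' ≃ₐ[K] L') R (W.comap (algebraMap L' L))) :
    Dv (L ≃ₐ[K] L) (R.map (algebraMap L' L)) W := by
  have he : ∀ a b, (W.comap (algebraMap L' L)).valuation a =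
      (W.comap (algebraMap L' L)).valuation b →
        W.valuation (algebraMap L' L a) = W.valuation (algebraMap L' L b) := fun a b e =>
    le_antisymm ((val_up W a b).1 e.le) ((val_up W b a).1 e.ge)
  refine ⟨?_, fun z hz hf => ?_, ?_⟩
  · rintro _ ⟨r, hr, rfl⟩
    exact h.le r hr
  · obtain ⟨c, rfl⟩ := (IsGalois.mem_range_algebraMap_iff_fixed (F := K) z).2 hf
    rw [IsScalarTower.algebraMap_apply K L' L] at hz ⊢
    obtain ⟨u, u1, u2, u3⟩ := h.loc _ hz fun g => g.commutes c
    exact ⟨_, ⟨u, u1, rfl⟩, by simpa using he u 1 (by rw [u2, map_one]), _, u3, map_mul _ _ _⟩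
  · obtain ⟨π, p1, p2, p3, p4⟩ := h.unif
    refine ⟨_, ⟨π, p1, rfl⟩, (map_ne_zero _).2 p2, ?_, ?_⟩
    · have := val_up W 1 π
      rw [map_one, map_one, map_one] at this
      rwa [← not_le, ← this, not_le]
    · rintro _ ⟨r, hr, rfl⟩ h0
      refine (p4 r hr ((map_ne_zero _).1 h0)).imp fun n hn => ?_
      rw [← map_pow, ← map_pow]
      exact he _ _ (by rw [hn, map_pow])

theorem core (h1 : Chs) (h2 : NorStmt) (h3 : Aje) (h4 : InlStmt) {k A : Type} [Field k]
    [CharZero k] [IsAlgClosed k] [Algebra k K] [Algebra k L] [IsScalarTower k K L] [Algebra k L']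
    [IsScalarTower k K L'] [IsGalois K L'] [CommRing A] [Algebra k A] {S : Scheme.{0}}
    {f : S ⟶ Spec (.of k)} {q : Spec (.of K) ⟶ S} {g : A →ₐ[k] K} {j : Spec (.of A) ⟶ S}
    {N : Subgroup (L ≃ₐ[K] L)} (hf : SmoothVariety f) (hS : SimplyConnected S)
    (hq : q ≫ f = sp (algebraMap k K)) (hc : Ct q g j)
    (hN : ∀ (A' : Type) [CommRing A'] [Algebra k A'] (g' : A' →ₐ[k] K) (j' : Spec (.of A') ⟶ S),
      Ct q g' j' → Co k A' → ∀ W, Dv (L ≃ₐ[K] L)
        (g'.range.map (IsScalarTower.toAlgHom k K L)).toSubring W → ∀ γ, In W γ → γ ∈ N)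
    (hL : ∀ γ ∈ N.normalCore, ∀ z, γ (algebraMap L' L z) = algebraMap L' L z) (z : L') :
    z ∈ Set.range (algebraMap K L') := by
  have : FiniteDimensional K L' := FiniteDimensional.left K L' L
  let _ : Algebra A K := (g : A →+* K).toAlgebra
  let _ : Algebra A L' := ((algebraMap K L').comp (g : A →+* K)).toAlgebra
  have : IsScalarTower A K L' := .of_algebraMap_eq fun _ => rfl
  have : IsDomain A := hc.inj.isDomain (g : A →+* K)
  have : FaithfulSMul A K := (faithfulSMul_iff_algebraMap_injective A K).2 hc.inj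
  have : IsFractionRing A K := .of_field A K fun c => by
    obtain ⟨_, ⟨a, rfl⟩, _, ⟨b, rfl⟩, -, e⟩ := hc.frac c
    exact ⟨a, b, e⟩
  obtain ⟨y, hy, hi⟩ := ((IsFractionRing.isAlgebraic_iff A K L').2
    (Algebra.IsAlgebraic.isAlgebraic z)).exists_integral_multiple
  obtain ⟨a, ha⟩ := h2 L' S (sp (algebraMap K L') ≫ q) hS (fun x => by
    obtain ⟨A', _, _, g', j', c1, c2, c3⟩ := h1 k K A S f q g j hf hq hc x
    let _ : Algebra A' L' := ((algebraMap K L').comp (g' : A' →+* K)).toAlgebra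
    have e : ∀ r, algebraMap A' L' r = algebraMap K L' (g' r) := fun _ => rfl
    have : IsScalarTower k A' L' := .of_algebraMap_eq fun c => by
      rw [e, g'.commutes, IsScalarTower.algebraMap_apply k K L']
    refine ⟨A', _, _, j', c1.opn, c3, by rw [← c1.eq, sp_comp_assoc],
      h3 k A' L' (L' ≃ₐ[K] L') c2 ((algebraMap K L').injective.comp c1.inj)
        (fun r σ => σ.commutes _) (fun w hw => ?_) fun W' hW σ hσ => ?_⟩
    · obtain ⟨c, rfl⟩ := (IsGalois.mem_range_algebraMap_iff_fixed (F := K) w).2 hw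
      obtain ⟨_, ⟨a, rfl⟩, _, ⟨b, rfl⟩, hb, rfl⟩ := c1.frac c
      exact ⟨a, b, fun h0 => hb (by rw [h0, map_zero]), by
        rw [e, e, ← map_mul]; exact congrArg _ (mul_div_cancel₀ _ hb)⟩
    · obtain ⟨W, γ, rfl, i1, i2⟩ := h4 K L' L W' σ hσ
      have e2 : (algebraMap A' L').range.map (algebraMap L' L) =
          (g'.range.map (IsScalarTower.toAlgHom k K L)).toSubring := by
        ext w
        constructor
        · rintro ⟨_, ⟨r, rfl⟩, rfl⟩
          exact ⟨_, ⟨r, rfl⟩, IsScalarTower.algebraMap_apply K L' L _⟩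
        · rintro ⟨_, ⟨r, rfl⟩, rfl⟩
          exact ⟨_, ⟨r, rfl⟩, (IsScalarTower.algebraMap_apply K L' L _).symm⟩
      have d := e2 ▸ dv_up (K := K) hW
      have hγ : γ ∈ N.normalCore := fun b => by
        obtain ⟨W₁, d1, d2⟩ := d.conj (by
          rintro _ ⟨c, -, rfl⟩ τ
          exact τ.commutes c) b⁻¹
        exact hN A' g' j' c1 c2 W₁ d1 _ (in_conj i1 d2)
      exact AlgEquiv.ext fun w => (algebraMap L' L).injective ((i2 w).symm.trans (hL γ hγ w)))
    A j hc.opn (by rw [← hc.eq, sp_comp_assoc]) _ hi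
  have h0 : algebraMap A L' y ≠ 0 := fun e =>
    hy (((algebraMap K L').injective.comp hc.inj) (e.trans (map_zero (algebraMap A L')).symm))
  refine ⟨g a / g y, ?_⟩
  rw [map_div₀]
  exact (div_eq_iff h0).2 (ha.trans ((Algebra.smul_def y z).trans (mul_comm _ _)))

end PurA

theorem pur : PurStmt := by
  intro h1 h2 h3 h4 k K L A _ _ _ _ _ _ _ _ _ _ _ _ _ S f q g j N hf hS hq hc hN
  have h5 := PurA.core (L' := IntermediateField.fixedField N.normalCore) h1 h2 h3 h4 hf hS hq hc hN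
    fun γ hγ z => (IntermediateField.mem_fixedField_iff _ _).1 z.2 γ hγ
  refine eq_top_iff.2 fun γ _ => N.normalCore_le ?_
  rw [← IntermediateField.fixingSubgroup_fixedField N.normalCore,
    IntermediateField.mem_fixingSubgroup_iff]
  intro z hz
  obtain ⟨c, hc⟩ := h5 ⟨z, hz⟩
  rw [show z = algebraMap K L c from (congrArg Subtype.val hc).symm]
  exact γ.commutes c

end Pool.Agent.MP_e8e0b6_ag.R2.C
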