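import Pool.Agent.MP_e8e0b6_ag.R2.C.GSpec

/-!
A finite set of constants over which all classes are defined.
-/

set_option autoImplicit false

namespace Pool.Agent.MP_e8e0b6_ag.R2.C

open Pool.Agent.MP_79c67d_ag Pool.Agent.MP_20d318_ag Pool.Agent.MP_20d318_ag.AG
  Pool.Agent.MP_20d318_ag.BV Pool.Agent.MP_20d318_ag.CB

namespace Rat

variable {Ω E : Type} [Field Ω] [Field E] [Algebra Ω E] {H₀ : Set E}

/-- `f` is a rational function of finitely many constants and of `H₀`. -/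
def Df (Ω : Type) [Field Ω] [Algebra Ω E] (H₀ : Set E) (f : E) : Prop :=
  ∃ Z : Set Ω, Z.Finite ∧ ∀ K : Subfield E, (∀ z ∈ Z, algebraMap Ω E z ∈ K) → H₀ ⊆ K → f ∈ K

theorem Df.op {a b c : E} (ha : Df Ω H₀ a) (hb : Df Ω H₀ b)
    (h : ∀ K : Subfield E, a ∈ K → b ∈ K → c ∈ K) : Df Ω H₀ c := by
  obtain ⟨Z, hZ, h1⟩ := ha
  obtain ⟨Z', hZ', h2⟩ := hb
  exact ⟨Z ∪ Z', hZ.union hZ', fun K h3 h4 =>
    h K (h1 K (fun z hz => h3 z (Or.inl hz)) h4) (h2 K (fun z hz => h3 z (Or.inr hz)) h4)⟩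

theorem df_all (h : (⊤ : Subalgebra Ω E) ∈ mp Ω fun _ : Unit => H₀) (f : E) : Df Ω H₀ f := by
  obtain ⟨j, hj, hP⟩ := h
  let T : Subalgebra Ω E :=
    { carrier := {f | Df Ω H₀ f}
      mul_mem' := fun ha hb => Df.op ha hb fun _ => mul_mem
      add_mem' := fun ha hb => Df.op ha hb fun _ => add_mem
      algebraMap_mem' := fun c => ⟨{c}, Set.finite_singleton c, fun _ h _ => h c rfl⟩ }
  have hle : cht Ω (fun _ : Unit => H₀) j ≤ T := Algebra.adjoin_le fun x hx => by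
    obtain ⟨l, a, ha, rfl⟩ := Set.mem_iUnion.1 hx
    exact ⟨∅, Set.finite_empty, fun K _ h => div_mem (h ha) (h (hj l))⟩
  obtain ⟨a, ha, b, hb, -, rfl⟩ := hP.2.2 f trivial
  exact Df.op (hle ha) (hle hb) fun _ => div_mem

end Rat

theorem rat : RatStmt := by
  classical
  intro k Ω E J _ _ _ _ _ _ H₀ S' hS hT
  have htop : (⊤ : Subalgebra Ω E) ∈ mp Ω fun _ : Unit => H₀ := hT ▸ hS.a1.nice.top
  choose Zf hZf hK using Rat.df_all htop
  choose c' h1 h2 using fun i : J => hS.s.dif fun j => if i = j then (1 : ℤ) else 0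
  choose V hV _ hV' using h1
  choose U hU _ hU' using h2
  refine ⟨⋃ i, ⋃ f ∈ U i ∪ V i, Zf f, Set.finite_iUnion fun i =>
    ((hU i).union (hV i)).biUnion fun f _ => hZf f, fun F _ _ μ h3 h4 => ?_⟩
  have h5 : ∀ i, ∀ W ⊆ U i ∪ V i, μ '' (μ ⁻¹' W) = W := fun i W hW =>
    Set.image_preimage_eq_of_subset fun f hf => hK f (μ : F →+* E).fieldRange
      (fun z hz => h3 z (Set.mem_iUnion.2 ⟨i, Set.mem_biUnion (hW hf) hz⟩)) h4
  have hm : ∀ (U U' : Set F) c c', Cl S' (μ '' U) c → Cl S' (μ '' U') c' →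
      Cl S' (μ '' Set.image2 (· * ·) U U') (c + c') := by
    rintro U U' c c' ⟨φ, h0, h⟩ ⟨φ', h0', h'⟩
    refine ⟨φ * φ', mul_ne_zero h0 h0', fun O hO => ?_⟩
    rw [Set.image_image2_distrib (map_mul μ), S'.lb_add (hS.a1.gne O hO), mul_inv,
      mul_mul_mul_comm]
    exact gn_mul (h O hO) (h' O hO)
  have h6 : Cl S' (μ '' {1}) 0 := ⟨1, one_ne_zero, fun O _ => by
    rw [Set.image_singleton, map_one, S'.lb_zero, inv_one, mul_one]
    exact gn_of_mem rfl one_ne_zero (by simp)⟩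
  let A : AddSubgroup (J → ℤ) :=
    { carrier := {c | ∃ (U V : Set F) (c₁ c₂ : J → ℤ), U.Finite ∧ V.Finite ∧ Cl S' (μ '' U) c₁ ∧
        Cl S' (μ '' V) c₂ ∧ c = c₁ - c₂}
      add_mem' := by
        rintro _ _ ⟨U, V, c₁, c₂, a1, a2, a3, a4, rfl⟩ ⟨U', V', c₁', c₂', b1, b2, b3, b4, rfl⟩
        exact ⟨_, _, _, _, a1.image2 _ b1, a2.image2 _ b2, hm _ _ _ _ a3 b3, hm _ _ _ _ a4 b4,
          by abel⟩
      zero_mem' := ⟨_, _, _, _, Set.finite_singleton 1, Set.finite_singleton 1, h6, h6, by simp⟩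
      neg_mem' := by
        rintro _ ⟨U, V, c₁, c₂, a1, a2, a3, a4, rfl⟩
        exact ⟨V, U, c₂, c₁, a2, a1, a4, a3, neg_sub _ _⟩ }
  intro c
  change c ∈ A
  rw [pi_eq_sum_univ c]
  refine sum_mem fun i _ => A.zsmul_mem ⟨μ ⁻¹' U i, μ ⁻¹' V i, _, c' i,
    (hU i).preimage μ.injective.injOn, (hV i).preimage μ.injective.injOn,
    ⟨1, one_ne_zero, fun O hO => ?_⟩, ⟨1, one_ne_zero, fun O hO => ?_⟩,
    (add_sub_cancel_left _ _).symm⟩ _
  · rw [h5 i _ Set.subset_union_left, one_mul]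
    exact hU' i O hO
  · rw [h5 i _ Set.subset_union_right, one_mul]
    exact hV' i O hO

end Pool.Agent.MP_e8e0b6_ag.R2.C
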