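import Pool.Agent.MP_e8e0b6_ag.R2.C.GSpec

/-!
Discrete valuation rings essentially of finite type in characteristic zero are formally smooth.
-/

set_option autoImplicit false

namespace Pool.Agent.MP_e8e0b6_ag.R2.C

open scoped TensorProduct Polynomial
open IsLocalRing

namespace Sm1

theorem aux {R D : Type} [CommRing R] [IsDedekindDomain R] [IsLocalRing R]
    [CommRing D] [IsDomain D] [IsLocalRing D] [Algebra R D] [IsLocalHom (algebraMap R D)]
    [FaithfulSMul R D] [Algebra.EssFiniteType R D] [PerfectField (ResidueField R)]
    (h : (maximalIdeal R).map (algebraMap R D) = maximalIdeal D) : Algebra.FormallySmooth R D := by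
  have hF : IsField (ResidueField R ⊗[R] D) := by
    have h1 : IsField (D ⧸ (maximalIdeal R).map (algebraMap R D)) := by
      rw [h]; exact Field.toIsField (ResidueField D)
    exact (Algebra.TensorProduct.quotIdealMapEquivQuotTensor D
      (maximalIdeal R)).symm.toMulEquiv.isField h1
  have : Algebra.FormallySmooth (ResidueField R) (ResidueField R ⊗[R] D) := by
    let _ := hF.toField
    exact Algebra.FormallySmooth.of_perfectField
  have : Algebra.FinitePresentation R (Algebra.EssFiniteType.subalgebra R D) :=
    Algebra.FinitePresentation.of_finiteType.1 inferInstance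
  exact Algebra.FormallySmooth.of_formallySmooth_residueField_tensor
    (Algebra.EssFiniteType.submonoid R D)

end Sm1

theorem sm1 : Sm1Stmt := by
  intro k D _ _ _ _ _ _ _ ϖ h0 hm
  have hϖ : ¬ IsUnit ϖ := (mem_maximalIdeal ϖ).1 (hm ▸ Ideal.mem_span_singleton_self ϖ)
  let φ : k[X] →+* D := (Polynomial.aeval ϖ : k[X] →ₐ[k] D)
  have hφ : Function.Injective φ := transcendental_iff_injective.1 fun h =>
    hϖ (h.isIntegral.isUnit h0)
  let p : Ideal k[X] := (maximalIdeal D).comap φ
  have hu : ∀ y : p.primeCompl, IsUnit (φ y) := fun y => by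
    by_contra hn
    exact y.2 ((mem_maximalIdeal _).2 hn)
  let _ : Algebra (Localization.AtPrime p) D := (IsLocalization.lift hu).toAlgebra
  have he : ∀ a, algebraMap (Localization.AtPrime p) D (algebraMap k[X] _ a) = φ a :=
    fun a => IsLocalization.lift_eq hu a
  have hk : ∀ (a : k[X]) (s : p.primeCompl), algebraMap (Localization.AtPrime p) D
      (IsLocalization.mk' _ a s) * φ s = φ a := fun a s => by
    rw [← he, ← map_mul, IsLocalization.mk'_spec, he]
  have : IsLocalHom (algebraMap (Localization.AtPrime p) D) := ⟨fun z hz => by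
    obtain ⟨a, s, rfl⟩ := IsLocalization.exists_mk'_eq p.primeCompl z
    refine (IsLocalization.AtPrime.isUnit_mk'_iff _ p a s).2 fun ha => ?_
    exact (mem_maximalIdeal _).1 ha (hk a s ▸ hz.mul (hu s))⟩
  have : FaithfulSMul (Localization.AtPrime p) D :=
    (faithfulSMul_iff_algebraMap_injective _ _).2 ((injective_iff_map_eq_zero _).2 fun z hz => by
      obtain ⟨a, s, rfl⟩ := IsLocalization.exists_mk'_eq p.primeCompl z
      have h1 := hk a s
      rw [hz, zero_mul, eq_comm, map_eq_zero_iff _ hφ] at h1
      rw [h1, IsLocalization.mk'_zero])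
  have : IsScalarTower k (Localization.AtPrime p) D := .of_algebraMap_eq fun c => by
    rw [IsScalarTower.algebraMap_apply k k[X] (Localization.AtPrime p), he]
    exact ((Polynomial.aeval ϖ).commutes c).symm
  have : Algebra.EssFiniteType (Localization.AtPrime p) D := .of_comp k _ _
  have : CharZero (ResidueField (Localization.AtPrime p)) :=
    charZero_of_injective_algebraMap (algebraMap k _).injective
  have hX : algebraMap (Localization.AtPrime p) D (algebraMap k[X] _ Polynomial.X) = ϖ :=
    (he _).trans (Polynomial.aeval_X ϖ)
  have : Algebra.FormallySmooth (Localization.AtPrime p) D := Sm1.aux (le_antisymm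
    (Ideal.map_le_iff_le_comap.2 fun z hz => map_nonunit _ z hz) (by
      refine hm.le.trans ((Ideal.span_singleton_le_iff_mem _).2 ?_)
      have h2 := Ideal.mem_map_of_mem (algebraMap (Localization.AtPrime p) D)
        ((mem_maximalIdeal (algebraMap k[X] _ Polynomial.X)).2 fun h => hϖ (by
          have h3 := h.map (algebraMap (Localization.AtPrime p) D)
          rwa [hX] at h3))
      rwa [hX] at h2))
  have : Algebra.FormallySmooth k[X] (Localization.AtPrime p) := .of_isLocalization p.primeCompl
  have : Algebra.FormallySmooth k (Localization.AtPrime p) := .comp k k[X] _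
  exact .comp k (Localization.AtPrime p) D

end Pool.Agent.MP_e8e0b6_ag.R2.C
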