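import Pool.Agent.MP_e8e0b6_ag.R2.C.GGlue
import Pool.Agent.MP_e8e0b6_ag.R2.C.Coo
import Pool.Agent.MP_e8e0b6_ag.R2.C.Chs
import Pool.Agent.MP_e8e0b6_ag.R2.C.Nor
import Pool.Agent.MP_e8e0b6_ag.R2.C.Eta
import Pool.Agent.MP_e8e0b6_ag.R2.C.Aje
import Pool.Agent.MP_e8e0b6_ag.R2.C.Inl
import Pool.Agent.MP_e8e0b6_ag.R2.C.Pur
import Pool.Agent.MP_e8e0b6_ag.R2.C.Dvr
import Pool.Agent.MP_e8e0b6_ag.R2.C.Sm1
import Pool.Agent.MP_e8e0b6_ag.R2.C.Sm2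
import Pool.Agent.MP_e8e0b6_ag.R2.C.Pt
import Pool.Agent.MP_e8e0b6_ag.R2.C.Tw
import Pool.Agent.MP_e8e0b6_ag.R2.C.One
import Pool.Agent.MP_e8e0b6_ag.R2.C.Rat
import Pool.Agent.MP_e8e0b6_ag.R2.C.Fx1
import Pool.Agent.MP_e8e0b6_ag.R2.C.Fx2
import Pool.Agent.MP_e8e0b6_ag.R2.C.Gdf
import Pool.Agent.MP_e8e0b6_ag.R2.C.Ine
import Pool.Agent.MP_e8e0b6_ag.R2.C.Ext

/-!
The monodromy on divisor classes is trivial.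
-/

namespace Pool.Agent.MP_e8e0b6_ag.R2.C

theorem gal_all (mk2 : Mk2Stmt) (dt : DtStmt) (sp' : SpStmt) : GalStmt' :=
  gal_of mk2 ext (chs coo) (pur (chs coo) nor (aje eta) inl) (pt dvr (sm2 sm1)) tw one rat gdf
    (ine (fx2 mk2 dt sp' tw fx1))

end Pool.Agent.MP_e8e0b6_ag.R2.C
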