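import Pool.Agent.MP_e8e0b6_ag.R2.C.Bas

/-!
The induction on the marked tower.
-/

set_option autoImplicit false

namespace Pool.Agent.MP_e8e0b6_ag.R2.C

open Pool.Agent.MP_79c67d_ag Pool.Agent.MP_20d318_ag Pool.Agent.MP_20d318_ag.AG
  Pool.Agent.MP_20d318_ag.BV Pool.Agent.MP_20d318_ag.CB

theorem ch_of (mk2 : Mk2Stmt) (vn : VnStmt) (pbS : PbStmt) (p2c : P2cStmt) (fnc : FncStmt)
    (fnr : FnrStmt) (bz : BzStmt) (stc : StcStmt) (alg : AlgStmt) (con : ConStmt) (del : DelStmt)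
    (stk : StkStmt) (frc : FrcStmt) (nrm : NrmStmt) (wex : WexStmt) (sec : SecStmt) (pq : PqStmt)
    (cen : CenStmt) (stv : StvStmt) (stp : StpStmt) (p2f : P2fStmt) (fns : FnsStmt)
    (fng : FngStmt) (top : TopStmt) : ChStmt := by
  intro k F M I _ _ _ _ _ _ _ _ R H ξ ρ S L hA
  have hS := (mk2 k M I S L.mrk).all
  have key : ∀ {I₀ : Type} [Fintype I₀] {S₀ : Sd k M I₀}, Mk S₀ → ∀ p, Pb S S₀ p →
      ∃ 𝒞, Cg R H ξ ρ S₀.T 𝒞 := by
    intro I₀ _ S₀ h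
    induction h with
    | p2 x y P h =>
      intro p hp
      refine p2f (frc vn) k F M I R H ξ ρ S L hA _ x y (p (p2 k x y).h) (p2c k M x y P h)
        ((pbS k M).2.1 _ _ S _ p _ hp (by simpa using (mk2 k M _ _ (Mk.p2 x y P h)).exh 1))
        fun O hO => ?_
      obtain ⟨O₀, h0, hd⟩ := hp.maps O hO
      refine ((h.gH O₀ h0).mono hd.1).of_unit ?_
      have := (hp.lb (p2 k x y).h O hO O₀ h0 hd).inv
      rw [h.lb] at this
      convert this using 1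
      simp [p2, div_eq_mul_inv, mul_comm]
    | fn n x y P Q h =>
      intro p hp
      obtain ⟨X₀, X₁, z, N, hr⟩ := fns alg k F M I R H ξ ρ S L hA hS n x y _ _
        (fnr pbS k M I S n x y P Q p h (mk2 k M _ _ (Mk.fn n x y P Q h)).all hp)
      exact fng (frc vn) k F M I R H ξ ρ S L _ n x y X₀ X₁ z N (fnc k M n x y h.toFn0) hr
    | bl S₀ O₀ a b H' e E h0 h ih =>
      intro p hp
      obtain ⟨𝒞, hC⟩ := ih _ ((pbS k M).2.2 _ _ S S₀ O₀ a b H' e E p hS h hp)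
      have m0 := mk2 k M _ _ h0
      obtain ⟨s₀, Z, hz⟩ := bz pbS k M I _ S S₀ O₀ a b H' e E p hS
        (mk2 k M _ _ (Mk.bl S₀ O₀ a b H' e E h0 h)).all m0.all (by simpa using m0.exh 1) h hp
      obtain ⟨t, J, hx⟩ := sec k F M I R H ξ ρ S L hA hS O₀ _ _ s₀ Z hz
      exact stp stc stk wex (cen vn con del (pq nrm)) stv k F M I R H ξ ρ S L _ S₀ O₀ a b H' e t J
        𝒞 h.toBl1 hx hC
  obtain ⟨𝒞, hC⟩ := key L.mrk _ ((pbS k M).1 I S hS)
  exact top nrm k F M I R H ξ ρ S L hS 𝒞 hC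

end Pool.Agent.MP_e8e0b6_ag.R2.C
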