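import Pool.Agent.MP_e8e0b6_ag.R2.C.GSpec

/-!
A smooth neighbourhood of a discrete valuation ring.
-/

set_option autoImplicit false

namespace Pool.Agent.MP_e8e0b6_ag.R2.C

open Pool.Agent.MP_79c67d_ag Pool.Agent.MP_20d318_ag Pool.Agent.MP_20d318_ag.AG
  Pool.Agent.MP_20d318_ag.BV Pool.Agent.MP_20d318_ag.CB

theorem sm2 : Sm2Stmt := by
  intro h1 k L _ _ _ _ B D ϖ hB hP hϖ h0 hd
  have := hP.1
  let : Algebra B D := (Subalgebra.inclusion hP.2.1).toRingHom.toAlgebra
  have : IsScalarTower k B D := .of_algebraMap_eq fun _ => rfl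
  let q := (IsLocalRing.maximalIdeal D).comap (algebraMap B D)
  have hq : ∀ b : B, b ∉ q ↔ IsU D b := fun b =>
    IsLocalRing.notMem_maximalIdeal.trans (isU_iff_isUnit (algebraMap B D b)).symm
  have : IsLocalization.AtPrime D q := by
    refine ⟨fun m => IsLocalRing.notMem_maximalIdeal.1 m.2, fun z => ?_, fun {a b} hab => ⟨1, ?_⟩⟩
    · obtain ⟨a, ha, b, hb, hu, e⟩ := hP.2.2 z z.2
      exact ⟨(⟨a, ha⟩, ⟨⟨b, hb⟩, (hq ⟨b, hb⟩).2 hu⟩), Subtype.ext (by
        change (z : L) * b = a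
        rw [e, div_mul_cancel₀ _ hu.ne])⟩
    · rw [show a = b from Subtype.ext (congrArg Subtype.val hab :)]
  have : Algebra.EssFiniteType B D := .of_isLocalization D q.primeCompl
  have : Algebra.EssFiniteType k D := .comp k B D
  have := h1 k D ⟨ϖ, hϖ.1⟩ (fun h => h0 (congrArg Subtype.val h)) (le_antisymm
    (fun a ha => Ideal.mem_span_singleton'.2
      ⟨⟨a / ϖ, hd a ((mem_mx_iff a).2 ha)⟩, Subtype.ext (div_mul_cancel₀ _ h0)⟩)
    ((Ideal.span_singleton_le_iff_mem _).2 ((mem_mx_iff ⟨ϖ, hϖ.1⟩).1 hϖ)))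
  have : Algebra.FinitePresentation k B := Algebra.FinitePresentation.of_finiteType.1 hB
  have : Algebra.IsSmoothAt k q := Algebra.FormallySmooth.of_equiv
    ((IsLocalization.algEquiv q.primeCompl D _).restrictScalars k)
  obtain ⟨f, hf, hs⟩ := Algebra.IsSmoothAt.exists_notMem_smooth k q
  have hu := (hq f).1 hf
  have hu' : IsUnit (B.val f) := IsUnit.mk0 _ hu.ne
  let φ : Localization.Away f →ₐ[k] L := IsLocalization.Away.liftAlgHom f hu'
  have h2 : ∀ a : B, φ (algebraMap B _ a) = a := fun a => IsLocalization.Away.lift_eq f hu' a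
  have h3 : Function.Injective φ := (IsLocalization.lift_injective_iff _).2 fun x y =>
    ⟨fun h => (h2 x).symm.trans ((congrArg φ h).trans (h2 y)),
      fun h => congrArg _ (Subtype.ext h)⟩
  have E : φ.range = B ⊔ Algebra.adjoin k {(f : L)⁻¹} := by
    refine le_antisymm ?_ (sup_le (fun a ha => ⟨_, h2 ⟨a, ha⟩⟩) (Algebra.adjoin_le ?_))
    · rintro _ ⟨z, rfl⟩
      obtain ⟨n, a, e⟩ := IsLocalization.Away.surj f z
      have h4 := congrArg φ e
      rw [map_mul, map_pow, h2, h2, ← eq_mul_inv_iff_mul_eq₀ (pow_ne_zero n hu.ne), ← inv_pow] at h4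
      change φ z ∈ _
      rw [h4]
      exact mul_mem ((le_sup_left : B ≤ _) a.2)
        (pow_mem ((le_sup_right : _ ≤ B ⊔ _) (Algebra.self_mem_adjoin_singleton k _)) n)
    · rintro _ rfl
      have h4 := congrArg φ (IsLocalization.Away.mul_invSelf (S := Localization.Away f) f)
      rw [map_mul, h2, map_one] at h4
      exact ⟨_, eq_inv_of_mul_eq_one_right h4⟩
  exact ⟨f, f.2, hu, E ▸ .of_equiv (AlgEquiv.ofInjective φ h3)⟩

end Pool.Agent.MP_e8e0b6_ag.R2.C
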