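import Pool.Agent.MP_e8e0b6_ag.R2.Spec1

/-!
Lifting the affine planes of a marked tower to a family: data and rows.
-/

set_option autoImplicit false

namespace Pool.Agent.MP_e8e0b6_ag.R2.C

open Pool.Agent.MP_79c67d_ag Pool.Agent.MP_20d318_ag Pool.Agent.MP_20d318_ag.AG
  Pool.Agent.MP_20d318_ag.BV Pool.Agent.MP_20d318_ag.CB

/-! ### One surface -/

section surf

variable {k M I : Type} [Field k] [Field M] [Algebra k M] [Fintype I]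

/-- The pull-back of classes to the blow-up. -/
def pb0 (I : Type) : (I → ℤ) →+ (Option I → ℤ) where
  toFun c := pb c 0
  map_zero' := by funext o; cases o <;> rfl
  map_add' c c' := by funext o; cases o <;> rfl

/-- A chart of the blow-up of the origin. -/
def bu (l : k) (c : M × M) : M × M :=
  (c.1 + algebraMap k M l * c.2, c.2 / (c.1 + algebraMap k M l * c.2))

/-- The affine plane with coordinates `c`. -/
def ap (k : Type) {M : Type} [Field k] [Field M] [Algebra k M] (c : M × M) : Subalgebra k M :=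
  Algebra.adjoin k {c.1, c.2}

/-- A family of affine planes in `T` such that finite sets lie in one of them. -/
structure Ac (T : Set (Subalgebra k M)) {Λ : Type} (c : Λ → M × M) : Prop where
  gen : ∀ l, GenP k (c l).1 (c l).2
  sub : ∀ l, Pts (ap k (c l)) ⊆ T
  cov : ∀ Y ⊆ T, Y.Finite → ∃ l, ∀ O ∈ Y, ap k (c l) ≤ O

/-- Charts of the plane. -/
def cP (x y : M) (l : k × k) : M × M :=
  (x / (1 + algebraMap k M l.1 * x + algebraMap k M l.2 * y),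
    y / (1 + algebraMap k M l.1 * x + algebraMap k M l.2 * y))

/-- Charts of a Hirzebruch surface. -/
def cH (n : ℕ) (x y : M) (l : k × k) : M × M :=
  ((x - algebraMap k M l.1)⁻¹, ((x - algebraMap k M l.1) ^ n * y + algebraMap k M l.2)⁻¹)

/-- The classes of the ruling and of a section, seen on `S`. -/
structure Rc (S : Sd k M I) (n : ℕ) (x y : M) (f G : I → ℤ) : Prop where
  gen : GenP k x y
  ef : Ex S f
  eG : Ex S G
  eS : Ex S (G + f)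
  gf : ∀ O ∈ S.T, Gn {1, x} O (S.lb f O)⁻¹
  gG : ∀ O ∈ S.T, Gn {1, y, x ^ n * y} O (S.lb G O)⁻¹
  mG : ∀ (α : k), ∀ i ≤ n, (x - algebraMap k M α) ^ i * y ∈ S.Sec G
  sG : ∀ α : k, S.Sec G ≤ Submodule.span k
    (insert 1 {z | ∃ i ≤ n, z = (x - algebraMap k M α) ^ i * y})
  sS : ∀ α : k, S.Sec (G + f) ≤ Submodule.span k (insert 1 (insert (x - algebraMap k M α)
    {z | ∃ i ≤ n + 1, z = (x - algebraMap k M α) ^ i * y}))

/-- The classes that describe the blow-up of `O₀`, seen on `S`. -/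
structure Bz (S : Sd k M I) (O₀ : Subalgebra k M) (h ε : I → ℤ) (s₀ : M) (Z : Set M) : Prop where
  eh : Ex S h
  ee : Ex S ε
  ed : Ex S (h - ε)
  one : (1 : M) ∈ S.Sec ε
  m0 : s₀ ∈ S.Sec h
  u0 : ∀ O ∈ S.T, Dom O₀ O → IsU O (s₀ * S.lb h O)
  mZ : ∀ s ∈ Z, s ∈ S.Sec (h - ε)
  sp : ∀ a ∈ mx O₀, a ∈ Submodule.span O₀ ((fun s => s / s₀) '' Z)
  ov : ∀ O ∈ S.T, S.lb ε O ∈ mx O → Dom O₀ O
  gn : ∀ O ∈ S.T, Dom O₀ O → Gn (mx O₀) O (S.lb ε O)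
  ex : ∃ O ∈ S.T, Dom O₀ O

end surf

/-! ### Families -/

section fam

variable {k F M I : Type} [Field k] [Field F] [Field M] [Algebra k F] [Algebra k M] [Fintype I]

/-- The points of the closed fibre. -/
def Xs (R : Subalgebra k F) (H : Set F) : Set (Subalgebra k F) := {O | O ∈ XX R H ∧ Dom R O}

/-- The residues of a pair. -/
noncomputable def ev2 (ξ : Subalgebra k F) (ρ : ξ →ₐ[k] M) (c : F × F) : M × M :=
  (evO ξ ρ c.1, evO ξ ρ c.2)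

/-- The ring `A` is regular at a point of the closed fibre if it is along one valuation. -/
def Vl (R : Subalgebra k F) (H : Set F) (A : Subalgebra k F) : Prop :=
  ∀ O ∈ Xs R H, ∀ V : Subalgebra k F, IsVal V → Dom O V → A ≤ V → A ≤ O

/-- The spectra of `A` and `A'` glue to a separated scheme. -/
def Cm (A A' : Subalgebra k F) : Prop :=
  ∀ V : Subalgebra k F, IsVal V → A' ≤ V → ∀ O ∈ Pts A, Dom O V → A' ≤ O

variable (R : Subalgebra k F) (H : Set F) (ξ : Subalgebra k F) (ρ : ξ →ₐ[k] M)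

/-- A lifted chart of the surface `T₀`. -/
structure Ck (T₀ : Set (Subalgebra k M)) (c : F × F) : Prop where
  m1 : c.1 ∈ ξ
  m2 : c.2 ∈ ξ
  gen : GenP k (evO ξ ρ c.1) (evO ξ ρ c.2)
  sub : Pts (ap k (ev2 ξ ρ c)) ⊆ T₀
  frac : Frac (pl R c)
  val : Vl R H (pl R c)

/-- A compatible family of lifted charts. -/
structure Cg (T₀ : Set (Subalgebra k M)) (𝒞 : Set (F × F)) : Prop where
  ck : ∀ c ∈ 𝒞, Ck R H ξ ρ T₀ c
  cm : ∀ c ∈ 𝒞, ∀ c' ∈ 𝒞, Cm (pl R c) (pl R c')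
  cov : ∀ Y ⊆ T₀, Y.Finite → ∃ c ∈ 𝒞, ∀ O ∈ Y, ap k (ev2 ξ ρ c) ≤ O

/-- Lifted sections for a ruled base. -/
structure Rs (n : ℕ) (x y : M) (X₀ X₁ z : F) (N : Set F) : Prop where
  m0 : X₀ ∈ ξ
  m1 : X₁ ∈ ξ
  mz : z ∈ ξ
  e0 : evO ξ ρ X₀ = 1
  e1 : evO ξ ρ X₁ = x
  ez : evO ξ ρ z = 1
  zN : z ∈ N
  pf : ∀ O ∈ Xs R H, Prin {X₀, X₁} O
  pG : ∀ O ∈ Xs R H, Prin N O
  ys : ∀ α : k, ∃ Y ∈ ξ, evO ξ ρ Y = (x - algebraMap k M α) ^ n * y ∧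
    Y ∈ Submodule.span ↥(R ⊔ Algebra.adjoin k {X₀ / (X₁ - algebraMap k F α * X₀)}) N ∧
    ∀ a ∈ N, a ∈ Submodule.span ↥(R ⊔ Algebra.adjoin k {X₀ / (X₁ - algebraMap k F α * X₀)})
      ({z, Y} : Set F)

/-- Local equations `t` of the lifted exceptional curve and functions `J` that vanish on it. -/
structure Sx (O₀ : Subalgebra k M) (t : Subalgebra k F → F) (J : Set F) : Prop where
  mem : ∀ O ∈ Xs R H, t O ∈ O ∧ IsU ξ (t O)
  ov : ∀ O ∈ Xs R H, t O ∈ mx O → Dom O₀ (red ξ ρ O)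
  gn : ∀ O ∈ Xs R H, Dom O₀ (red ξ ρ O) → Gn (mx O₀) (red ξ ρ O) (evO ξ ρ (t O))
  dv : ∀ O ∈ Xs R H, Dom O₀ (red ξ ρ O) → ∀ u ∈ J, u / t O ∈ O
  cmp : ∀ O ∈ Xs R H, ∀ O' ∈ Xs R H, ∀ W : Subalgebra k F, O ≤ W → O' ≤ W → IsU W (t O / t O')
  sp : ∀ a ∈ mx O₀, a ∈ Submodule.span O₀ (evO ξ ρ '' J)
  ex : ∃ O ∈ Xs R H, Dom O₀ (red ξ ρ O)

/-- A horizontal valuation ring on the lifted exceptional curve. -/
structure Wv (O₀ : Subalgebra k M) (t : Subalgebra k F → F) (W : Subalgebra k F) : Prop where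
  val : IsVal W
  ex : ∃ O ∈ Xs R H, Dom O₀ (red ξ ρ O) ∧ O ≤ W ∧ t O ∈ mx W
  un : ∀ g ∈ R, g ≠ 0 → IsU W g

/-- Coordinates that are centered along the section. -/
structure Ce (O₀ : Subalgebra k M) (t : Subalgebra k F → F) (W : Subalgebra k F) (d : F × F) :
    Prop where
  le : pl R d ≤ W
  w1 : d.1 ∈ mx W
  w2 : d.2 ∈ mx W
  pt : O₀ ∈ Pts (ap k (ev2 ξ ρ d))
  o1 : evO ξ ρ d.1 ∈ mx O₀
  o2 : evO ξ ρ d.2 ∈ mx O₀
  dv : ∀ O ∈ Xs R H, Dom O₀ (red ξ ρ O) → d.1 / t O ∈ O ∧ d.2 / t O ∈ O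

/-- The local ring of the chart at the point over `O₀`. -/
structure Pq (O₀ : Subalgebra k M) (J : Set F) (c : F × F) (P : Subalgebra k F) : Prop where
  mem : P ∈ Pts (pl R c)
  dom : Dom R P
  iff : ∀ O ∈ Xs R H, Dom P O ↔ Dom O₀ (red ξ ρ O)
  mJ : J ⊆ P
  gen : ∀ f ∈ P, ∃ r ∈ R, ∃ g ∈ Submodule.span P (mx R), f - r - g ∈ Submodule.span P J

end fam

/-! ### Rows on surfaces -/

/-- PB: pull-backs. -/
def PbStmt : Prop := ∀ (k M : Type) [Field k] [Field M] [Algebra k M],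
  (∀ (I : Type) [Fintype I] (S : Sd k M I), SAll S → Pb S S (AddMonoidHom.id _)) ∧
  (∀ (I I₀ : Type) [Fintype I] [Fintype I₀] (S : Sd k M I) (S₀ : Sd k M I₀)
    (p : (I₀ → ℤ) →+ (I → ℤ)) (c : I₀ → ℤ), Pb S S₀ p → Ex S₀ c → Ex S (p c)) ∧
  ∀ (I I₀ : Type) [Fintype I] [Fintype I₀] (S : Sd k M I) (S₀ : Sd k M I₀) (O₀ : Subalgebra k M)
    (a b : M) (H' : Set M) (e : Subalgebra k M → M) (E : Place k M)
    (p : (Option I₀ → ℤ) →+ (I → ℤ)), SAll S → Bl2 S₀ O₀ a b H' e E → Pb S (S₀.blow H' e) p →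
      Pb S S₀ (p.comp (pb0 I₀))

/-- P2C: charts of the plane. -/
def P2cStmt : Prop := ∀ (k M : Type) [Field k] [CharZero k] [IsAlgClosed k] [Field M]
  [Algebra k M] (x y : M) (L : Place k M), P2 k x y L → Ac (k := k) (p2 k x y).T (cP (k := k) x y)

/-- FNC: charts of a Hirzebruch surface. -/
def FncStmt : Prop := ∀ (k M : Type) [Field k] [CharZero k] [IsAlgClosed k] [Field M]
  [Algebra k M] (n : ℕ) (x y : M), Fn0 k n x y → Ac (k := k) (fn k n x y).T (cH (k := k) n x y)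

/-- FNR: sections on a Hirzebruch surface. -/
def FnrStmt : Prop := PbStmt → ∀ (k M I : Type) [Field k] [CharZero k] [IsAlgClosed k] [Field M]
  [Algebra k M] [Fintype I] (S : Sd k M I) (n : ℕ) (x y : M) (F G : Place k M)
  (p : (Fin 2 → ℤ) →+ (I → ℤ)), Fn1 k n x y F G → SAll (fn k n x y) → Pb S (fn k n x y) p →
    Rc S n x y (p ![1, 0]) (p ![0, 1])

/-- BZ: the classes of a blow-up. -/
def BzStmt : Prop := PbStmt → ∀ (k M I I₀ : Type) [Field k] [CharZero k] [IsAlgClosed k] [Field M]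
  [Algebra k M] [Fintype I] [Fintype I₀] (S : Sd k M I) (S₀ : Sd k M I₀) (O₀ : Subalgebra k M)
  (a b : M) (H' : Set M) (e : Subalgebra k M → M) (E : Place k M)
  (p : (Option I₀ → ℤ) →+ (I → ℤ)), SAll S → SAll (S₀.blow H' e) → SAll S₀ → Ex S₀ S₀.h →
  Bl2 S₀ O₀ a b H' e E → Pb S (S₀.blow H' e) p →
    ∃ s₀ Z, Bz S O₀ (p (pb S₀.h 0)) (p (pb 0 1)) s₀ Z

/-- STC: charts of a blow-up. -/
def StcStmt : Prop := ∀ (k M I : Type) [Field k] [CharZero k] [IsAlgClosed k] [Field M]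
  [Algebra k M] [Fintype I] (S : Sd k M I) (O₀ : Subalgebra k M) (a b : M) (H' : Set M)
  (e : Subalgebra k M → M) (c : M × M), Bl1 S O₀ a b H' e → GenP k c.1 c.2 →
  Pts (ap k c) ⊆ S.T → O₀ ∈ Pts (ap k c) → c.1 ∈ mx O₀ → c.2 ∈ mx O₀ →
    (∀ l : k, GenP k (bu l c).1 (bu l c).2 ∧ Pts (ap k (bu l c)) ⊆ (S.blow H' e).T) ∧
    ∀ Y ⊆ (S.blow H' e).T, Y.Finite → (∀ O ∈ Y, ap k c ≤ O) →
      ∃ l : k, ∀ O ∈ Y, ap k (bu l c) ≤ O

/-! ### Rows of commutative algebra -/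

/-- ALG: the module of sections over the line has two generators. -/
def AlgStmt : Prop := ∀ (k F : Type) [Field k] [Field F] [Algebra k F] (R : Subalgebra k F)
  (n : ℕ) (t z : F) (Y : ℕ → F), IsLocalRing R →
  (∀ i < n, t * Y i - Y (i + 1) ∈ Submodule.span R (Set.image2 (· * ·) (mx R)
    (insert z (insert (t * z) (insert (t * Y n) {a | ∃ j ≤ n, a = Y j}))))) →
  ∃ p ∈ R ⊔ Algebra.adjoin k {t}, ∃ q ∈ R ⊔ Algebra.adjoin k {t},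
    (∀ i ≤ n, Y i ∈ Submodule.span ↥(R ⊔ Algebra.adjoin k {t}) ({z, q * Y 0 + p * Y n} : Set F)) ∧
    ∃ a ∈ Submodule.span ↥(R ⊔ Algebra.adjoin k {t}) (mx R),
      ∃ b ∈ Submodule.span ↥(R ⊔ Algebra.adjoin k {t}) (mx R),
        q * Y 0 + p * Y n - Y 0 = a * z + b * (q * Y 0 + p * Y n)

/-- CON: functions that are constant along a horizontal valuation. -/
def ConStmt : Prop := VnStmt → ∀ (k F : Type) [Field k] [Field F] [Algebra k F]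
  (R P W : Subalgebra k F) (c : F × F), IsLocalRing R → P ∈ Pts (pl R c) → Dom R P → IsVal W →
  P ≤ W → (∀ V : Subalgebra k F, IsVal V → V ≤ W → Dom R V → Dom P V) →
  (∀ f ∈ P, ∃ r ∈ R, ∃ g ∈ Submodule.span P (mx R), f - r - g ∈ mx W) →
    ∀ f ∈ P, ∃ r ∈ R, f - r ∈ mx W

/-- DEL: the ideal of the section is generated by `J`. -/
def DelStmt : Prop := ∀ (k F : Type) [Field k] [Field F] [Algebra k F]
  (R P W : Subalgebra k F) (d : F × F) (J : Set F), IsLocalRing R → P ∈ Pts (pl R d) → Dom R P →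
  IsLocalRing W → P ≤ W → (∀ g ∈ R, g ≠ 0 → IsU W g) → d.1 ∈ mx W → d.2 ∈ mx W → J ⊆ P →
  J ⊆ mx W →
  (∀ f ∈ P, ∃ r ∈ R, ∃ g ∈ Submodule.span P (mx R), f - r - g ∈ Submodule.span P J) →
    d.1 ∈ Submodule.span P J ∧ d.2 ∈ Submodule.span P J

/-- STK: charts of the blow-up of a section are compatible. -/
def StkStmt : Prop := ∀ (k F : Type) [Field k] [Field F] [Algebra k F]
  (R W : Subalgebra k F) (d d' : F × F) (l l' : k), Cm (pl R d) (pl R d') →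
  Cm (pl R d') (pl R d) → IsVal W → pl R d ≤ W → pl R d' ≤ W → (∀ g ∈ R, g ≠ 0 → IsU W g) →
  d.1 ∈ mx W → d.2 ∈ mx W → d'.1 ∈ mx W → d'.2 ∈ mx W → (bu l d).1 ≠ 0 → (bu l' d').1 ≠ 0 →
    Cm (pl R (bu l d)) (pl R (bu l' d'))

/-! ### Rows on families -/

/-- A statement about all families over a local ring. -/
def AllL (Φ : ∀ (k F M I : Type) [Field k] [Field F] [Field M] [Algebra k F] [Algebra k M]
    [Fintype I] (_R : Subalgebra k F) (_H : Set F) (ξ : Subalgebra k F), (ξ →ₐ[k] M) →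
    Sd k M I → Prop) : Prop :=
  ∀ (k F M I : Type) [Field k] [CharZero k] [IsAlgClosed k] [Field F] [Field M] [Algebra k F]
    [Algebra k M] [Fintype I] (R : Subalgebra k F) (H : Set F) (ξ : Subalgebra k F)
    (ρ : ξ →ₐ[k] M) (S : Sd k M I), Lc R H ξ ρ S → Φ k F M I R H ξ ρ S

/-- Lifted coordinates generate the function field. -/
def Frc : Prop := AllL fun k F _ _ _ _ _ _ _ _ R H ξ ρ _ => ∀ c : F × F, c.1 ∈ ξ → c.2 ∈ ξ →
  GenP k (evO ξ ρ c.1) (evO ξ ρ c.2) → Vl R H (pl R c) → Frac (pl R c)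

/-- FRC. -/
def FrcStmt : Prop := VnStmt → Frc

/-- NRM: the chart is a polynomial ring. -/
def NrmStmt : Prop := AllL fun k F _ _ _ _ _ _ _ _ R _ ξ ρ _ => ∀ c : F × F, c.1 ∈ ξ → c.2 ∈ ξ →
  GenP k (evO ξ ρ c.1) (evO ξ ρ c.2) → AlgebraicIndependent R ![c.1, c.2] ∧
    (Frac (pl R c) → ∀ P ∈ Pts (pl R c), Nrm P)

/-- WEX: a horizontal valuation. -/
def WexStmt : Prop := AllL fun k F _ _ _ _ _ _ _ _ R H ξ _ _ => ∀ O ∈ Xs R H, ∀ t ∈ mx O,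
  IsU ξ t → ∃ W : Subalgebra k F, IsVal W ∧ O ≤ W ∧ t ∈ mx W ∧ ∀ g ∈ R, g ≠ 0 → IsU W g

/-- SEC: lifting the sections that define a blow-up. -/
def SecStmt : Prop := AllL fun k _ M _ _ _ _ _ _ _ R H ξ ρ S => LA R H ξ ρ S → SAll S →
  ∀ (O₀ : Subalgebra k M) h ε s₀ Z, Bz S O₀ h ε s₀ Z → ∃ t J, Sx R H ξ ρ O₀ t J

/-- The local ring of a chart over the centre. -/
def Pqs : Prop := AllL fun k _ M _ _ _ _ _ _ _ R H ξ ρ _ => ∀ (O₀ : Subalgebra k M) T₀ t J c,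
  Sx R H ξ ρ O₀ t J → Ck R H ξ ρ T₀ c → RatPt O₀ → O₀ ∈ Pts (ap k (ev2 ξ ρ c)) →
    ∃ P, Pq R H ξ ρ O₀ J c P

/-- PQ. -/
def PqStmt : Prop := NrmStmt → Pqs

/-- Centering a chart. -/
def Cen : Prop := AllL fun k _ M _ _ _ _ _ _ _ R H ξ ρ _ => ∀ (O₀ : Subalgebra k M) T₀ t J W c,
  Sx R H ξ ρ O₀ t J → Wv R H ξ ρ O₀ t W → Ck R H ξ ρ T₀ c → RatPt O₀ →
  O₀ ∈ Pts (ap k (ev2 ξ ρ c)) → ∃ d, pl R d = pl R c ∧ ap k (ev2 ξ ρ d) = ap k (ev2 ξ ρ c) ∧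
    Ck R H ξ ρ T₀ d ∧ Ce R H ξ ρ O₀ t W d

/-- CEN. -/
def CenStmt : Prop := VnStmt → ConStmt → DelStmt → Pqs → Cen

/-- STV: a chart of the blow-up. -/
def StvStmt : Prop := AllL fun k _ M _ _ _ _ _ _ _ R H ξ ρ _ =>
  ∀ (O₀ : Subalgebra k M) T₀ T₁ t J W d (l : k), Sx R H ξ ρ O₀ t J → Ck R H ξ ρ T₀ d →
  Ce R H ξ ρ O₀ t W d → GenP k (bu l (ev2 ξ ρ d)).1 (bu l (ev2 ξ ρ d)).2 →
  Pts (ap k (bu l (ev2 ξ ρ d))) ⊆ T₁ →
    ev2 ξ ρ (bu l d) = bu l (ev2 ξ ρ d) ∧ Ck R H ξ ρ T₁ (bu l d)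

/-- The induction step. -/
def Stp : Prop := AllL fun k _ M _ _ _ _ _ _ _ R H ξ ρ _ => ∀ (I₀ : Type) [Fintype I₀]
  (S₀ : Sd k M I₀) (O₀ : Subalgebra k M) a b H' e t J 𝒞, Bl1 S₀ O₀ a b H' e →
  Sx R H ξ ρ O₀ t J → Cg R H ξ ρ S₀.T 𝒞 → ∃ 𝒞', Cg R H ξ ρ (S₀.blow H' e).T 𝒞'

/-- STP. -/
def StpStmt : Prop := StcStmt → StkStmt → WexStmt → Cen → StvStmt → Stp

/-- P2F: the plane as a base. -/
def P2fStmt : Prop := Frc → AllL fun k _ M I _ _ _ _ _ _ R H ξ ρ S => LA R H ξ ρ S →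
  ∀ (T₀ : Set (Subalgebra k M)) (x y : M) (h : I → ℤ), Ac (k := k) T₀ (cP (k := k) x y) →
  Ex S h → (∀ O ∈ S.T, Gn {x, y, 1} O (S.lb h O)⁻¹) → ∃ 𝒞, Cg R H ξ ρ T₀ 𝒞

/-- FNS: lifting the sections of a ruled base. -/
def FnsStmt : Prop := AlgStmt → AllL fun _ _ M I _ _ _ _ _ _ R H ξ ρ S => LA R H ξ ρ S → SAll S →
  ∀ (n : ℕ) (x y : M) (f G : I → ℤ), Rc S n x y f G → ∃ X₀ X₁ z N, Rs R H ξ ρ n x y X₀ X₁ z N

/-- FNG: a Hirzebruch surface as a base. -/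
def FngStmt : Prop := Frc → AllL fun k _ M _ _ _ _ _ _ _ R H ξ ρ _ =>
  ∀ (T₀ : Set (Subalgebra k M)) (n : ℕ) (x y : M) X₀ X₁ z N, Ac (k := k) T₀ (cH (k := k) n x y) →
  Rs R H ξ ρ n x y X₀ X₁ z N → ∃ 𝒞, Cg R H ξ ρ T₀ 𝒞

/-- TOP: charts of the whole family. -/
def TopStmt : Prop := NrmStmt → AllL fun _ _ _ _ _ _ _ _ _ _ R H ξ ρ S => SAll S →
  ∀ 𝒞, Cg R H ξ ρ S.T 𝒞 → ChO R H

end Pool.Agent.MP_e8e0b6_ag.R2.C
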