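import Pool.Agent.MP_e8e0b6_ag.R2.C.Bas

/-!
Charts of the blow-up of a section are compatible.
-/

set_option autoImplicit false

namespace Pool.Agent.MP_e8e0b6_ag.R2.C

open Pool.Agent.MP_79c67d_ag Pool.Agent.MP_20d318_ag Pool.Agent.MP_20d318_ag.AG
  Pool.Agent.MP_20d318_ag.BV Pool.Agent.MP_20d318_ag.CB

namespace Stk

variable {k F : Type} [Field k] [Field F] [Algebra k F] {O P R W : Subalgebra k F} {d : F × F}
  {f : F}

/-- Functions that vanish along `W` lie in the ideal of the coordinates. -/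
theorem mem_span (hP : P ∈ Pts (pl R d)) (hW : IsVal W) (hle : pl R d ≤ W)
    (hR : ∀ g ∈ R, g ≠ 0 → IsU W g) (w1 : d.1 ∈ mx W) (w2 : d.2 ∈ mx W) (hf : f ∈ P)
    (hm : f ∈ mx W) : f ∈ Submodule.span P ({d.1, d.2} : Set F) := by
  have s1 : d.1 ∈ Submodule.span P ({d.1, d.2} : Set F) := Submodule.subset_span (Or.inl rfl)
  have s2 : d.2 ∈ Submodule.span P ({d.1, d.2} : Set F) := Submodule.subset_span (Or.inr rfl)
  rcases isU_or_mx (hP.2.1 fst_mem) with h1 | h1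
  · simpa [h1.ne] using span_mul (h1.div_mem hf) s1
  rcases isU_or_mx (hP.2.1 snd_mem) with h2 | h2
  · simpa [h2.ne] using span_mul (h2.div_mem hf) s2
  have hl := hW.isLocalRing
  obtain ⟨a, ha, b, hb, hu, rfl⟩ := hP.2.2 f hf
  have hbW : b ∈ W := hle hb
  obtain ⟨r, hr, p, hp, q, hq, rfl⟩ := pl_ker ha
  have h3 : r ∈ mx W := by
    have h4 := mx_mul_right hm hbW
    rw [div_mul_cancel₀ _ hu.ne] at h4
    simpa using mx_sub' hl (mx_sub' hl h4 (mx_mul_left (hle hq) w2)) (mx_mul_left (hle hp) w1)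
  obtain rfl : r = 0 := by_contra fun hn => h3.2 (hR r hr hn)
  have e : (0 + p * d.1 + q * d.2) / b = p / b * d.1 + q / b * d.2 := by ring
  rw [e]
  exact add_mem (span_mul (hu.div_mem (hP.2.1 hp)) s1) (span_mul (hu.div_mem (hP.2.1 hq)) s2)

/-- In a ring over a chart of the blow-up the ideal of the coordinates is principal. -/
theorem div_bu {l : k} (h0 : (bu l d).1 ≠ 0) (hO : pl R (bu l d) ≤ O) (hP : P ≤ O)
    (hf : f ∈ Submodule.span P ({d.1, d.2} : Set F)) : f / (bu l d).1 ∈ O := by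
  have h2 : d.2 / (bu l d).1 ∈ O := hO snd_mem
  refine span_div hP ?_ hf
  rintro _ (rfl | rfl)
  · have e : d.1 / (bu l d).1 = 1 - algebraMap k F l * (d.2 / (bu l d).1) := by
      rw [eq_sub_iff_add_eq, ← mul_div_assoc, ← add_div]
      exact div_self h0
    rw [e]
    exact O.sub_mem O.one_mem (O.mul_mem (O.algebraMap_mem l) h2)
  · exact h2

theorem fst_div {l : k} {u : F} (h1 : d.1 / u ∈ O) (h2 : d.2 / u ∈ O) : (bu l d).1 / u ∈ O := by
  have e : (bu l d).1 / u = d.1 / u + algebraMap k F l * (d.2 / u) := by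
    rw [← mul_div_assoc, ← add_div]; rfl
  rw [e]
  exact O.add_mem h1 (O.mul_mem (O.algebraMap_mem l) h2)

end Stk

open Stk in
theorem stk : StkStmt := by
  intro k F _ _ _ R W d d' l l' hc hc' hW hle hle' hR w1 w2 w1' w2' h0 h0' V hV hV' O hO hd
  have h1 : pl R d ≤ O := (pl_le_bu l h0).trans hO.2.1
  have h2 : pl R d' ≤ V := (pl_le_bu l' h0').trans hV'
  obtain ⟨P, hP, hPV⟩ := exists_ctr hV.isLocalRing (h1.trans hd.1)
  obtain ⟨P', hP', hPV'⟩ := exists_ctr hV.isLocalRing h2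
  have h3 : pl R d' ≤ P := hc V hV h2 P hP hPV
  have h4 : pl R d ≤ P' := hc' V hV (h1.trans hd.1) P' hP' hPV'
  have h5 : P ≤ O := Pts_le hP h1 hPV.1 hd
  have a1 := div_bu h0 hO.2.1 h5 (mem_span hP hW hle hR w1 w2 (h3 fst_mem) w1')
  have a2 := div_bu h0 hO.2.1 h5 (mem_span hP hW hle hR w1 w2 (h3 snd_mem) w2')
  have b1 := div_bu h0' hV' hPV'.1 (mem_span hP' hW hle' hR w1' w2' (h4 fst_mem) w1)
  have b2 := div_bu h0' hV' hPV'.1 (mem_span hP' hW hle' hR w1' w2' (h4 snd_mem) w2)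
  have h6 : (bu l' d').1 / (bu l d).1 ∈ O := fst_div a1 a2
  have h7 : IsU O ((bu l' d').1 / (bu l d).1) :=
    hd.2 _ h6 ⟨div_ne_zero h0' h0, hd.1 h6, by rw [inv_div]; exact fst_div b1 b2⟩
  refine pl_le (le_pl.trans h1) ?_ ?_
  · simpa [h0] using O.mul_mem h6 (hO.2.1 fst_mem)
  · have h8 := h7.div_mem a2
    rwa [div_div_div_cancel_right₀ h0] at h8

end Pool.Agent.MP_e8e0b6_ag.R2.C
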